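import Pool.Agent.Lib.MP_23a7d9_al.RealMain

/-!
From the list `Λ` of complex numbers to the real construction.
-/

namespace Pool.Agent.Lib.MP_23a7d9_al

open Finset

/-- a subring of the reals other than the integers is dense -/
lemma dense_of_ne {S : Subring ℝ} (hS : S ≠ (Int.castRingHom ℝ).range) :
    ∀ x y : ℝ, x < y → ∃ s ∈ S, x < s ∧ s < y := by
  have h1 : (Int.castRingHom ℝ).range ≤ S := by
    rintro _ ⟨n, rfl⟩
    exact intCast_mem S n
  have h2 : ∃ x ∈ S, x ∉ (Int.castRingHom ℝ).range := by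
    by_contra h
    push Not at h
    exact hS (le_antisymm h h1)
  obtain ⟨x, hxS, hx⟩ := h2
  set t := Int.fract x with ht
  have htS : t ∈ S := by
    rw [ht, Int.fract]
    exact S.sub_mem hxS (intCast_mem S _)
  have ht0 : 0 < t := by
    refine lt_of_le_of_ne (Int.fract_nonneg x) fun h => hx ?_
    refine ⟨⌊x⌋, ?_⟩
    have := Int.self_sub_floor x
    rw [ht] at h
    rw [← h] at this
    simp only [eq_intCast]
    linarith
  have ht1 : t < 1 := Int.fract_lt_one x
  intro a b hab
  have h3 := tendsto_pow_atTop_nhds_zero_of_lt_one ht0.le ht1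
  obtain ⟨k, hk⟩ := (h3.eventually (gt_mem_nhds (sub_pos.2 hab))).exists
  set e := t ^ k with he
  have he0 : 0 < e := by positivity
  have heS : e ∈ S := S.pow_mem htS k
  refine ⟨(⌊a / e⌋ + 1 : ℤ) * e, S.mul_mem (intCast_mem S _) heS, ?_, ?_⟩
  · have := Int.lt_floor_add_one (a / e)
    rw [div_lt_iff₀ he0] at this
    push_cast
    exact this
  · have := Int.floor_le (a / e)
    rw [le_div_iff₀ he0] at this
    push_cast
    linarith

section complex

open PowerSeries

/-- `X * d/dX` over the complex numbers -/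
noncomputable def thetaC (A : ℂ⟦X⟧) : ℂ⟦X⟧ := PowerSeries.mk fun n => (n : ℂ) * coeff n A

lemma thetaC_mul (A B : ℂ⟦X⟧) : thetaC (A * B) = thetaC A * B + A * thetaC B := by
  ext n
  simp only [thetaC, coeff_mk, coeff_mul, map_add, Finset.mul_sum, ← Finset.sum_add_distrib]
  refine Finset.sum_congr rfl fun x hx => ?_
  have h : x.1 + x.2 = n := by simpa using hx
  rw [← h]; push_cast; ring

/-- the generating series of power sums -/
noncomputable def psum (Λ : Multiset ℂ) : ℂ⟦X⟧ :=
  PowerSeries.mk fun k => if k = 0 then 0 else (Λ.map fun z => z ^ k).sum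

/-- `∏ (1 - λ X)` -/
noncomputable def prodC (Λ : Multiset ℂ) : ℂ⟦X⟧ := (Λ.map fun z => 1 - C z * X).prod

lemma psum_cons (z : ℂ) (Λ : Multiset ℂ) :
    psum (z ::ₘ Λ) = (PowerSeries.mk fun k => if k = 0 then 0 else z ^ k) + psum Λ := by
  ext k
  simp only [psum, coeff_mk, map_add]
  split_ifs <;> simp

lemma single_identity (z : ℂ) :
    (PowerSeries.mk fun k => if k = 0 then 0 else z ^ k) * (1 - C z * X) = C z * X := by
  ext k
  rw [mul_sub, mul_one, map_sub, ← mul_assoc, mul_comm _ (C z), mul_assoc, coeff_C_mul]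
  rcases Nat.eq_zero_or_pos k with rfl | hk
  · simp
  · obtain ⟨m, rfl⟩ : ∃ m, k = m + 1 := ⟨k - 1, by omega⟩
    rw [coeff_succ_mul_X, coeff_mk, coeff_mk, if_neg (by omega), coeff_C_mul, coeff_X]
    rcases Nat.eq_zero_or_pos m with rfl | hm
    · simp
    · rw [if_neg hm.ne', if_neg (by omega), pow_succ]
      ring

lemma thetaC_prod (Λ : Multiset ℂ) : thetaC (prodC Λ) = -(psum Λ * prodC Λ) := by
  induction Λ using Multiset.induction_on with
  | empty =>
    have h1 : psum 0 = 0 := by
      ext k; simp [psum]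
    have h2 : prodC 0 = 1 := by simp [prodC]
    rw [h1, h2]
    ext k
    rw [thetaC, coeff_mk, coeff_one]
    split_ifs with h <;> simp [h]
  | cons z Λ ih =>
    have h1 : prodC (z ::ₘ Λ) = (1 - C z * X) * prodC Λ := by simp [prodC]
    have h2 : thetaC (1 - C z * X) = -(C z * X) := by
      ext k
      rw [thetaC, coeff_mk, map_sub, map_neg, coeff_C_mul, coeff_one, coeff_X]
      rcases Nat.eq_zero_or_pos k with rfl | hk
      · simp
      · rw [if_neg hk.ne']
        split_ifs with h
        · subst h; simp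
        · simp
    rw [h1, thetaC_mul, ih, h2, psum_cons]
    have h3 := single_identity z
    linear_combination (prodC Λ) * h3

end complex

section poly

open Polynomial

/-- `∏ (X - λ)` -/
noncomputable def Q (Λ : Multiset ℂ) : ℂ[X] := (Λ.map fun z => X - C z).prod

lemma reverse_X_sub_C (z : ℂ) : (X - C z : ℂ[X]).reverse = 1 - C z * X := by
  ext n
  rw [coeff_reverse, natDegree_X_sub_C]
  rcases Nat.lt_or_ge n 2 with h | h
  · have : n = 0 ∨ n = 1 := by omega
    rcases this with rfl | rfl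
    · rw [revAt_le (by omega)]; simp
    · rw [revAt_le (by omega)]; simp [coeff_one]
  · rw [revAt_eq_self_of_lt (by omega)]
    have h1 : (X - C z : ℂ[X]).coeff n = 0 :=
      coeff_eq_zero_of_natDegree_lt (by rw [natDegree_X_sub_C]; omega)
    rw [h1, coeff_sub, coeff_one, if_neg (by omega), coeff_C_mul, coeff_X, if_neg (by omega)]
    simp

lemma reverse_Q (Λ : Multiset ℂ) : (Q Λ).reverse = (Λ.map fun z => 1 - C z * X).prod := by
  induction Λ using Multiset.induction_on with
  | empty =>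
    have h1 : Q 0 = C 1 := by simp [Q]
    rw [h1, reverse_C]
    simp
  | cons z Λ ih =>
    have h1 : Q (z ::ₘ Λ) = (X - C z) * Q Λ := by simp [Q]
    rw [h1, reverse_mul_of_domain, ih, reverse_X_sub_C]
    simp

lemma coe_reverse_Q (Λ : Multiset ℂ) : ((Q Λ).reverse : PowerSeries ℂ) = prodC Λ := by
  rw [reverse_Q]
  induction Λ using Multiset.induction_on with
  | empty => simp [prodC]
  | cons z Λ ih =>
    have h1 : prodC (z ::ₘ Λ) = (1 - PowerSeries.C z * PowerSeries.X) * prodC Λ := by simp [prodC]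
    rw [h1, Multiset.map_cons, Multiset.prod_cons, Polynomial.coe_mul, ih]
    simp

/-- two polynomials with the same reverse, one with nonzero constant term -/
lemma eq_X_pow_mul {χ q : ℂ[X]} (h : χ.reverse = q.reverse) (hq : q.coeff 0 ≠ 0) :
    ∃ k, χ = X ^ k * q := by
  have hdeg : q.natDegree ≤ χ.natDegree := by
    have h1 := reverse_natDegree q
    have h2 : q.natTrailingDegree = 0 := natTrailingDegree_eq_zero.2 (Or.inr hq)
    rw [h2, Nat.sub_zero, ← h] at h1
    rw [← h1]
    exact reverse_natDegree_le χ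
  refine ⟨χ.natDegree - q.natDegree, ?_⟩
  ext i
  rw [coeff_X_pow_mul']
  rcases Nat.lt_or_ge χ.natDegree i with h1 | h1
  · rw [coeff_eq_zero_of_natDegree_lt h1, if_pos (by omega), coeff_eq_zero_of_natDegree_lt]
    omega
  · have h2 := congrArg (fun p => p.coeff (χ.natDegree - i)) h
    simp only [coeff_reverse] at h2
    rw [revAt_le (by omega), show χ.natDegree - (χ.natDegree - i) = i by omega] at h2
    rw [h2]
    split_ifs with h3
    · rw [revAt_le (by omega)]
      congr 1
      omega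
    · rw [revAt_eq_self_of_lt (by omega), coeff_eq_zero_of_natDegree_lt]
      omega

end poly

section bounds

/-- a common strict bound for the moduli of the smaller eigenvalues -/
lemma exists_mu {lam : ℝ} (hlam : 0 < lam) (Λ : Multiset ℂ) (h : ∀ z ∈ Λ, ‖z‖ < lam) :
    ∃ μ, 0 < μ ∧ μ < lam ∧ ∀ z ∈ Λ, ‖z‖ ≤ μ := by
  induction Λ using Multiset.induction_on with
  | empty => exact ⟨lam / 2, by positivity, by linarith, by simp⟩
  | cons a Λ ih =>
    obtain ⟨μ, h1, h2, h3⟩ := ih fun z hz => h z (Multiset.mem_cons_of_mem hz)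
    refine ⟨max μ ‖a‖, lt_max_of_lt_left h1, max_lt h2 (h a (Multiset.mem_cons_self _ _)), ?_⟩
    intro z hz
    rw [Multiset.mem_cons] at hz
    rcases hz with rfl | hz
    · exact le_max_right _ _
    · exact (h3 z hz).trans (le_max_left _ _)

lemma norm_psum_le (Λ : Multiset ℂ) {μ : ℝ} (h : ∀ z ∈ Λ, ‖z‖ ≤ μ) (k : ℕ) :
    ‖(Λ.map fun z => z ^ k).sum‖ ≤ Λ.card * μ ^ k := by
  induction Λ using Multiset.induction_on with
  | empty => simp
  | cons a Λ ih =>
    have h1 := ih fun z hz => h z (Multiset.mem_cons_of_mem hz)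
    have h2 : ‖a ^ k‖ ≤ μ ^ k := by
      rw [norm_pow]
      exact pow_le_pow_left₀ (norm_nonneg _) (h a (Multiset.mem_cons_self _ _)) _
    rw [Multiset.map_cons, Multiset.sum_cons, Multiset.card_cons]
    have h3 := norm_add_le (a ^ k) (Λ.map fun z => z ^ k).sum
    push_cast
    linarith

end bounds

open Polynomial in
theorem main_thm {S : Subring ℝ} (hS : S ≠ (Int.castRingHom ℝ).range) {Λ : Multiset ℂ}
    (h0 : (0 : ℂ) ∉ Λ) (hP : ∃ ρ : ℝ, 0 < ρ ∧ (ρ : ℂ) ∈ Λ ∧
      ∀ z ∈ Λ.erase (ρ : ℂ), ‖z‖ < ρ)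
    (hC : ∀ k, ∃ s ∈ S, (Q Λ).coeff k = ((s : ℝ) : ℂ))
    (hT : ∀ k, 1 ≤ k → 0 ≤ (Λ.map fun z => z ^ k).sum.re ∧
      (0 < (Λ.map fun z => z ^ k).sum.re → ∀ n, 1 ≤ n → 0 < (Λ.map fun z => z ^ (n * k)).sum.re)) :
    ∃ (n : ℕ) (A : Matrix (Fin n) (Fin n) ℝ), (∀ i j, A i j ∈ S) ∧ A.IsPrimitive ∧
      ∃ k, (A.map (algebraMap ℝ ℂ)).charpoly = X ^ k * Q Λ := by
  obtain ⟨lam, hlam, hmem, hsmall⟩ := hP
  have hdense := dense_of_ne hS
  -- the polynomial `p`
  have hC' : ∀ k, ∃ s ∈ S, (Q Λ).reverse.coeff k = ((s : ℝ) : ℂ) := by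
    intro k
    rw [coeff_reverse]
    exact hC _
  choose c hcS hc using hC'
  set p : PowerSeries ℝ := PowerSeries.mk c with hp
  have hpc : ∀ k, ((PowerSeries.coeff k p : ℝ) : ℂ) = PowerSeries.coeff k (prodC Λ) := by
    intro k
    rw [← coe_reverse_Q, Polynomial.coeff_coe, hc, hp, PowerSeries.coeff_mk]
  have hpS : p ∈ SubS S := by
    intro k
    rw [hp, PowerSeries.coeff_mk]
    exact hcS k
  have hpF : p ∈ Fins := by
    refine ⟨(Q Λ).reverse.natDegree, fun n hn => ?_⟩
    have h1 := hc n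
    rw [coeff_eq_zero_of_natDegree_lt hn] at h1
    rw [hp, PowerSeries.coeff_mk]
    exact_mod_cast h1.symm
  have hmonic : (Q Λ).Monic := monic_multiset_prod_of_monic _ _ fun z _ => monic_X_sub_C z
  have hp0 : PowerSeries.coeff 0 p = 1 := by
    have h1 := hc 0
    rw [coeff_zero_reverse, hmonic.leadingCoeff] at h1
    rw [hp, PowerSeries.coeff_mk]
    exact_mod_cast h1.symm
  -- the traces
  set s : PowerSeries ℝ := PowerSeries.mk fun k => (PowerSeries.coeff k (psum Λ)).re with hs
  have hsk : ∀ k, 0 < k → PowerSeries.coeff k s = (Λ.map fun z => z ^ k).sum.re := by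
    intro k hk
    rw [hs, PowerSeries.coeff_mk, psum, PowerSeries.coeff_mk, if_neg hk.ne']
  have hsre : ∀ k, PowerSeries.coeff k s = (PowerSeries.coeff k (psum Λ)).re := by
    intro k
    rw [hs, PowerSeries.coeff_mk]
  have hs00 : PowerSeries.coeff 0 s = 0 := by
    rw [hs, PowerSeries.coeff_mk, psum, PowerSeries.coeff_mk, if_pos rfl, Complex.zero_re]
  have hLD : LD p s := by
    unfold LD
    ext n
    have h1 := congrArg (PowerSeries.coeff n) (thetaC_prod Λ)
    rw [thetaC, PowerSeries.coeff_mk, map_neg, PowerSeries.coeff_mul, ← hpc] at h1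
    have h2 := congrArg Complex.re h1
    rw [Complex.neg_re, Complex.re_sum] at h2
    rw [coeff_theta, map_neg, PowerSeries.coeff_mul]
    have h3 : ((n : ℂ) * ((PowerSeries.coeff n p : ℝ) : ℂ)).re = (n : ℝ) * PowerSeries.coeff n p := by
      rw [← Complex.ofReal_natCast, ← Complex.ofReal_mul, Complex.ofReal_re]
    rw [h3] at h2
    rw [h2]
    congr 1
    refine Finset.sum_congr rfl fun x _ => ?_
    rw [← hpc, Complex.re_mul_ofReal, hsre]
  have hs0 : ∀ k, 0 ≤ PowerSeries.coeff k s := by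
    intro k
    rcases Nat.eq_zero_or_pos k with rfl | hk
    · rw [hs00]
    · rw [hsk k hk]; exact (hT k hk).1
  have htr : ∀ k, 0 < k → 0 < PowerSeries.coeff k s → ∀ n, 0 < n →
      0 < PowerSeries.coeff (k * n) s := by
    intro k hk h1 n hn
    rw [hsk k hk] at h1
    rw [hsk _ (Nat.mul_pos hk hn), Nat.mul_comm]
    exact (hT k hk).2 h1 n hn
  -- the growth of the traces
  obtain ⟨μ, hμ0, hμ1, hμ⟩ := exists_mu hlam _ hsmall
  set θ : ℝ := (μ / lam + 1) / 2 with hθ
  have hμl : μ / lam < 1 := (div_lt_one hlam).2 hμ1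
  have hμl0 : 0 < μ / lam := by positivity
  have hθ0 : 0 < θ := by positivity
  have hθ1 : θ < 1 := by linarith
  have hμθ : μ / (θ * lam) < 1 := by
    rw [div_lt_one (by positivity)]
    have : μ / lam < θ := by linarith
    rwa [div_lt_iff₀ hlam] at this
  have hlim : Filter.Tendsto (fun k : ℕ => (Λ.erase (lam : ℂ)).card * (μ / (θ * lam)) ^ k)
      Filter.atTop (nhds 0) := by
    have := (tendsto_pow_atTop_nhds_zero_of_lt_one (by positivity) hμθ).const_mul
      ((Λ.erase (lam : ℂ)).card : ℝ)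
    simpa using this
  obtain ⟨L1, hL1⟩ := Filter.eventually_atTop.1
    (hlim.eventually (ge_mem_nhds (show (0 : ℝ) < 1 / 4 by norm_num)))
  have hbound : ∀ k, L1 + 1 ≤ k →
      |PowerSeries.coeff k s - lam ^ k| ≤ 1 / 4 * (θ * lam) ^ k := by
    intro k hk
    have h1 : (Λ.map fun z => z ^ k).sum =
        (lam : ℂ) ^ k + ((Λ.erase (lam : ℂ)).map fun z => z ^ k).sum := by
      conv_lhs => rw [← Multiset.cons_erase hmem]
      rw [Multiset.map_cons, Multiset.sum_cons]
    have h2 : PowerSeries.coeff k s - lam ^ k =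
        (((Λ.erase (lam : ℂ)).map fun z => z ^ k).sum).re := by
      rw [hsk k (by omega), h1, Complex.add_re, ← Complex.ofReal_pow, Complex.ofReal_re]
      ring
    rw [h2]
    refine (Complex.abs_re_le_norm _).trans ((norm_psum_le _ hμ k).trans ?_)
    have h3 := hL1 k (by omega)
    have h4 : 0 < (θ * lam) ^ k := by positivity
    have h5 : μ ^ k = (μ / (θ * lam)) ^ k * (θ * lam) ^ k := by
      rw [← mul_pow, div_mul_cancel₀ _ (by positivity)]
    rw [h5, ← mul_assoc]
    exact mul_le_mul_of_nonneg_right h3 h4.le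
  obtain ⟨V, _, _, B, hBS, hBN, ⟨m, hm0, hm⟩, hdet⟩ :=
    real_main hdense hpS hpF hp0 hLD hs0 htr hlam hθ0 hθ1 hbound
  -- identification of the characteristic polynomial
  have hrev : ∀ k, (B.charpolyRev).coeff k = c k := by
    intro k
    have h1 : (B.charpolyRev : PowerSeries ℝ) = p := by
      rw [← hdet, Matrix.charpolyRev, ← Polynomial.coeToPowerSeries.ringHom_apply,
        RingHom.map_det]
      congr 1
      refine Matrix.ext fun i j => ?_
      simp [Matrix.one_apply]
      split_ifs <;> simp <;> exact mul_comm _ _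
    have h2 := congrArg (PowerSeries.coeff k) h1
    rw [Polynomial.coeff_coe, hp, PowerSeries.coeff_mk] at h2
    exact h2
  have hχ : ((B.map (algebraMap ℝ ℂ)).charpoly).reverse = (Q Λ).reverse := by
    ext k
    rw [hc k, ← hrev k, ← Matrix.reverse_charpoly, coeff_reverse, coeff_reverse,
      Matrix.charpoly_map, natDegree_map, coeff_map]
    rfl
  have hQ0 : (Q Λ).coeff 0 ≠ 0 := by
    rw [coeff_zero_eq_eval_zero, Q, eval_multiset_prod, Multiset.map_map]
    intro h
    rw [Multiset.prod_eq_zero_iff, Multiset.mem_map] at h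
    obtain ⟨z, hz, h1⟩ := h
    simp at h1
    rw [h1] at hz
    exact h0 hz
  obtain ⟨k, hk⟩ := eq_X_pow_mul hχ hQ0
  set e := Fintype.equivFin V with he
  refine ⟨Fintype.card V, Matrix.reindex e e B, ?_, ⟨?_, m, hm0, ?_⟩, k, ?_⟩
  · intro i j
    exact hBS _ _
  · intro i j
    exact hBN _ _
  · intro i j
    have h1 : (Matrix.reindex e e B) ^ m = Matrix.reindex e e (B ^ m) := by
      have := (map_pow (Matrix.reindexAlgEquiv ℝ ℝ e) B m).symm
      simpa [Matrix.coe_reindexAlgEquiv] using this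
    rw [h1]
    exact hm _ _
  · have h1 : (Matrix.reindex e e B).map (algebraMap ℝ ℂ) =
        Matrix.reindex e e (B.map (algebraMap ℝ ℂ)) := rfl
    rw [h1, Matrix.charpoly_reindex, hk]

end Pool.Agent.Lib.MP_23a7d9_al
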