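import Pool.Agent.Lib.MP_23a7d9_al.Loops

/-!
The ideal function `1 - Finf`.
-/

namespace Pool.Agent.Lib.MP_23a7d9_al

open PowerSeries Finset

lemma LD.coeff_zero {A α : ℝ⟦X⟧} (h : LD A α) (h0 : coeff 0 A = 1) : coeff 0 α = 0 := by
  have h1 := congrArg (coeff 0) h
  rw [coeff_theta] at h1
  simp only [coeff_zero_eq_constantCoeff_apply, map_neg, map_mul] at h1 h0 ⊢
  rw [h0] at h1
  simpa using h1.symm

/-- low coefficients of `A` vanish iff those of the logarithmic derivative do -/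
lemma LD.coeff_eq_zero_of_alpha {A α : ℝ⟦X⟧} (h : LD A α) {L : ℕ}
    (hα : ∀ k, k < L → coeff k α = 0) : ∀ k, 0 < k → k < L → coeff k A = 0 := by
  intro k hk hkL
  have h1 := congrArg (coeff k) h
  rw [coeff_theta, map_neg, coeff_mul, Finset.sum_eq_zero, neg_zero] at h1
  · have : (k : ℝ) ≠ 0 := Nat.cast_ne_zero.2 hk.ne'
    exact (mul_eq_zero.1 h1).resolve_left this
  · intro x hx
    have h2 : x.1 + x.2 = k := by simpa using hx
    rw [hα _ (by omega), zero_mul]

lemma LD.alpha_eq_zero_of_coeff {A α : ℝ⟦X⟧} (h : LD A α) (h0 : coeff 0 A = 1) {L : ℕ}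
    (hA : ∀ k, 0 < k → k < L → coeff k A = 0) : ∀ k, k < L → coeff k α = 0 := by
  intro k
  induction k using Nat.strong_induction_on with
  | _ k ih =>
    intro hkL
    rcases Nat.eq_zero_or_pos k with rfl | hk
    · exact h.coeff_zero h0
    · have h1 := congrArg (coeff k) h
      rw [coeff_theta, map_neg, coeff_mul, hA k hk hkL, mul_zero,
        Finset.sum_eq_single (k, 0)] at h1
      · rw [h0] at h1
        linarith
      · intro x hx hx2
        have h2 : x.1 + x.2 = k := by simpa using hx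
        have h3 : x.1 < k := by
          by_contra h3
          exact hx2 (Prod.ext (by simp only; omega) (by simp only; omega))
        rw [ih _ h3 (by omega), zero_mul]
      · intro h3
        exfalso
        apply h3
        rw [HasAntidiagonal.mem_antidiagonal]
        simp

/-- If the logarithmic derivative of `E` is small then `E` is close to `1`. -/
lemma LD.close_one {R : ℝ} (hR : 0 < R) {E Δ : ℝ⟦X⟧} (h : LD E Δ) (h0 : coeff 0 E = 1) {M : ℝ}
    (hM : Bd R Δ M) (hM2 : M ≤ 1 / 2) : Bd R (E - 1) (2 * M) := by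
  intro N
  have h1 : nrm R N (E - 1) ≤ nrm R N (theta E) := by
    unfold nrm
    refine Finset.sum_le_sum fun n _ => ?_
    refine mul_le_mul_of_nonneg_right ?_ (pow_nonneg hR.le _)
    rcases Nat.eq_zero_or_pos n with rfl | hn
    · rw [map_sub, h0, coeff_one, if_pos rfl, sub_self, abs_zero]
      exact abs_nonneg _
    · rw [map_sub, coeff_one, if_neg hn.ne', sub_zero, coeff_theta, abs_mul]
      have : (1 : ℝ) ≤ |(n : ℝ)| := by
        rw [abs_of_nonneg (Nat.cast_nonneg _)]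
        exact_mod_cast hn
      nlinarith [abs_nonneg (coeff n E)]
  have h2 : nrm R N (theta E) = nrm R N (Δ * E) := by
    rw [h]
    unfold nrm
    refine Finset.sum_congr rfl fun n _ => ?_
    rw [map_neg, abs_neg]
  have h3 : nrm R N (Δ * E) ≤ nrm R N Δ * nrm R N E := nrm_mul hR.le N _ _
  have h4 : nrm R N E ≤ nrm R N (E - 1) + 1 := by
    have h5 := nrm_add hR.le N (E - 1) 1
    rw [sub_add_cancel] at h5
    have h6 := Bd_one (R := R) N
    linarith
  have h5 := hM N
  have h6 := nrm_nonneg hR.le N E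
  have h7 := nrm_nonneg hR.le N Δ
  have h8 := nrm_nonneg hR.le N (E - 1)
  have h9 : nrm R N (E - 1) ≤ M * (nrm R N (E - 1) + 1) := by
    calc nrm R N (E - 1) ≤ nrm R N Δ * nrm R N E := by linarith
      _ ≤ M * (nrm R N (E - 1) + 1) := mul_le_mul h5 h4 h6 (h7.trans h5)
  nlinarith

/-- the ideal function -/
noncomputable def Finf (ε lam c : ℝ) (L0 : ℕ) : ℝ⟦X⟧ :=
  PowerSeries.mk fun n => if L0 ≤ n then ε * lam ^ n * c ^ (n - L0) else 0

/-- the auxiliary polynomial -/
noncomputable def Upol (ε lam : ℝ) (L0 : ℕ) : ℝ⟦X⟧ :=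
  PowerSeries.mk fun n => if n = 0 then 1 else if n < L0 then ε * lam ^ n else 0

lemma coeff_Finf (ε lam c : ℝ) (L0 n : ℕ) :
    coeff n (Finf ε lam c L0) = if L0 ≤ n then ε * lam ^ n * c ^ (n - L0) else 0 := by
  simp [Finf]

lemma coeff_Upol (ε lam : ℝ) (L0 n : ℕ) :
    coeff n (Upol ε lam L0) = if n = 0 then 1 else if n < L0 then ε * lam ^ n else 0 := by
  simp [Upol]

lemma Finf_identity {ε lam c : ℝ} (hc : c = 1 - ε) {L0 : ℕ} (hL0 : 2 ≤ L0) :
    (1 - C (c * lam) * X ^ 1) * (1 - Finf ε lam c L0) =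
      (1 - C lam * X ^ 1) * Upol ε lam L0 := by
  ext n
  simp only [sub_mul, one_mul, map_sub, coeff_C_mul_X_pow_mul, coeff_Finf, coeff_Upol, coeff_one]
  rcases Nat.eq_zero_or_pos n with rfl | hn
  · simp; omega
  · rw [if_neg hn.ne', if_pos (show 1 ≤ n from hn), if_neg hn.ne', if_pos (show 1 ≤ n from hn)]
    rcases Nat.lt_or_ge n 2 with h2 | h2
    · have : n = 1 := by omega
      subst this
      rw [if_neg (by omega : ¬ L0 ≤ 1), if_pos (by omega : 1 < L0), Nat.sub_self, if_pos rfl,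
        if_neg (by omega : ¬ L0 ≤ 0), if_pos rfl, hc]
      ring
    · rw [if_neg (by omega : ¬ (n - 1 = 0)), if_neg (by omega : ¬ (n - 1 = 0))]
      rcases lt_trichotomy n L0 with h3 | h3 | h3
      · rw [if_neg (by omega), if_neg (by omega), if_pos h3, if_pos (by omega)]
        obtain ⟨m, rfl⟩ : ∃ m, n = m + 1 := ⟨n - 1, by omega⟩
        rw [Nat.add_sub_cancel, pow_succ]
        ring
      · subst h3
        rw [if_pos le_rfl, if_neg (by omega), if_neg (lt_irrefl _), if_pos (by omega), Nat.sub_self]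
        obtain ⟨m, rfl⟩ : ∃ m, n = m + 1 := ⟨n - 1, by omega⟩
        rw [Nat.add_sub_cancel, pow_succ]
        ring
      · rw [if_pos (by omega), if_pos (by omega), if_neg (by omega), if_neg (by omega)]
        obtain ⟨m, rfl⟩ : ∃ m, n = L0 + m + 1 := ⟨n - L0 - 1, by omega⟩
        rw [show L0 + m + 1 - 1 = L0 + m by omega, show L0 + m + 1 - L0 = m + 1 by omega,
          show L0 + m - L0 = m by omega]
        ring

/-- every series with constant term one has a logarithmic derivative -/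
lemma exists_LD {A : ℝ⟦X⟧} (h0 : coeff 0 A = 1) : ∃ α, LD A α := by
  have h1 : A * A⁻¹ = 1 := PowerSeries.mul_inv_cancel _ (by
    rw [coeff_zero_eq_constantCoeff_apply] at h0
    rw [h0]; exact one_ne_zero)
  refine ⟨-(theta A * A⁻¹), ?_⟩
  unfold LD
  linear_combination (-theta A) * h1

/-- log derivative of a series close to one -/
lemma LD_small {R : ℝ} (hR : 0 < R) {U Y : ℝ⟦X⟧} (h : LD U Y) {κ : ℝ} (h1 : Bd R (U - 1) κ)
    (h2 : Bd R (theta U) κ) (hκ : κ ≤ 1 / 8) : Bd R Y (1 / 4) := by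
  intro N
  have e1 : Y = -theta U - Y * (U - 1) := by
    unfold LD at h
    rw [h]; ring
  have e2 := nrm_sub hR.le N (-theta U) (Y * (U - 1))
  rw [← e1] at e2
  have e3 : nrm R N (-theta U) = nrm R N (theta U) := by simp [nrm]
  have e4 := nrm_mul hR.le N Y (U - 1)
  have e5 := h1 N
  have e6 := h2 N
  have e7 := nrm_nonneg hR.le N Y
  have e8 : nrm R N Y * nrm R N (U - 1) ≤ nrm R N Y * (1 / 8) :=
    mul_le_mul_of_nonneg_left (e5.trans hκ) e7
  rw [e3] at e2
  linarith

lemma Bd_of_low {R : ℝ} {F : ℝ⟦X⟧} {L : ℕ} {g : ℕ → ℝ} (hg : ∀ n, 0 ≤ g n)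
    (h1 : ∀ n, n < L → |coeff n F| * R ^ n ≤ g n) (h2 : ∀ n, L ≤ n → coeff n F = 0) :
    Bd R F (∑ n ∈ range L, g n) := by
  intro N
  unfold nrm
  calc ∑ n ∈ range N, |coeff n F| * R ^ n ≤ ∑ n ∈ range N, (if n < L then g n else 0) := by
        refine Finset.sum_le_sum fun n _ => ?_
        split_ifs with h
        · exact h1 n h
        · rw [h2 n (not_lt.1 h), abs_zero, zero_mul]
    _ ≤ _ := by
        rw [← Finset.sum_filter]
        refine Finset.sum_le_sum_of_subset_of_nonneg ?_ fun _ _ _ => hg _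
        intro n hn
        rw [Finset.mem_filter] at hn
        exact Finset.mem_range.2 hn.2

/-- The ideal function and its trace defect. -/
theorem ideal {s : ℝ⟦X⟧} {lam θ : ℝ} (hlam : 0 < lam) (hθ0 : 0 < θ) (hθ1 : θ < 1) {L1 : ℕ}
    (hs : ∀ k, L1 ≤ k → |coeff k s - lam ^ k| ≤ 1 / 4 * (θ * lam) ^ k)
    (hs0 : ∀ k, 0 ≤ coeff k s) :
    ∃ (L0 : ℕ) (R CG CF : ℝ) (F T : ℝ⟦X⟧), 2 ≤ L0 ∧ 0 < R ∧ LD (1 - F) T ∧
      (∀ k, 0 ≤ coeff k (s - T)) ∧ (∀ k, k < L0 → coeff k T = 0) ∧ Bd R (s - T) CG ∧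
      (∀ n, n < L0 → coeff n F = 0) ∧ (∀ n, L0 ≤ n → 0 < coeff n F) ∧ Bd R F CF ∧
      (∃ K0, 4 ≤ ∑ n ∈ Finset.Ico L0 K0, coeff n F * R ^ n) := by
  set L0 := max 2 L1 with hL0
  have hL02 : 2 ≤ L0 := le_max_left _ _
  have hL01 : L1 ≤ L0 := le_max_right _ _
  have hev : ∀ᶠ ε in nhdsWithin (0 : ℝ) (Set.Ioi 0),
      (1 * ε ≤ 1 - θ ∧ 1 * ε ≤ 1 / 2 ∧ (∑ j ∈ range L0, (2 : ℝ) ^ j) * ε ≤ 1 / 8 ∧
      (∑ j ∈ range L0, (j : ℝ) * 2 ^ j) * ε ≤ 1 / 8) ∧ 0 < ε := by
    refine ((ev_small _ (by linarith)).and ((ev_small _ (by norm_num)).and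
      ((ev_small _ (by norm_num)).and (ev_small _ (by norm_num))))).and ?_
    exact Filter.eventually_iff_exists_mem.2 ⟨Set.Ioi 0, self_mem_nhdsWithin, fun _ h => h⟩
  obtain ⟨ε, ⟨hε1, hε2, hε3, hε4⟩, hε⟩ := hev.exists
  rw [one_mul] at hε1 hε2
  obtain ⟨c, hc⟩ : ∃ c : ℝ, c = 1 - ε := ⟨_, rfl⟩
  have hc0 : 0 < c := by linarith
  have hchalf : 1 / 2 ≤ c := by linarith
  have hcθ : θ ≤ c := by linarith
  set U := Upol ε lam L0 with hU
  set F := Finf ε lam c L0 with hF
  have hU0 : coeff 0 U = 1 := by rw [hU, coeff_Upol, if_pos rfl]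
  obtain ⟨Y, hY⟩ := exists_LD hU0
  have hident := Finf_identity (ε := ε) (lam := lam) hc hL02
  rw [← hU, ← hF] at hident
  have hR'0 : 0 < 2 / lam := by positivity
  have hpow : ∀ n, lam ^ n * (2 / lam) ^ n = 2 ^ n := by
    intro n
    rw [← mul_pow, mul_div_cancel₀ _ hlam.ne']
  have hUB1 : Bd (2 / lam) (U - 1) (1 / 8) := by
    refine (Bd_of_low (g := fun n => 2 ^ n * ε) (L := L0) (fun n => by positivity) ?_ ?_).mono ?_
    · intro n hn
      rw [map_sub, hU, coeff_Upol, coeff_one]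
      rcases Nat.eq_zero_or_pos n with rfl | hn0
      · simp; positivity
      · rw [if_neg hn0.ne', if_pos hn, if_neg hn0.ne', sub_zero, abs_of_pos (by positivity),
          mul_assoc, hpow, mul_comm]
    · intro n hn
      rw [map_sub, hU, coeff_Upol, coeff_one, if_neg (by omega), if_neg (by omega),
        if_neg (by omega), sub_zero]
    · rw [← Finset.sum_mul]; exact hε3
  have hUB2 : Bd (2 / lam) (theta U) (1 / 8) := by
    refine (Bd_of_low (g := fun n => n * 2 ^ n * ε) (L := L0) (fun n => by positivity) ?_ ?_).mono ?_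
    · intro n hn
      rw [coeff_theta, hU, coeff_Upol]
      rcases Nat.eq_zero_or_pos n with rfl | hn0
      · simp
      · rw [if_neg hn0.ne', if_pos hn, abs_of_nonneg (by positivity)]
        calc (n : ℝ) * (ε * lam ^ n) * (2 / lam) ^ n
            = n * (lam ^ n * (2 / lam) ^ n) * ε := by ring
          _ = _ := by rw [hpow]
          _ ≤ _ := le_rfl
    · intro n hn
      rw [coeff_theta, hU, coeff_Upol, if_neg (by omega), if_neg (by omega), mul_zero]
    · rw [← Finset.sum_mul]; exact hε4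
  have hYB := LD_small hR'0 hY hUB1 hUB2 le_rfl
  have hYk : ∀ k, |coeff k Y| ≤ 1 / 4 * (lam / 2) ^ k := by
    intro k
    have h1 := hYB.coeff_le hR'0.le k
    have h2 : (2 / lam) ^ k * (lam / 2) ^ k = 1 := by
      rw [← mul_pow, div_mul_div_comm, mul_comm, div_self (by positivity), one_pow]
    have h3 : 0 < (lam / 2) ^ k := by positivity
    calc |coeff k Y| = |coeff k Y| * (2 / lam) ^ k * (lam / 2) ^ k := by
          rw [mul_assoc, h2, mul_one]
      _ ≤ _ := mul_le_mul_of_nonneg_right h1 h3.le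
  -- the logarithmic derivative of the ideal function
  have hLD1 : LD ((1 - C (c * lam) * X ^ 1) * (1 - F)) (sg lam 1 + Y) := by
    rw [hident]
    have := LD_one_sub (n := 1) one_pos lam
    exact this.mul hY
  have hne : (1 - C (c * lam) * X ^ 1 : ℝ⟦X⟧) ≠ 0 := by
    intro h
    have := congrArg (coeff 0) h
    simp at this
  have hLDF : LD (1 - F) (sg lam 1 + Y - sg (c * lam) 1) :=
    theta_of_LD_mul (LD_one_sub (n := 1) one_pos (c * lam)) hLD1 hne
  set T := sg lam 1 + Y - sg (c * lam) 1 with hT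
  have hFlow : ∀ n, n < L0 → coeff n F = 0 := by
    intro n hn
    rw [hF, coeff_Finf, if_neg (by omega)]
  have hTlow : ∀ k, k < L0 → coeff k T = 0 := by
    refine hLDF.alpha_eq_zero_of_coeff ?_ ?_
    · rw [map_sub, hFlow 0 (by omega), coeff_one, if_pos rfl, sub_zero]
    · intro k hk hkL
      rw [map_sub, hFlow k hkL, coeff_one, if_neg hk.ne', sub_zero]
  have hTk : ∀ k, 0 < k → coeff k T = lam ^ k + coeff k Y - (c * lam) ^ k := by
    intro k hk
    rw [hT, map_sub, map_add, coeff_sg hk, coeff_sg hk]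
    simp
  have hclam : 0 < c * lam := by positivity
  have hGk : ∀ k, L0 ≤ k → 0 ≤ coeff k (s - T) ∧ coeff k (s - T) ≤ 3 / 2 * (c * lam) ^ k := by
    intro k hk
    have h1 := hs k (by omega)
    have h2 := hYk k
    have h3 : (θ * lam) ^ k ≤ (c * lam) ^ k :=
      pow_le_pow_left₀ (by positivity) (mul_le_mul_of_nonneg_right hcθ hlam.le) _
    have h4 : (lam / 2) ^ k ≤ (c * lam) ^ k :=
      pow_le_pow_left₀ (by positivity) (by nlinarith) _
    have h5 : 0 < (c * lam) ^ k := by positivity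
    rw [abs_le] at h1 h2
    rw [map_sub, hTk k (by omega)]
    constructor <;> linarith [h1.1, h1.2, h2.1, h2.2]
  have hG : ∀ k, 0 ≤ coeff k (s - T) := by
    intro k
    rcases Nat.lt_or_ge k L0 with h | h
    · rw [map_sub, hTlow k h, sub_zero]; exact hs0 k
    · exact (hGk k h).1
  -- the radius
  set x : ℝ := 1 - ε / 8 with hx
  have hx0 : 0 < x := by linarith
  have hx1 : x < 1 := by linarith
  set R : ℝ := x / (c * lam) with hR
  have hR0 : 0 < R := by positivity
  have hclR : c * lam * R = x := by rw [hR]; field_simp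
  have hlR : 1 ≤ lam * R := by
    rw [hR, mul_div_assoc', le_div_iff₀ hclam]
    nlinarith
  have hsumx : Summable fun n : ℕ => x ^ n := summable_geometric_of_lt_one hx0.le hx1
  have hFn : ∀ n, L0 ≤ n → coeff n F * R ^ n = ε * (lam * R) ^ L0 * x ^ (n - L0) := by
    intro n hn
    obtain ⟨m, rfl⟩ := Nat.exists_eq_add_of_le hn
    rw [hF, coeff_Finf, if_pos hn, Nat.add_sub_cancel_left, ← hclR, pow_add, pow_add, mul_pow,
      mul_pow, mul_pow]
    ring
  have hBF : ∃ CF, Bd R F CF := by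
    refine Bd.of_summable hR0.le ?_
    refine Summable.of_nonneg_of_le (fun n => by positivity) (fun n => ?_)
      (hsumx.mul_left (ε / c ^ L0))
    rcases Nat.lt_or_ge n L0 with h | h
    · rw [hFlow n h, abs_zero, zero_mul]; positivity
    · have h1 : 0 < coeff n F := by
        rw [hF, coeff_Finf, if_pos h]; positivity
      rw [abs_of_pos h1, hFn n h]
      obtain ⟨m, rfl⟩ := Nat.exists_eq_add_of_le h
      rw [Nat.add_sub_cancel_left, pow_add, ← hclR]
      refine le_of_eq ?_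
      rw [mul_pow (c * lam) R L0, mul_pow c lam, mul_pow lam R]
      field_simp
  have hBG : ∃ CG, Bd R (s - T) CG := by
    refine Bd.of_summable hR0.le ?_
    have h1 : Summable fun n : ℕ => if n < L0 then |coeff n (s - T)| * R ^ n else 0 :=
      summable_of_ne_finset_zero (s := Finset.range L0) fun n hn => by
        rw [if_neg]
        rwa [Finset.mem_range] at hn
    refine Summable.of_nonneg_of_le (fun n => by positivity) (fun n => ?_)
      ((hsumx.mul_left (3 / 2)).add h1)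
    rcases Nat.lt_or_ge n L0 with h | h
    · rw [if_pos h]
      have : 0 ≤ 3 / 2 * x ^ n := by positivity
      linarith
    · rw [if_neg (by omega), add_zero, abs_of_nonneg (hG n)]
      calc coeff n (s - T) * R ^ n ≤ 3 / 2 * (c * lam) ^ n * R ^ n :=
            mul_le_mul_of_nonneg_right (hGk n h).2 (by positivity)
        _ = 3 / 2 * x ^ n := by rw [← hclR, mul_pow]; ring
  obtain ⟨CF, hCF⟩ := hBF
  obtain ⟨CG, hCG⟩ := hBG
  refine ⟨L0, R, CG, CF, F, T, hL02, hR0, hLDF, hG, hTlow, hCG, hFlow, ?_, hCF, ?_⟩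
  · intro n hn
    rw [hF, coeff_Finf, if_pos hn]
    positivity
  · -- the sum is large
    have h1 : Filter.Tendsto (fun n : ℕ => x ^ n) Filter.atTop (nhds 0) :=
      tendsto_pow_atTop_nhds_zero_of_lt_one hx0.le hx1
    obtain ⟨t, ht⟩ := (h1.eventually (ge_mem_nhds (show (0 : ℝ) < 1 / 2 by norm_num))).exists
    refine ⟨L0 + t, ?_⟩
    have h2 : ∑ n ∈ Finset.Ico L0 (L0 + t), coeff n F * R ^ n =
        ε * (lam * R) ^ L0 * ∑ i ∈ range t, x ^ i := by
      rw [Finset.sum_Ico_eq_sum_range, Nat.add_sub_cancel_left, Finset.mul_sum]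
      refine Finset.sum_congr rfl fun i _ => ?_
      rw [hFn _ (by omega), Nat.add_sub_cancel_left]
    rw [h2]
    have h3 := geom_sum_mul_neg x t
    have h4 : (∑ i ∈ range t, x ^ i) * (ε / 8) = 1 - x ^ t := by
      rw [← h3, hx]; ring
    have h5 : 1 ≤ (lam * R) ^ L0 := one_le_pow₀ hlR
    have h6 : 0 ≤ ε * ∑ i ∈ range t, x ^ i := by positivity
    calc (4 : ℝ) ≤ ε * ∑ i ∈ range t, x ^ i := by linarith
      _ = 1 * (ε * ∑ i ∈ range t, x ^ i) := (one_mul _).symm
      _ ≤ (lam * R) ^ L0 * (ε * ∑ i ∈ range t, x ^ i) := mul_le_mul_of_nonneg_right h5 h6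
      _ = _ := by ring

end Pool.Agent.Lib.MP_23a7d9_al
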