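import Pool.Agent.Lib.MP_23a7d9_al.Peel

/-!
Tiny loops whose zeta function approximates a given one.
-/

namespace Pool.Agent.Lib.MP_23a7d9_al

open PowerSeries Finset

/-- trace generating series of one loop -/
noncomputable def sg (a : ℝ) (n : ℕ) : ℝ⟦X⟧ := C (n : ℝ) * (geo a n - 1)

lemma coeff_sg_zero (a : ℝ) (n : ℕ) : coeff 0 (sg a n) = 0 := by
  rw [sg, coeff_C_mul, map_sub, coeff_zero_geo, coeff_one, if_pos rfl]; ring

lemma coeff_sg {a : ℝ} {n k : ℕ} (hk : 0 < k) :
    coeff k (sg a n) = if n ∣ k then (n : ℝ) * a ^ (k / n) else 0 := by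
  rw [sg, coeff_C_mul, map_sub, coeff_geo, coeff_one, if_neg hk.ne']
  split_ifs <;> ring

lemma coeff_sg_nonneg {a : ℝ} (ha : 0 ≤ a) (n k : ℕ) : 0 ≤ coeff k (sg a n) := by
  rcases Nat.eq_zero_or_pos k with rfl | hk
  · rw [coeff_sg_zero]
  · rw [coeff_sg hk]
    split_ifs
    · positivity
    · exact le_rfl

lemma coeff_sg_lt {a : ℝ} {n k : ℕ} (hk : k < n) : coeff k (sg a n) = 0 := by
  rcases Nat.eq_zero_or_pos k with rfl | hk0
  · rw [coeff_sg_zero]
  · rw [coeff_sg hk0, if_neg (Nat.not_dvd_of_pos_of_lt hk0 hk)]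

lemma coeff_sg_self {a : ℝ} {n : ℕ} (hn : 0 < n) : coeff n (sg a n) = n * a := by
  rw [coeff_sg hn, if_pos dvd_rfl, Nat.div_self hn, pow_one]

/-- trace generating series of a list of loops -/
noncomputable def sig (ls : List (ℝ × ℕ)) : ℝ⟦X⟧ := (ls.map fun q => sg q.1 q.2).sum

lemma sig_cons (q : ℝ × ℕ) (ls : List (ℝ × ℕ)) : sig (q :: ls) = sg q.1 q.2 + sig ls := by
  simp [sig]

lemma sig_append (l1 l2 : List (ℝ × ℕ)) : sig (l1 ++ l2) = sig l1 + sig l2 := by
  simp [sig]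

lemma LD_geoprod : ∀ ls : List (ℝ × ℕ), (∀ q ∈ ls, 0 < q.2) → LD (geoprod ls) (-sig ls)
  | [], _ => by simpa [geoprod, sig] using LD_one
  | q :: ls, h => by
    rw [geoprod_cons, sig_cons]
    have h1 := (LD_geo (h q List.mem_cons_self) q.1).mul
      (LD_geoprod ls fun q' hq' => h q' (List.mem_cons_of_mem _ hq'))
    have h2 : -(C (q.2 : ℝ) * (geo q.1 q.2 - 1)) + -sig ls = -(sg q.1 q.2 + sig ls) := by
      rw [sg]; ring
    rwa [h2] at h1

lemma coeff_sig (k : ℕ) (ls : List (ℝ × ℕ)) :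
    coeff k (sig ls) = (ls.map fun q => coeff k (sg q.1 q.2)).sum := by
  rw [sig, map_list_sum, List.map_map]; rfl

lemma coeff_sig_nonneg {ls : List (ℝ × ℕ)} (h : ∀ q ∈ ls, 0 ≤ q.1) (k : ℕ) :
    0 ≤ coeff k (sig ls) := by
  rw [coeff_sig]
  refine List.sum_nonneg fun x hx => ?_
  rw [List.mem_map] at hx
  obtain ⟨q, hq, rfl⟩ := hx
  exact coeff_sg_nonneg (h q hq) _ _

lemma coeff_sig_ge {ls : List (ℝ × ℕ)} (h : ∀ q ∈ ls, 0 ≤ q.1) {q : ℝ × ℕ} (hq : q ∈ ls)
    (k : ℕ) : coeff k (sg q.1 q.2) ≤ coeff k (sig ls) := by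
  rw [coeff_sig]
  refine List.single_le_sum (fun x hx => ?_) _ (List.mem_map.2 ⟨q, hq, rfl⟩)
  rw [List.mem_map] at hx
  obtain ⟨q, hq, rfl⟩ := hx
  exact coeff_sg_nonneg (h q hq) _ _

lemma coeff_sig_zero (ls : List (ℝ × ℕ)) : coeff 0 (sig ls) = 0 := by
  rw [coeff_sig]
  refine List.sum_eq_zero fun x hx => ?_
  rw [List.mem_map] at hx
  obtain ⟨q, _, rfl⟩ := hx
  exact coeff_sg_zero _ _

lemma geoprod_mem_SubS {S : Subring ℝ} : ∀ ls : List (ℝ × ℕ), (∀ q ∈ ls, q.1 ∈ S) →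
    geoprod ls ∈ SubS S
  | [], _ => by simp [geoprod]
  | q :: ls, h => by
    rw [geoprod_cons]
    exact mul_mem (geo_mem_SubS (h q List.mem_cons_self) _)
      (geoprod_mem_SubS ls fun q' hq' => h q' (List.mem_cons_of_mem _ hq'))

lemma coeff_zero_geoprod : ∀ ls : List (ℝ × ℕ), coeff 0 (geoprod ls) = 1
  | [] => by simp [geoprod]
  | q :: ls => by
    rw [geoprod_cons, coeff_zero_eq_constantCoeff_apply, map_mul,
      constantCoeff_geo, one_mul, ← coeff_zero_eq_constantCoeff_apply]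
    exact coeff_zero_geoprod ls

/-- weighted mass of a list of loops -/
noncomputable def mass (R : ℝ) (ls : List (ℝ × ℕ)) : ℝ :=
  (ls.map fun q => (q.2 : ℝ) * q.1 * R ^ q.2).sum

lemma mass_append (R : ℝ) (l1 l2 : List (ℝ × ℕ)) : mass R (l1 ++ l2) = mass R l1 + mass R l2 := by
  simp [mass]

/-- diagonal part -/
noncomputable def dg (ls : List (ℝ × ℕ)) : ℝ⟦X⟧ :=
  (ls.map fun q => C ((q.2 : ℝ) * q.1) * (X : ℝ⟦X⟧) ^ q.2).sum

lemma dg_append (l1 l2 : List (ℝ × ℕ)) : dg (l1 ++ l2) = dg l1 + dg l2 := by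
  simp [dg]

/-- loops of the same length -/
def same (as : List ℝ) (n : ℕ) : List (ℝ × ℕ) := as.map fun a => (a, n)

lemma mem_same {as : List ℝ} {n : ℕ} {q : ℝ × ℕ} (h : q ∈ same as n) : q.1 ∈ as ∧ q.2 = n := by
  rw [same, List.mem_map] at h
  obtain ⟨a, ha, rfl⟩ := h
  exact ⟨ha, rfl⟩

lemma coeff_sig_same_lt {as : List ℝ} {n k : ℕ} (hk : k < n) : coeff k (sig (same as n)) = 0 := by
  rw [coeff_sig]
  refine List.sum_eq_zero fun x hx => ?_
  rw [List.mem_map] at hx
  obtain ⟨q, hq, rfl⟩ := hx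
  rw [(mem_same hq).2]
  exact coeff_sg_lt hk

lemma coeff_sig_same_self {as : List ℝ} {n : ℕ} (hn : 0 < n) :
    coeff n (sig (same as n)) = n * as.sum := by
  rw [coeff_sig, same, List.map_map]
  have : (fun q : ℝ × ℕ => coeff n (sg q.1 q.2)) ∘ (fun a => (a, n)) = fun a => (n : ℝ) * a := by
    funext a
    exact coeff_sg_self hn
  rw [this, List.sum_map_mul_left]
  simp

lemma mass_same (R : ℝ) (as : List ℝ) (n : ℕ) : mass R (same as n) = n * as.sum * R ^ n := by
  rw [mass, same, List.map_map]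
  have : (fun q : ℝ × ℕ => (q.2 : ℝ) * q.1 * R ^ q.2) ∘ (fun a => (a, n)) =
      fun a => ((n : ℝ) * R ^ n) * a := by
    funext a
    simp only [Function.comp]
    ring
  rw [this, List.sum_map_mul_left]
  simp only [List.map_id']
  ring

lemma dg_same (as : List ℝ) (n : ℕ) : dg (same as n) = C (n * as.sum) * X ^ n := by
  induction as with
  | nil => simp [dg, same]
  | cons a as ih =>
    have h1 : dg (same (a :: as) n) = C ((n : ℝ) * a) * X ^ n + dg (same as n) := by
      simp [dg, same]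
    rw [h1, ih, List.sum_cons, mul_add, map_add, add_mul]

/-- splitting an element of `S` into small positive pieces -/
lemma split_small {S : Subring ℝ} (hdense : ∀ x y : ℝ, x < y → ∃ s ∈ S, x < s ∧ s < y)
    {ρ : ℝ} (hρ : 0 < ρ) {x : ℝ} (hx : x ∈ S) (hx0 : 0 ≤ x) :
    ∃ as : List ℝ, (∀ a ∈ as, a ∈ S ∧ 0 < a ∧ a ≤ ρ) ∧ as.sum = x := by
  rcases hx0.eq_or_lt with h | h
  · exact ⟨[], by simp, by simpa using h⟩
  · obtain ⟨a, haS, ha0, haρ⟩ := hdense 0 ρ hρ
    set m := ⌊x / a⌋₊ with hm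
    have h1 : (m : ℝ) * a ≤ x := by
      rw [← le_div_iff₀ ha0]
      exact Nat.floor_le (by positivity)
    have h2 : x < (m + 1) * a := by
      rw [← div_lt_iff₀ ha0]
      exact Nat.lt_floor_add_one _
    rcases h1.eq_or_lt with h3 | h3
    · refine ⟨List.replicate m a, ?_, ?_⟩
      · intro b hb
        rw [List.eq_of_mem_replicate hb]
        exact ⟨haS, ha0, haρ.le⟩
      · rw [List.sum_replicate, nsmul_eq_mul, h3]
    · refine ⟨(x - m * a) :: List.replicate m a, ?_, ?_⟩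
      · intro b hb
        rw [List.mem_cons] at hb
        rcases hb with rfl | hb
        · exact ⟨S.sub_mem hx (S.mul_mem (by simp) haS), by linarith,
            by nlinarith⟩
        · rw [List.eq_of_mem_replicate hb]
          exact ⟨haS, ha0, haρ.le⟩
      · rw [List.sum_cons, List.sum_replicate, nsmul_eq_mul]
        ring

/-- Off-diagonal contributions are small: bound at a new length. -/
lemma coeff_sig_le_mass {ρ : ℝ} (hρ1 : ρ ≤ 1) {n : ℕ} {ls : List (ℝ × ℕ)}
    (h : ∀ q ∈ ls, 0 < q.1 ∧ q.1 ≤ ρ ∧ 0 < q.2 ∧ q.2 < n) :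
    coeff n (sig ls) ≤ ρ * mass 1 ls := by
  rw [coeff_sig, mass, ← List.sum_map_mul_left]
  refine List.sum_le_sum fun q hq => ?_
  obtain ⟨h1, h2, h3, h4⟩ := h q hq
  have hn : 0 < n := by omega
  have hρ0 : 0 < ρ := by linarith
  rw [coeff_sg hn, one_pow, mul_one]
  split_ifs with h5
  · obtain ⟨c, hc⟩ := h5
    have hc2 : 2 ≤ c := by
      by_contra h6
      have : c = 0 ∨ c = 1 := by omega
      rcases this with rfl | rfl
      · omega
      · omega
    rw [hc, Nat.mul_div_cancel_left _ h3]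
    obtain ⟨e, rfl⟩ : ∃ e, c = e + 2 := ⟨c - 2, by omega⟩
    have h6 : q.1 ^ e ≤ 1 := pow_le_one₀ h1.le (by linarith)
    have h7 : q.1 ^ (e + 2) ≤ q.1 * ρ := by
      calc q.1 ^ (e + 2) = q.1 ^ e * (q.1 * q.1) := by ring
        _ ≤ 1 * (q.1 * ρ) := by
          refine mul_le_mul h6 (mul_le_mul_of_nonneg_left h2 h1.le) (by positivity) zero_le_one
        _ = _ := one_mul _
    calc (q.2 : ℝ) * q.1 ^ (e + 2) ≤ q.2 * (q.1 * ρ) :=
          mul_le_mul_of_nonneg_left h7 (Nat.cast_nonneg _)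
      _ = _ := by ring
  · have : (0 : ℝ) ≤ q.2 := Nat.cast_nonneg _
    positivity

/-- Exact matching of the first traces by tiny loops. -/
theorem stage_one {S : Subring ℝ} (hdense : ∀ x y : ℝ, x < y → ∃ s ∈ S, x < s ∧ s < y)
    {p s : ℝ⟦X⟧} (hpS : p ∈ SubS S) (hp0 : coeff 0 p = 1) (hLD : LD p s)
    (hs0 : ∀ k, 0 ≤ coeff k s)
    (htr : ∀ k, 0 < k → 0 < coeff k s → ∀ n, 0 < n → 0 < coeff (k * n) s) {L0 : ℕ}
    {ρ : ℝ} (hρ : 0 < ρ) (hρ1 : ρ ≤ 1)
    (hρs : ∀ n ∈ range L0, 0 < coeff n s → (∑ k ∈ range L0, coeff k s) * ρ ≤ coeff n s) :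
    ∀ n, n + 1 ≤ L0 → ∃ ls : List (ℝ × ℕ),
      (∀ q ∈ ls, q.1 ∈ S ∧ 0 < q.1 ∧ q.1 ≤ ρ ∧ 0 < q.2 ∧ q.2 ≤ n) ∧
      (∀ k, k ≤ n → coeff k (sig ls) = coeff k s) ∧
      (∀ R : ℝ, 0 ≤ R → mass R ls ≤ ∑ k ∈ range (n + 1), coeff k s * R ^ k) := by
  have hsz : coeff 0 s = 0 := by
    have h1 := congrArg (coeff 0) hLD
    rw [coeff_theta] at h1
    simp only [coeff_zero_eq_constantCoeff_apply, map_neg, map_mul] at h1 hp0 ⊢
    rw [hp0] at h1
    simpa using h1.symm
  intro n
  induction n with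
  | zero =>
    intro _
    refine ⟨[], by simp, ?_, ?_⟩
    · intro k hk
      have : k = 0 := by omega
      subst this
      rw [coeff_sig_zero, hsz]
    · intro R _
      simp [mass, hsz]
  | succ n ih =>
    intro hn
    obtain ⟨ls, h1, h2, h3⟩ := ih (by omega)
    set m := n + 1 with hm
    -- the next coefficient
    have hposl : ∀ q ∈ ls, 0 < q.2 := fun q hq => (h1 q hq).2.2.2.1
    have hnn : ∀ q ∈ ls, 0 ≤ q.1 := fun q hq => (h1 q hq).2.1.le
    have hLD2 : LD (p * geoprod ls) (s + -sig ls) := hLD.mul (LD_geoprod ls hposl)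
    have hPS : p * geoprod ls ∈ SubS S := mul_mem hpS (geoprod_mem_SubS ls fun q hq => (h1 q hq).1)
    have hP0 : coeff 0 (p * geoprod ls) = 1 := by
      have h4 := coeff_zero_geoprod ls
      simp only [coeff_zero_eq_constantCoeff_apply, map_mul] at h4 hp0 ⊢
      rw [h4, hp0, one_mul]
    have hkey : (m : ℝ) * coeff m (p * geoprod ls) = -(coeff m s - coeff m (sig ls)) := by
      generalize p * geoprod ls = P at hLD2 hP0
      have h4 := congrArg (coeff m) hLD2
      rw [coeff_theta, map_neg, coeff_mul, Finset.sum_eq_single (m, 0)] at h4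
      · rw [h4, hP0, map_add, map_neg]; ring
      · intro x hx hx2
        have h5 : x.1 + x.2 = m := by simpa using hx
        have h6 : x.1 ≤ n := by
          by_contra h7
          have : x.1 = m ∧ x.2 = 0 := by omega
          exact hx2 (Prod.ext this.1 this.2)
        rw [map_add, map_neg, h2 _ h6]; simp
      · intro h5
        exfalso
        apply h5
        rw [HasAntidiagonal.mem_antidiagonal]
        simp
    -- comparison
    have hσ : coeff m (sig ls) ≤ coeff m s := by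
      rcases (hs0 m).eq_or_lt with h4 | h4
      · -- zero trace: no loop of length dividing `m`
        rw [← h4, coeff_sig]
        refine le_of_eq (List.sum_eq_zero fun x hx => ?_)
        rw [List.mem_map] at hx
        obtain ⟨q, hq, rfl⟩ := hx
        obtain ⟨_, hq1, _, hq3, hq4⟩ := h1 q hq
        rw [coeff_sg (by omega), if_neg]
        rintro ⟨c, hc⟩
        have h5 : 0 < coeff q.2 s := by
          rw [← h2 q.2 hq4]
          refine lt_of_lt_of_le ?_ (coeff_sig_ge hnn hq q.2)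
          rw [coeff_sg_self hq3]
          have : (0 : ℝ) < q.2 := Nat.cast_pos.2 hq3
          positivity
        have h6 : 0 < c := by
          rcases Nat.eq_zero_or_pos c with rfl | h
          · omega
          · exact h
        have h7 := htr q.2 hq3 h5 c h6
        rw [← hc, ← h4] at h7
        exact lt_irrefl _ h7
      · have h5 := coeff_sig_le_mass hρ1 (n := m) (ls := ls) fun q hq => by
          obtain ⟨_, hq1, hq2, hq3, hq4⟩ := h1 q hq
          exact ⟨hq1, hq2, hq3, by omega⟩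
        have h6 := h3 1 zero_le_one
        have h7 : ∑ k ∈ range (n + 1), coeff k s * 1 ^ k ≤ ∑ k ∈ range L0, coeff k s := by
          simp only [one_pow, mul_one]
          exact Finset.sum_le_sum_of_subset_of_nonneg (Finset.range_mono (by omega))
            fun _ _ _ => hs0 _
        have h8 := hρs m (Finset.mem_range.2 (by omega)) h4
        have h9 : ρ * mass 1 ls ≤ (∑ k ∈ range L0, coeff k s) * ρ := by
          rw [mul_comm]
          exact mul_le_mul_of_nonneg_right (h6.trans h7) hρ.le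
        linarith
    have hm0 : (0 : ℝ) < m := by rw [hm]; positivity
    obtain ⟨as, has, hsum⟩ := split_small hdense hρ (x := -coeff m (p * geoprod ls))
      (S.neg_mem (hPS m)) (by
        by_contra h4
        push Not at h4
        nlinarith)
    refine ⟨ls ++ same as m, ?_, ?_, ?_⟩
    · intro q hq
      rw [List.mem_append] at hq
      rcases hq with hq | hq
      · obtain ⟨a1, a2, a3, a4, a5⟩ := h1 q hq
        exact ⟨a1, a2, a3, a4, by omega⟩
      · obtain ⟨a1, a2⟩ := mem_same hq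
        obtain ⟨b1, b2, b3⟩ := has _ a1
        exact ⟨b1, b2, b3, by omega, by omega⟩
    · intro k hk
      rw [sig_append, map_add]
      rcases Nat.lt_or_ge k m with h4 | h4
      · rw [coeff_sig_same_lt h4, add_zero, h2 k (by omega)]
      · have : k = m := by omega
        subst this
        rw [coeff_sig_same_self (by omega), hsum]
        linarith
    · intro R hR
      rw [mass_append, Finset.sum_range_succ, mass_same, hsum]
      have h4 := h3 R hR
      have h5 := coeff_sig_nonneg hnn m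
      have h6 : (m : ℝ) * -coeff m (p * geoprod ls) * R ^ m ≤ coeff m s * R ^ m :=
        mul_le_mul_of_nonneg_right (by linarith) (pow_nonneg hR _)
      linarith

/-- Adding tiny loops of all lengths `L0 ≤ k ≤ L`. -/
theorem stage_two {S : Subring ℝ} (hdense : ∀ x y : ℝ, x < y → ∃ s ∈ S, x < s ∧ s < y)
    {G : ℝ⟦X⟧} (hG : ∀ k, 0 ≤ coeff k G) {L0 : ℕ} {ρ : ℝ} (hρ : 0 < ρ)
    {ls0 : List (ℝ × ℕ)}
    (h0 : ∀ q ∈ ls0, q.1 ∈ S ∧ 0 < q.1 ∧ q.1 ≤ ρ ∧ 0 < q.2 ∧ q.2 ≤ L0) :
    ∀ t, ∃ ls : List (ℝ × ℕ),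
      (∀ q ∈ ls, q.1 ∈ S ∧ 0 < q.1 ∧ q.1 ≤ ρ ∧ 0 < q.2 ∧ q.2 ≤ L0 + t) ∧
      (∀ k, k ≤ L0 → coeff k (sig ls) = coeff k (sig ls0)) ∧
      (∀ k, L0 < k → k ≤ L0 + t → coeff k G - k * ρ ≤ coeff k (dg ls) ∧
        coeff k (dg ls) ≤ coeff k G) ∧
      (∀ k, L0 + t < k → coeff k (dg ls) = 0) ∧
      (∀ R : ℝ, 0 ≤ R → mass R ls ≤ mass R ls0 +
        ∑ k ∈ Finset.Ico (L0 + 1) (L0 + t + 1), coeff k G * R ^ k) := by
  have hdg0 : ∀ ls : List (ℝ × ℕ), ∀ M, (∀ q ∈ ls, q.2 ≤ M) → ∀ k, M < k →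
      coeff k (dg ls) = 0 := by
    intro ls M h k hk
    rw [dg, map_list_sum, List.map_map]
    refine List.sum_eq_zero fun x hx => ?_
    rw [List.mem_map] at hx
    obtain ⟨q, hq, rfl⟩ := hx
    simp only [Function.comp]
    rw [coeff_C_mul, coeff_X_pow, if_neg, mul_zero]
    have := h q hq
    omega
  intro t
  induction t with
  | zero =>
    refine ⟨ls0, h0, fun _ _ => rfl, fun k h1 h2 => by omega, ?_, fun R _ => by simp⟩
    exact hdg0 ls0 _ fun q hq => (h0 q hq).2.2.2.2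
  | succ t ih =>
    obtain ⟨ls, h1, h2, h3, h4, h5⟩ := ih
    set m := L0 + t + 1 with hm
    have hm0 : (0 : ℝ) < m := by rw [hm]; positivity
    obtain ⟨a, haS, ha0, haρ⟩ := hdense 0 ρ hρ
    set c := ⌊coeff m G / (m * a)⌋₊ with hc
    have hma : 0 < (m : ℝ) * a := by positivity
    have h6 : (c : ℝ) * (m * a) ≤ coeff m G := by
      rw [← le_div_iff₀ hma]
      exact Nat.floor_le (div_nonneg (hG m) hma.le)
    have h7 : coeff m G < (c + 1) * (m * a) := by
      rw [← div_lt_iff₀ hma]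
      exact Nat.lt_floor_add_one _
    have h8 : (List.replicate c a).sum = c * a := by
      rw [List.sum_replicate, nsmul_eq_mul]
    have hnew : ∀ q ∈ ls ++ same (List.replicate c a) m,
        q.1 ∈ S ∧ 0 < q.1 ∧ q.1 ≤ ρ ∧ 0 < q.2 ∧ q.2 ≤ L0 + (t + 1) := by
      intro q hq
      rw [List.mem_append] at hq
      rcases hq with hq | hq
      · obtain ⟨a1, a2, a3, a4, a5⟩ := h1 q hq
        exact ⟨a1, a2, a3, a4, by omega⟩
      · obtain ⟨a1, a2⟩ := mem_same hq
        rw [List.eq_of_mem_replicate a1]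
        exact ⟨haS, ha0, haρ.le, by omega, by omega⟩
    refine ⟨ls ++ same (List.replicate c a) m, hnew, ?_, ?_, ?_, ?_⟩
    · intro k hk
      rw [sig_append, map_add, coeff_sig_same_lt (by omega), add_zero, h2 k hk]
    · intro k hk1 hk2
      rw [dg_append, map_add, dg_same, h8, coeff_C_mul, coeff_X_pow]
      rcases Nat.lt_or_ge k m with h9 | h9
      · rw [if_neg (by omega), mul_zero, add_zero]
        exact h3 k hk1 (by omega)
      · have : k = m := by omega
        subst this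
        rw [if_pos rfl, h4 _ (by omega), zero_add, mul_one]
        constructor
        · nlinarith
        · linarith
    · exact hdg0 _ _ fun q hq => (hnew q hq).2.2.2.2
    · intro R hR
      have h9 := h5 R hR
      rw [mass_append, mass_same, h8, show L0 + (t + 1) + 1 = (L0 + t + 1) + 1 by ring,
        Finset.sum_Ico_succ_top (by omega)]
      have h10 : (m : ℝ) * (c * a) * R ^ m ≤ coeff m G * R ^ m :=
        mul_le_mul_of_nonneg_right (by linarith) (pow_nonneg hR _)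
      rw [← hm]
      linarith

lemma Bd_const {R : ℝ} {a : ℝ} (ha : 0 ≤ a) : Bd R (C a) a := by
  intro N
  unfold nrm
  rcases Nat.eq_zero_or_pos N with rfl | hN
  · simpa using ha
  · rw [Finset.sum_eq_single 0]
    · simp [abs_of_nonneg ha]
    · intro n _ hn
      rw [coeff_C, if_neg hn]; simp
    · intro h
      rw [Finset.mem_range] at h
      omega

lemma excess_one {R : ℝ} (hR : 0 ≤ R) {a : ℝ} (ha : 0 ≤ a) {n : ℕ} (hn : 0 < n)
    {κ : ℝ} (hκ : a * R ^ n ≤ κ) (hκ2 : κ ≤ 1 / 2) :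
    Bd R (sg a n - C ((n : ℝ) * a) * X ^ n) (2 * κ * (n * a * R ^ n)) := by
  have h1 : sg a n - C ((n : ℝ) * a) * X ^ n =
      C (n : ℝ) * ((C a * X ^ n) * (C a * X ^ n) * geo a n) := by
    have h2 := geo_mul hn a
    rw [sg, map_mul]
    linear_combination (C (n : ℝ) * (1 + C a * X ^ n)) * h2
  rw [h1]
  have h3 := (Bd_const (R := R) (Nat.cast_nonneg (α := ℝ) n)).mul hR
    (((Bd_monomial hR ha n).mul hR (Bd_monomial hR ha n)).mul hR
      (Bd_geo hR ha hn (hκ.trans hκ2)))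
  refine h3.mono ?_
  have h4 : 0 ≤ a * R ^ n := by positivity
  have h5 : (0 : ℝ) ≤ n := Nat.cast_nonneg n
  have h6 : a * R ^ n * (a * R ^ n) ≤ a * R ^ n * κ := mul_le_mul_of_nonneg_left hκ h4
  calc (n : ℝ) * (a * R ^ n * (a * R ^ n) * 2) ≤ n * (a * R ^ n * κ * 2) :=
        mul_le_mul_of_nonneg_left (by linarith) h5
    _ = _ := by ring

lemma excess_bound {R : ℝ} (hR : 0 ≤ R) {κ : ℝ} (hκ2 : κ ≤ 1 / 2) :
    ∀ ls : List (ℝ × ℕ), (∀ q ∈ ls, 0 < q.1 ∧ 0 < q.2 ∧ q.1 * R ^ q.2 ≤ κ) →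
      Bd R (sig ls - dg ls) (2 * κ * mass R ls)
  | [], _ => by
    have : sig [] - dg [] = 0 := by simp [sig, dg]
    rw [this]
    simpa [mass] using Bd.zero
  | q :: ls, h => by
    obtain ⟨h1, h2, h3⟩ := h q List.mem_cons_self
    have h4 := (excess_one hR h1.le h2 h3 hκ2).add hR
      (excess_bound hR hκ2 ls fun q' hq' => h q' (List.mem_cons_of_mem _ hq'))
    have h5 : sg q.1 q.2 - C ((q.2 : ℝ) * q.1) * X ^ q.2 + (sig ls - dg ls) =
        sig (q :: ls) - dg (q :: ls) := by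
      rw [sig_cons]
      have : dg (q :: ls) = C ((q.2 : ℝ) * q.1) * X ^ q.2 + dg ls := by simp [dg]
      rw [this]; ring
    have h6 : mass R (q :: ls) = q.2 * q.1 * R ^ q.2 + mass R ls := by simp [mass]
    rw [h5] at h4
    rw [h6, mul_add]
    exact h4

lemma ev_small (c : ℝ) {d : ℝ} (hd : 0 < d) :
    ∀ᶠ ρ in nhdsWithin (0 : ℝ) (Set.Ioi 0), c * ρ ≤ d := by
  have h1 : Filter.Tendsto (fun ρ : ℝ => c * ρ) (nhds 0) (nhds 0) := by
    have h2 : Continuous fun ρ : ℝ => c * ρ := by fun_prop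
    simpa using h2.tendsto 0
  exact (h1.eventually (ge_mem_nhds hd)).filter_mono nhdsWithin_le_nhds

/-- Tiny loops whose trace series is close to `G`. -/
theorem loops_exist {S : Subring ℝ} (hdense : ∀ x y : ℝ, x < y → ∃ s ∈ S, x < s ∧ s < y)
    {p s : ℝ⟦X⟧} (hpS : p ∈ SubS S) (hp0 : coeff 0 p = 1) (hLD : LD p s)
    (hs0 : ∀ k, 0 ≤ coeff k s)
    (htr : ∀ k, 0 < k → 0 < coeff k s → ∀ n, 0 < n → 0 < coeff (k * n) s)
    {G : ℝ⟦X⟧} (hG : ∀ k, 0 ≤ coeff k G) {l : ℕ} (hGs : ∀ k, k ≤ l → coeff k G = coeff k s)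
    {R Γ : ℝ} (hR : 0 < R) (hΓ : Bd R G Γ) {M : ℝ} (hM : 0 < M) :
    ∃ L, ∀ ρ0 : ℝ, 0 < ρ0 → ∃ ls : List (ℝ × ℕ),
      (∀ q ∈ ls, q.1 ∈ S ∧ 0 < q.1 ∧ q.1 ≤ ρ0 ∧ 0 < q.2 ∧ q.2 ≤ L) ∧
      (∀ k, k ≤ l → coeff k (sig ls) = coeff k s) ∧ Bd R (G - sig ls) M := by
  obtain ⟨N0, hN0⟩ := hΓ.tail hR.le (δ := M / 3) (by positivity)
  set L := l + N0 with hL
  refine ⟨L, fun ρ0 hρ0 => ?_⟩
  have hΓ0 := hΓ.nonneg
  -- choice of `ρ`
  have hev : ∀ᶠ ρ in nhdsWithin (0 : ℝ) (Set.Ioi 0),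
      ((∀ n ∈ range (l + 1), 0 < coeff n s → (∑ k ∈ range (l + 1), coeff k s) * ρ ≤ coeff n s) ∧
      1 * ρ ≤ ρ0 ∧ 1 * ρ ≤ 1 ∧ (1 + R) ^ L * ρ ≤ 1 / 2 ∧
      (∑ k ∈ range (L + 1), (k : ℝ) * R ^ k) * ρ ≤ M / 3 ∧
      (2 * (1 + R) ^ L * Γ) * ρ ≤ M / 3) ∧ 0 < ρ := by
    refine ((Filter.eventually_all_finset _).2 fun n _ => ?_).and ((ev_small _ hρ0).and
      ((ev_small _ one_pos).and ((ev_small _ (by norm_num)).and
      ((ev_small _ (by positivity)).and (ev_small _ (by positivity)))))) |>.and ?_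
    · by_cases h : 0 < coeff n s
      · exact (ev_small _ h).mono fun ρ h1 _ => h1
      · exact Filter.Eventually.of_forall fun ρ h1 => absurd h1 h
    · exact Filter.eventually_iff_exists_mem.2 ⟨Set.Ioi 0, self_mem_nhdsWithin, fun _ h => h⟩
  obtain ⟨ρ, ⟨hρs, hρ1, hρ2, hρ3, hρ4, hρ5⟩, hρ⟩ := hev.exists
  rw [one_mul] at hρ1 hρ2
  obtain ⟨ls0, h1, h2, h3⟩ := stage_one hdense hpS hp0 hLD hs0 htr hρ hρ2 hρs l le_rfl
  obtain ⟨ls, h4, h5, h6, h7, h8⟩ := stage_two hdense hG hρ (L0 := l) (ls0 := ls0) h1 N0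
  refine ⟨ls, fun q hq => ?_, fun k hk => ?_, ?_⟩
  · obtain ⟨a1, a2, a3, a4, a5⟩ := h4 q hq
    exact ⟨a1, a2, a3.trans hρ1, a4, a5⟩
  · rw [h5 k hk, h2 k hk]
  · have hmass : mass R ls ≤ Γ := by
      refine (h8 R hR.le).trans ?_
      have h9 : ∑ k ∈ range (l + 1), coeff k s * R ^ k = ∑ k ∈ range (l + 1), coeff k G * R ^ k := by
        refine Finset.sum_congr rfl fun k hk => ?_
        rw [Finset.mem_range] at hk
        rw [hGs k (by omega)]
      have h10 : mass R ls0 + ∑ k ∈ Finset.Ico (l + 1) (l + N0 + 1), coeff k G * R ^ k ≤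
          ∑ k ∈ range (l + N0 + 1), coeff k G * R ^ k := by
        rw [← Finset.sum_range_add_sum_Ico _ (show l + 1 ≤ l + N0 + 1 by omega)]
        have := h3 R hR.le
        rw [h9] at this
        linarith
      refine h10.trans ?_
      have h11 := hΓ (l + N0 + 1)
      unfold nrm at h11
      refine le_trans (le_of_eq (Finset.sum_congr rfl fun k _ => ?_)) h11
      rw [abs_of_nonneg (hG k)]
    have hκ : ∀ q ∈ ls, 0 < q.1 ∧ 0 < q.2 ∧ q.1 * R ^ q.2 ≤ (1 + R) ^ L * ρ := by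
      intro q hq
      obtain ⟨a1, a2, a3, a4, a5⟩ := h4 q hq
      refine ⟨a2, a4, ?_⟩
      have h9 : R ^ q.2 ≤ (1 + R) ^ L :=
        (pow_le_pow_left₀ hR.le (by linarith) _).trans (pow_le_pow_right₀ (by linarith) a5)
      calc q.1 * R ^ q.2 ≤ ρ * (1 + R) ^ L := mul_le_mul a3 h9 (by positivity) hρ.le
        _ = _ := mul_comm _ _
    have hex := excess_bound hR.le hρ3 ls hκ
    have hex2 : Bd R (sig ls - dg ls) (M / 3) := by
      refine hex.mono ?_
      have h9 : 0 ≤ 2 * ((1 + R) ^ L * ρ) := by positivity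
      have h10 := mul_le_mul_of_nonneg_left hmass h9
      linarith
    intro N
    set H : ℝ⟦X⟧ := PowerSeries.mk fun k => if k ≤ l then 0 else coeff k G - coeff k (dg ls)
      with hH
    have hHb : nrm R N H ≤ 2 * (M / 3) := by
      have h9 : nrm R N H ≤ ∑ k ∈ range (L + 1), (k : ℝ) * R ^ k * ρ +
          ∑ k ∈ Finset.Ico (L + 1) N, |coeff k G| * R ^ k := by
        have h10 : ∑ k ∈ range N, (if k < L + 1 then (k : ℝ) * R ^ k * ρ else 0) ≤
            ∑ k ∈ range (L + 1), (k : ℝ) * R ^ k * ρ := by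
          rw [← Finset.sum_filter]
          refine Finset.sum_le_sum_of_subset_of_nonneg ?_ fun _ _ _ => by positivity
          intro k hk
          rw [Finset.mem_filter] at hk
          exact Finset.mem_range.2 hk.2
        have h11 : ∑ k ∈ range N, (if L + 1 ≤ k then |coeff k G| * R ^ k else 0) =
            ∑ k ∈ Finset.Ico (L + 1) N, |coeff k G| * R ^ k := by
          rw [← Finset.sum_filter]
          refine Finset.sum_congr ?_ fun _ _ => rfl
          ext k
          simp only [Finset.mem_filter, Finset.mem_range, Finset.mem_Ico]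
          omega
        rw [← h11]
        refine le_trans ?_ (add_le_add_left h10 _)
        rw [← Finset.sum_add_distrib]
        unfold nrm
        refine Finset.sum_le_sum fun k _ => ?_
        rw [hH, coeff_mk]
        by_cases hk1 : k ≤ l
        · rw [if_pos hk1]
          have : 0 ≤ (if L + 1 ≤ k then |coeff k G| * R ^ k else 0) := by
            split_ifs <;> positivity
          have : 0 ≤ (if k < L + 1 then (k : ℝ) * R ^ k * ρ else 0) := by
            split_ifs <;> positivity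
          simp only [abs_zero, zero_mul]
          linarith
        · rw [if_neg hk1]
          by_cases hk2 : k < L + 1
          · rw [if_pos hk2, if_neg (by omega), add_zero]
            obtain ⟨b1, b2⟩ := h6 k (by omega) (by omega)
            have h12 : |coeff k G - coeff k (dg ls)| ≤ k * ρ := by
              rw [abs_of_nonneg (by linarith)]; linarith
            calc |coeff k G - coeff k (dg ls)| * R ^ k ≤ k * ρ * R ^ k :=
                  mul_le_mul_of_nonneg_right h12 (pow_nonneg hR.le _)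
              _ = _ := by ring
          · rw [if_neg hk2, if_pos (by omega), h7 k (by omega), zero_add, sub_zero]
      have h12 := hN0 (L + 1) (by omega) N
      rw [← Finset.sum_mul] at h9
      linarith
    have h13 : nrm R N (G - sig ls) ≤ nrm R N H + nrm R N (sig ls - dg ls) := by
      unfold nrm
      rw [← Finset.sum_add_distrib]
      refine Finset.sum_le_sum fun k _ => ?_
      rw [← add_mul]
      refine mul_le_mul_of_nonneg_right ?_ (pow_nonneg hR.le _)
      rw [map_sub, hH, coeff_mk]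
      by_cases hk1 : k ≤ l
      · rw [h5 k hk1, h2 k hk1, hGs k hk1, sub_self, abs_zero]
        positivity
      · rw [if_neg hk1, map_sub]
        have h14 : coeff k G - coeff k (sig ls) =
            (coeff k G - coeff k (dg ls)) - (coeff k (sig ls) - coeff k (dg ls)) := by ring
        rw [h14]
        exact abs_sub _ _
    have h15 := hex2 N
    linarith

end Pool.Agent.Lib.MP_23a7d9_al
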