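import Pool.Agent.Lib.MP_23a7d9_al.PS

/-!
Polynomial matrices with prescribed determinant, built by attaching one loop vertex at a time.
-/

namespace Pool.Agent.Lib.MP_23a7d9_al

open PowerSeries Finset Matrix

/-- A polynomial matrix over `S` with determinant data, able to receive one more loop vertex. -/
def Sys (S : Subring ℝ) (f : ℝ⟦X⟧) (k : ℕ) (P : ℝ⟦X⟧) : Prop :=
  ∃ (ι : Type) (_ : Fintype ι) (_ : DecidableEq ι) (b φ l : ι) (A : Matrix ι ι ℝ⟦X⟧)
    (ζ : ι → ℝ⟦X⟧),
    b ≠ φ ∧ (∀ i j, A i j ∈ SubS S) ∧ (∀ i j, A i j ∈ Fins) ∧ (∀ i j, A i j ∈ NNs) ∧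
    (∀ i j, coeff 0 (A i j) = 0) ∧ (1 - A).det = P ∧ (1 - A) *ᵥ ζ = Pi.single l P ∧
    ζ b = X ^ k * (1 - f) ∧ ζ φ = X ^ (k + 1) ∧
    (∃ n, 0 < coeff n (A b b) ∧ 0 < coeff (n + 1) (A b b)) ∧
    (∀ i, Relation.ReflTransGen (fun i j => A i j ≠ 0) i b) ∧
    (∀ i, Relation.ReflTransGen (fun i j => A i j ≠ 0) b i)

lemma sys_base {S : Subring ℝ} {f R v : ℝ⟦X⟧}
    (hf : f ∈ SubS S ∧ f ∈ Fins ∧ f ∈ NNs ∧ coeff 0 f = 0)
    (hR : R ∈ SubS S ∧ R ∈ Fins ∧ R ∈ NNs ∧ coeff 0 R = 0)
    (hv : v ∈ SubS S ∧ v ∈ Fins ∧ v ∈ NNs ∧ coeff 0 v = 0) (hv0 : v ≠ 0)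
    (hn : ∃ n, 0 < coeff n R ∧ 0 < coeff (n + 1) R) :
    Sys S f 0 ((1 - R) * (1 - f) - X * v) := by
  have hX : (X : ℝ⟦X⟧) ≠ 0 := X_ne_zero
  refine ⟨Fin 2, inferInstance, inferInstance, 0, 1, 0, !![R, v; X, f], ![1 - f, X], by decide,
    ?_, ?_, ?_, ?_, ?_, ?_, ?_, ?_, ?_, ?_, ?_⟩
  · intro i j; fin_cases i <;> fin_cases j
    · exact hR.1
    · exact hv.1
    · exact X_mem_SubS
    · exact hf.1
  · intro i j; fin_cases i <;> fin_cases j
    · exact hR.2.1
    · exact hv.2.1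
    · exact X_mem_Fins
    · exact hf.2.1
  · intro i j; fin_cases i <;> fin_cases j
    · exact hR.2.2.1
    · exact hv.2.2.1
    · exact X_mem_NNs
    · exact hf.2.2.1
  · intro i j; fin_cases i <;> fin_cases j
    · exact hR.2.2.2
    · exact hv.2.2.2
    · exact coeff_zero_X
    · exact hf.2.2.2
  · rw [Matrix.det_fin_two]; simp; ring
  · ext1 i; fin_cases i <;> simp [Matrix.mulVec, dotProduct, Fin.sum_univ_two, Matrix.one_apply]
    · ring
    · ring
  · simp
  · simp
  · exact hn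
  · intro i; fin_cases i
    · exact Relation.ReflTransGen.refl
    · exact Relation.ReflTransGen.single hX
  · intro i; fin_cases i
    · exact Relation.ReflTransGen.refl
    · exact Relation.ReflTransGen.single hv0

lemma Sys.step {S : Subring ℝ} {f P : ℝ⟦X⟧} {k : ℕ} (h : Sys S f k P) (hP : P ≠ 0)
    {a : ℝ} (ha : a ∈ S) (ha0 : 0 ≤ a) {n : ℕ} (hn : 0 < n) {y z : ℝ⟦X⟧}
    (hy : y ∈ SubS S ∧ y ∈ Fins ∧ y ∈ NNs ∧ coeff 0 y = 0) (hy0 : y ≠ 0)
    (hz : z ∈ SubS S ∧ z ∈ Fins ∧ z ∈ NNs ∧ coeff 0 z = 0) :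
    Sys S f (k + 1) ((1 - C a * X ^ n) * P - X ^ (k + 1) * y * (1 - f) - X ^ (k + 2) * z) := by
  obtain ⟨ι, _, _, b, φ, l, A, ζ, hbφ, hS, hF, hN, h0, hdet, hmul, hζb, hζφ, hap, hto, hfrom⟩ := h
  have hX : (X : ℝ⟦X⟧) ≠ 0 := X_ne_zero
  set B : Matrix ι Unit ℝ⟦X⟧ := Matrix.of fun i _ => if i = l then X else 0 with hB
  set Cr : Matrix Unit ι ℝ⟦X⟧ := Matrix.of fun _ j => if j = b then y else if j = φ then z else 0
    with hCr
  set D : Matrix Unit Unit ℝ⟦X⟧ := Matrix.of fun _ _ => C a * X ^ n with hD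
  set A' : Matrix (ι ⊕ Unit) (ι ⊕ Unit) ℝ⟦X⟧ := Matrix.fromBlocks A B Cr D with hA'
  set P' := (1 - C a * X ^ n) * P - X ^ (k + 1) * y * (1 - f) - X ^ (k + 2) * z with hP'
  have hsub : 1 - A' = Matrix.fromBlocks (1 - A) (-B) (-Cr) (1 - D) := by
    rw [hA', ← Matrix.fromBlocks_one]
    ext i j
    rcases i with i | i <;> rcases j with j | j <;> simp [Matrix.one_apply]
  set Z : Matrix ι Unit ℝ⟦X⟧ := Matrix.of fun i _ => X * ζ i with hZ
  set PP : Matrix Unit Unit ℝ⟦X⟧ := Matrix.of fun _ _ => P with hPP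
  have hcol : (1 - A) * Z + (-B) * PP = (0 : Matrix ι Unit ℝ⟦X⟧) := by
    ext i u : 2
    have h1 := congrFun hmul i
    simp only [Matrix.mulVec, dotProduct] at h1
    rw [Matrix.add_apply, Matrix.mul_apply, Matrix.mul_apply]
    simp only [hZ, hPP, hB, Matrix.of_apply, Matrix.neg_apply, Finset.univ_unique,
      Finset.sum_singleton, Matrix.zero_apply]
    have h2 : ∑ x, (1 - A) i x * (X * ζ x) = X * ∑ x, (1 - A) i x * ζ x := by
      rw [Finset.mul_sum]
      exact Finset.sum_congr rfl fun x _ => by ring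
    rw [h2, h1]
    simp only [Pi.single_apply]
    split_ifs <;> ring
  have hrow : (-Cr) * Z + (1 - D) * PP = Matrix.of fun (_ _ : Unit) => P' := by
    ext i u : 2
    rw [Matrix.add_apply, Matrix.mul_apply, Matrix.mul_apply]
    simp only [hZ, hPP, Matrix.of_apply, Matrix.neg_apply, Finset.univ_unique, Finset.sum_singleton,
      Matrix.sub_apply, hD, hCr]
    have h2 : ∑ x, -(if x = b then y else if x = φ then z else 0) * (X * ζ x) =
        -(y * (X * ζ b)) - z * (X * ζ φ) := by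
      have h3 : ∀ x, -(if x = b then y else if x = φ then z else 0) * (X * ζ x) =
          (if x = b then -(y * (X * ζ b)) else 0) + (if x = φ then - (z * (X * ζ φ)) else 0) := by
        intro x
        by_cases h4 : x = b
        · subst h4
          rw [if_pos rfl, if_pos rfl, if_neg hbφ]; ring
        · rw [if_neg h4, if_neg h4]
          by_cases h5 : x = φ
          · subst h5
            rw [if_pos rfl, if_pos rfl]; ring
          · rw [if_neg h5, if_neg h5]; ring
      rw [Finset.sum_congr rfl fun x _ => h3 x, Finset.sum_add_distrib, Finset.sum_ite_eq',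
        Finset.sum_ite_eq']
      simp; ring_nf
    rw [h2, hζb, hζφ, hP']
    simp
    ring
  have hprod : (1 - A') * Matrix.fromBlocks 1 Z 0 PP =
      Matrix.fromBlocks (1 - A) 0 (-Cr) (Matrix.of fun (_ _ : Unit) => P') := by
    rw [hsub, Matrix.fromBlocks_multiply]
    congr 1
    · simp
    · simp
  have hV : (Matrix.fromBlocks (1 : Matrix ι ι ℝ⟦X⟧) Z 0 PP).det = P := by
    rw [Matrix.det_fromBlocks_zero₂₁]
    simp [hPP]
  have hdet' : (1 - A').det = P' := by
    have h1 := congrArg Matrix.det hprod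
    have h5 : (Matrix.of fun (_ _ : Unit) => P').det = P' := by simp
    rw [Matrix.det_mul, hV, Matrix.det_fromBlocks_zero₁₂, hdet, h5] at h1
    have h2 : P * ((1 - A').det - P') = 0 := by linear_combination h1
    rcases mul_eq_zero.1 h2 with h3 | h3
    · exact absurd h3 hP
    · exact sub_eq_zero.1 h3
  have hmul' : (1 - A') *ᵥ (Sum.elim (fun i => X * ζ i) fun _ => P) =
      Pi.single (Sum.inr ()) P' := by
    ext1 i
    have h1 : ((1 - A') *ᵥ (Sum.elim (fun i => X * ζ i) fun _ => P)) i =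
        ((1 - A') * Matrix.fromBlocks 1 Z 0 PP : Matrix (ι ⊕ Unit) (ι ⊕ Unit) ℝ⟦X⟧) i
          (Sum.inr ()) := by
      rw [Matrix.mul_apply, Matrix.mulVec, dotProduct]
      refine Finset.sum_congr rfl fun x _ => ?_
      rcases x with x | x <;> simp [hZ, hPP]
    rw [h1, hprod]
    rcases i with i | i
    · simp
    · simp
  have hCl : constantCoeff (C a * X ^ n : ℝ⟦X⟧) = 0 := by
    rw [map_mul, map_pow, constantCoeff_X, zero_pow hn.ne', mul_zero]
  have hedge : ∀ i j, A i j ≠ 0 → A' (Sum.inl i) (Sum.inl j) ≠ 0 := fun i j h => h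
  have hlift : ∀ i j, Relation.ReflTransGen (fun i j => A i j ≠ 0) i j →
      Relation.ReflTransGen (fun i j => A' i j ≠ 0) (Sum.inl i) (Sum.inl j) := by
    intro i j h
    exact Relation.ReflTransGen.lift Sum.inl hedge _ _ h
  have hin : A' (Sum.inl l) (Sum.inr ()) ≠ 0 := by
    simp only [hA', hB, Matrix.fromBlocks_apply₁₂, Matrix.of_apply, if_true]
    exact hX
  have hout : A' (Sum.inr ()) (Sum.inl b) ≠ 0 := by
    simp only [hA', hCr, Matrix.fromBlocks_apply₂₁, Matrix.of_apply, if_true]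
    exact hy0
  refine ⟨ι ⊕ Unit, inferInstance, inferInstance, Sum.inl b, Sum.inl φ, Sum.inr (), A',
    Sum.elim (fun i => X * ζ i) fun _ => P, ?_, ?_, ?_, ?_, ?_, hdet', hmul', ?_, ?_, ?_, ?_, ?_⟩
  · simpa using hbφ
  · rintro (i | i) (j | j)
    · exact hS i j
    · simp only [hA', hB, Matrix.fromBlocks_apply₁₂, Matrix.of_apply]
      split_ifs
      · exact X_mem_SubS
      · exact zero_mem _
    · simp only [hA', hCr, Matrix.fromBlocks_apply₂₁, Matrix.of_apply]
      split_ifs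
      · exact hy.1
      · exact hz.1
      · exact zero_mem _
    · simp only [hA', hD, Matrix.fromBlocks_apply₂₂, Matrix.of_apply]
      exact mul_mem (C_mem_SubS ha) (pow_mem X_mem_SubS _)
  · rintro (i | i) (j | j)
    · exact hF i j
    · simp only [hA', hB, Matrix.fromBlocks_apply₁₂, Matrix.of_apply]
      split_ifs
      · exact X_mem_Fins
      · exact zero_mem _
    · simp only [hA', hCr, Matrix.fromBlocks_apply₂₁, Matrix.of_apply]
      split_ifs
      · exact hy.2.1
      · exact hz.2.1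
      · exact zero_mem _
    · simp only [hA', hD, Matrix.fromBlocks_apply₂₂, Matrix.of_apply]
      exact mul_mem (C_mem_Fins _) (pow_mem X_mem_Fins _)
  · rintro (i | i) (j | j)
    · exact hN i j
    · simp only [hA', hB, Matrix.fromBlocks_apply₁₂, Matrix.of_apply]
      split_ifs
      · exact X_mem_NNs
      · exact zero_mem _
    · simp only [hA', hCr, Matrix.fromBlocks_apply₂₁, Matrix.of_apply]
      split_ifs
      · exact hy.2.2.1
      · exact hz.2.2.1
      · exact zero_mem _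
    · simp only [hA', hD, Matrix.fromBlocks_apply₂₂, Matrix.of_apply]
      exact mul_mem (C_mem_NNs ha0) (pow_mem X_mem_NNs _)
  · rintro (i | i) (j | j)
    · exact h0 i j
    · simp only [hA', hB, Matrix.fromBlocks_apply₁₂, Matrix.of_apply]
      split_ifs
      · exact coeff_zero_X
      · exact map_zero _
    · simp only [hA', hCr, Matrix.fromBlocks_apply₂₁, Matrix.of_apply]
      split_ifs
      · exact hy.2.2.2
      · exact hz.2.2.2
      · exact map_zero _
    · simp only [hA', hD, Matrix.fromBlocks_apply₂₂, Matrix.of_apply]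
      rw [coeff_zero_eq_constantCoeff_apply, hCl]
  · simp only [Sum.elim_inl]; rw [hζb]; ring
  · simp only [Sum.elim_inl]; rw [hζφ]; ring
  · exact hap
  · rintro (i | i)
    · exact hlift _ _ (hto i)
    · exact Relation.ReflTransGen.single hout
  · rintro (i | i)
    · exact hlift _ _ (hfrom i)
    · exact (hlift _ _ (hfrom l)).tail hin

end Pool.Agent.Lib.MP_23a7d9_al
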