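import Mathlib

/-!
Power series over the reals used for the spectral conjecture over dense subrings:
logarithmic derivatives, weighted absolute sums, coefficient predicates.
-/

namespace Pool.Agent.Lib.MP_23a7d9_al

open PowerSeries Finset

/-- `X * d/dX`. -/
noncomputable def theta (A : ℝ⟦X⟧) : ℝ⟦X⟧ := PowerSeries.mk fun n => (n : ℝ) * coeff n A

@[simp] lemma coeff_theta (A : ℝ⟦X⟧) (n : ℕ) : coeff n (theta A) = (n : ℝ) * coeff n A := by
  simp [theta]

lemma theta_mul (A B : ℝ⟦X⟧) : theta (A * B) = theta A * B + A * theta B := by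
  ext n
  simp only [coeff_theta, coeff_mul, map_add, Finset.mul_sum, ← Finset.sum_add_distrib]
  refine Finset.sum_congr rfl fun x hx => ?_
  have h : x.1 + x.2 = n := by simpa using hx
  rw [← h]; push_cast; ring

/-- `LD A α` says that the logarithmic derivative `X A'/A` is `-α`. -/
def LD (A α : ℝ⟦X⟧) : Prop := theta A = -(α * A)

lemma LD.mul {A B α β : ℝ⟦X⟧} (hA : LD A α) (hB : LD B β) : LD (A * B) (α + β) := by
  unfold LD at *
  rw [theta_mul, hA, hB]; ring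

lemma LD_one : LD 1 0 := by
  unfold LD
  ext n
  simp only [coeff_theta, coeff_one, zero_mul, neg_zero, map_zero]
  split_ifs with h <;> simp [h]

lemma theta_of_LD_mul {A B α β : ℝ⟦X⟧} (hA : LD A α) (hAB : LD (A * B) β) (h0 : A ≠ 0) :
    LD B (β - α) := by
  unfold LD at *
  rw [theta_mul, hA] at hAB
  have : A * (theta B - (-((β - α) * B))) = 0 := by linear_combination hAB
  rcases mul_eq_zero.1 this with h | h
  · exact absurd h h0
  · exact sub_eq_zero.1 h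

lemma LD.unique {A α β : ℝ⟦X⟧} (h0 : A ≠ 0) (h1 : LD A α) (h2 : LD A β) : α = β := by
  unfold LD at *
  rw [h1] at h2
  have : (α - β) * A = 0 := by linear_combination -h2
  rcases mul_eq_zero.1 this with h | h
  · exact sub_eq_zero.1 h
  · exact absurd h h0

/-- weighted absolute partial sum -/
noncomputable def nrm (R : ℝ) (N : ℕ) (F : ℝ⟦X⟧) : ℝ := ∑ n ∈ range N, |coeff n F| * R ^ n

lemma nrm_nonneg {R : ℝ} (hR : 0 ≤ R) (N : ℕ) (F : ℝ⟦X⟧) : 0 ≤ nrm R N F :=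
  Finset.sum_nonneg fun _ _ => mul_nonneg (abs_nonneg _) (pow_nonneg hR _)

lemma nrm_mono {R : ℝ} (hR : 0 ≤ R) {M N : ℕ} (h : M ≤ N) (F : ℝ⟦X⟧) :
    nrm R M F ≤ nrm R N F :=
  Finset.sum_le_sum_of_subset_of_nonneg (Finset.range_mono h)
    fun _ _ _ => mul_nonneg (abs_nonneg _) (pow_nonneg hR _)

lemma nrm_add {R : ℝ} (hR : 0 ≤ R) (N : ℕ) (F G : ℝ⟦X⟧) :
    nrm R N (F + G) ≤ nrm R N F + nrm R N G := by
  unfold nrm
  rw [← Finset.sum_add_distrib]
  refine Finset.sum_le_sum fun n _ => ?_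
  rw [← add_mul, map_add]
  exact mul_le_mul_of_nonneg_right (abs_add_le _ _) (pow_nonneg hR _)

lemma nrm_mul {R : ℝ} (hR : 0 ≤ R) (N : ℕ) (F G : ℝ⟦X⟧) :
    nrm R N (F * G) ≤ nrm R N F * nrm R N G := by
  unfold nrm
  have h1 : ∀ n ∈ range N, |coeff n (F * G)| * R ^ n ≤
      ∑ x ∈ antidiagonal n, (|coeff x.1 F| * R ^ x.1) * (|coeff x.2 G| * R ^ x.2) := by
    intro n _
    rw [coeff_mul]
    calc |∑ p ∈ antidiagonal n, coeff p.1 F * coeff p.2 G| * R ^ n
        ≤ (∑ p ∈ antidiagonal n, |coeff p.1 F * coeff p.2 G|) * R ^ n :=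
          mul_le_mul_of_nonneg_right (Finset.abs_sum_le_sum_abs _ _) (pow_nonneg hR _)
      _ = _ := by
          rw [Finset.sum_mul]
          refine Finset.sum_congr rfl fun x hx => ?_
          have h : x.1 + x.2 = n := by simpa using hx
          rw [abs_mul, ← h, pow_add]; ring
  refine (Finset.sum_le_sum h1).trans ?_
  rw [Finset.sum_sigma', Finset.sum_mul_sum, ← Finset.sum_product']
  have h2 : ∑ x ∈ (range N).sigma fun n => antidiagonal n,
      (|coeff x.2.1 F| * R ^ x.2.1) * (|coeff x.2.2 G| * R ^ x.2.2) =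
      ∑ y ∈ ((range N).sigma fun n => antidiagonal n).image (fun x => x.2),
        (|coeff y.1 F| * R ^ y.1) * (|coeff y.2 G| * R ^ y.2) := by
    rw [Finset.sum_image]
    rintro ⟨n, x⟩ hx ⟨m, y⟩ hy h
    simp only [Finset.coe_sigma, Set.mem_sigma_iff, Finset.mem_coe, HasAntidiagonal.mem_antidiagonal] at hx hy
    simp only at h
    subst h
    have : n = m := by rw [← hx.2, ← hy.2]
    subst this
    rfl
  rw [h2]
  refine Finset.sum_le_sum_of_subset_of_nonneg ?_ fun _ _ _ => ?_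
  · intro y hy
    simp only [Finset.mem_image, Finset.mem_sigma, HasAntidiagonal.mem_antidiagonal, Finset.mem_range] at hy
    obtain ⟨x, ⟨h1, h2⟩, rfl⟩ := hy
    simp only [Finset.mem_product, Finset.mem_range]
    omega
  · exact mul_nonneg (mul_nonneg (abs_nonneg _) (pow_nonneg hR _))
      (mul_nonneg (abs_nonneg _) (pow_nonneg hR _))


lemma nrm_sub {R : ℝ} (hR : 0 ≤ R) (N : ℕ) (F G : ℝ⟦X⟧) :
    nrm R N (F - G) ≤ nrm R N F + nrm R N G := by
  have h : nrm R N (-G) = nrm R N G := by simp [nrm]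
  rw [sub_eq_add_neg, ← h]
  exact nrm_add hR N F (-G)

/-- all weighted absolute partial sums are at most `C` -/
def Bd (R : ℝ) (F : ℝ⟦X⟧) (C : ℝ) : Prop := ∀ N, nrm R N F ≤ C

lemma Bd.mono {R : ℝ} {F : ℝ⟦X⟧} {C D : ℝ} (h : Bd R F C) (hCD : C ≤ D) : Bd R F D :=
  fun N => (h N).trans hCD

lemma Bd.nonneg {R : ℝ} {F : ℝ⟦X⟧} {C : ℝ} (h : Bd R F C) : 0 ≤ C := by
  simpa [nrm] using h 0

lemma Bd.add {R : ℝ} (hR : 0 ≤ R) {F G : ℝ⟦X⟧} {C D : ℝ} (hF : Bd R F C) (hG : Bd R G D) :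
    Bd R (F + G) (C + D) :=
  fun N => (nrm_add hR N F G).trans (add_le_add (hF N) (hG N))

lemma Bd.sub {R : ℝ} (hR : 0 ≤ R) {F G : ℝ⟦X⟧} {C D : ℝ} (hF : Bd R F C) (hG : Bd R G D) :
    Bd R (F - G) (C + D) :=
  fun N => (nrm_sub hR N F G).trans (add_le_add (hF N) (hG N))

lemma Bd.mul {R : ℝ} (hR : 0 ≤ R) {F G : ℝ⟦X⟧} {C D : ℝ} (hF : Bd R F C) (hG : Bd R G D) :
    Bd R (F * G) (C * D) :=
  fun N => (nrm_mul hR N F G).trans
    (mul_le_mul (hF N) (hG N) (nrm_nonneg hR _ _) hF.nonneg)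

lemma Bd.zero {R : ℝ} : Bd R 0 0 := fun N => by simp [nrm]

lemma Bd.of_le {R : ℝ} (hR : 0 ≤ R) {F G : ℝ⟦X⟧} {C : ℝ} (hG : Bd R G C)
    (h : ∀ n, |coeff n F| ≤ |coeff n G|) : Bd R F C := by
  intro N
  refine le_trans (Finset.sum_le_sum fun n _ => ?_) (hG N)
  exact mul_le_mul_of_nonneg_right (h n) (pow_nonneg hR _)

lemma Bd.coeff_le {R : ℝ} (hR : 0 ≤ R) {F : ℝ⟦X⟧} {C : ℝ} (hF : Bd R F C) (n : ℕ) :
    |coeff n F| * R ^ n ≤ C := by
  refine le_trans ?_ (hF (n + 1))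
  unfold nrm
  exact Finset.single_le_sum (f := fun n => |coeff n F| * R ^ n)
    (fun _ _ => mul_nonneg (abs_nonneg _) (pow_nonneg hR _)) (Finset.self_mem_range_succ n)

lemma Bd.summable {R : ℝ} (hR : 0 ≤ R) {F : ℝ⟦X⟧} {C : ℝ} (hF : Bd R F C) :
    Summable fun n => |coeff n F| * R ^ n :=
  summable_of_sum_range_le (c := C) (fun _ => mul_nonneg (abs_nonneg _) (pow_nonneg hR _)) hF

lemma Bd.of_summable {R : ℝ} (hR : 0 ≤ R) {F : ℝ⟦X⟧}
    (hF : Summable fun n => |coeff n F| * R ^ n) : ∃ C, Bd R F C :=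
  ⟨_, fun N => hF.sum_le_tsum _ fun _ _ => mul_nonneg (abs_nonneg _) (pow_nonneg hR _)⟩

/-- tails of a bounded series are small -/
lemma Bd.tail {R : ℝ} (hR : 0 ≤ R) {F : ℝ⟦X⟧} {C : ℝ} (hF : Bd R F C) {δ : ℝ} (hδ : 0 < δ) :
    ∃ N0, ∀ N1, N0 ≤ N1 → ∀ N, ∑ n ∈ Finset.Ico N1 N, |coeff n F| * R ^ n ≤ δ := by
  have hs := hF.summable hR
  have h0 : ∀ n, 0 ≤ |coeff n F| * R ^ n :=
    fun _ => mul_nonneg (abs_nonneg _) (pow_nonneg hR _)
  have ht := (hs.hasSum.tendsto_sum_nat).eventually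
    (lt_mem_nhds (show (∑' n, |coeff n F| * R ^ n) - δ < ∑' n, |coeff n F| * R ^ n by linarith))
  obtain ⟨N0, hN0⟩ := Filter.eventually_atTop.1 ht
  refine ⟨N0, fun N1 h1 N => ?_⟩
  rcases le_or_gt N N1 with h | h
  · rw [Finset.Ico_eq_empty_of_le h]; simpa using hδ.le
  · have h2 := hN0 N1 h1
    have h3 := hs.sum_le_tsum (Finset.range N) fun n _ => h0 n
    have h4 := Finset.sum_range_add_sum_Ico (fun n => |coeff n F| * R ^ n) h.le
    linarith

/-- power series with coefficients in `S` -/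
def SubS (S : Subring ℝ) : Subring ℝ⟦X⟧ where
  carrier := {F | ∀ n, coeff n F ∈ S}
  mul_mem' := by
    intro F G hF hG n
    rw [coeff_mul]
    exact S.sum_mem fun x _ => S.mul_mem (hF _) (hG _)
  one_mem' := by
    intro n
    rw [coeff_one]
    split_ifs
    · exact S.one_mem
    · exact S.zero_mem
  add_mem' := by
    intro F G hF hG n
    rw [map_add]
    exact S.add_mem (hF _) (hG _)
  zero_mem' := by
    intro n
    rw [map_zero]
    exact S.zero_mem
  neg_mem' := by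
    intro F hF n
    rw [map_neg]
    exact S.neg_mem (hF _)

lemma mem_SubS {S : Subring ℝ} {F : ℝ⟦X⟧} : F ∈ SubS S ↔ ∀ n, coeff n F ∈ S := Iff.rfl

/-- polynomials inside power series -/
def Fins : Subring ℝ⟦X⟧ where
  carrier := {F | ∃ D, ∀ n, D < n → coeff n F = 0}
  mul_mem' := by
    rintro F G ⟨D, hD⟩ ⟨E, hE⟩
    refine ⟨D + E, fun n hn => ?_⟩
    rw [coeff_mul]
    refine Finset.sum_eq_zero fun x hx => ?_
    have h : x.1 + x.2 = n := by simpa using hx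
    rcases lt_or_ge D x.1 with h1 | h1
    · rw [hD _ h1, zero_mul]
    · rw [hE _ (by omega), mul_zero]
  one_mem' := ⟨0, fun n hn => by rw [coeff_one, if_neg (by omega)]⟩
  add_mem' := by
    rintro F G ⟨D, hD⟩ ⟨E, hE⟩
    refine ⟨max D E, fun n hn => ?_⟩
    rw [map_add, hD _ (lt_of_le_of_lt (le_max_left _ _) hn),
      hE _ (lt_of_le_of_lt (le_max_right _ _) hn), add_zero]
  zero_mem' := ⟨0, fun n hn => by simp⟩
  neg_mem' := by
    rintro F ⟨D, hD⟩
    exact ⟨D, fun n hn => by rw [map_neg, hD n hn, neg_zero]⟩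

lemma mem_Fins {F : ℝ⟦X⟧} : F ∈ Fins ↔ ∃ D, ∀ n, D < n → coeff n F = 0 := Iff.rfl

/-- power series with nonnegative coefficients -/
def NNs : Subsemiring ℝ⟦X⟧ where
  carrier := {F | ∀ n, 0 ≤ coeff n F}
  mul_mem' := by
    intro F G hF hG n
    rw [coeff_mul]
    exact Finset.sum_nonneg fun x _ => mul_nonneg (hF _) (hG _)
  one_mem' := by
    intro n
    rw [coeff_one]
    split_ifs
    · exact zero_le_one
    · exact le_rfl
  add_mem' := by
    intro F G hF hG n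
    rw [map_add]
    exact add_nonneg (hF _) (hG _)
  zero_mem' := by
    intro n
    simp

lemma mem_NNs {F : ℝ⟦X⟧} : F ∈ NNs ↔ ∀ n, 0 ≤ coeff n F := Iff.rfl

lemma X_mem_SubS {S : Subring ℝ} : (X : ℝ⟦X⟧) ∈ SubS S := by
  intro n
  rw [coeff_X]
  split_ifs
  · exact S.one_mem
  · exact S.zero_mem

lemma C_mem_SubS {S : Subring ℝ} {a : ℝ} (ha : a ∈ S) : (C a : ℝ⟦X⟧) ∈ SubS S := by
  intro n
  rw [coeff_C]
  split_ifs
  · exact ha
  · exact S.zero_mem

lemma X_mem_Fins : (X : ℝ⟦X⟧) ∈ Fins := ⟨1, fun n hn => by rw [coeff_X, if_neg (by omega)]⟩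

lemma C_mem_Fins (a : ℝ) : (C a : ℝ⟦X⟧) ∈ Fins :=
  ⟨0, fun n hn => by rw [coeff_C, if_neg (by omega)]⟩

lemma X_mem_NNs : (X : ℝ⟦X⟧) ∈ NNs := by
  intro n
  rw [coeff_X]
  split_ifs
  · exact zero_le_one
  · exact le_rfl

lemma C_mem_NNs {a : ℝ} (ha : 0 ≤ a) : (C a : ℝ⟦X⟧) ∈ NNs := by
  intro n
  rw [coeff_C]
  split_ifs
  · exact ha
  · exact le_rfl

/-- finite supported series are bounded -/
lemma Bd_of_Fins {R : ℝ} (hR : 0 ≤ R) {F : ℝ⟦X⟧} (hF : F ∈ Fins) : ∃ C, Bd R F C := by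
  obtain ⟨D, hD⟩ := hF
  refine Bd.of_summable hR (summable_of_ne_finset_zero (s := Finset.range (D + 1)) ?_)
  intro n hn
  rw [Finset.mem_range, not_lt] at hn
  rw [hD n (by omega), abs_zero, zero_mul]

/-- `1/(1 - a X^n)` -/
noncomputable def geo (a : ℝ) (n : ℕ) : ℝ⟦X⟧ :=
  PowerSeries.mk fun k => if n ∣ k then a ^ (k / n) else 0

lemma coeff_geo (a : ℝ) (n k : ℕ) : coeff k (geo a n) = if n ∣ k then a ^ (k / n) else 0 := by
  simp [geo]

lemma geo_mul {n : ℕ} (hn : 0 < n) (a : ℝ) : (1 - C a * X ^ n) * geo a n = 1 := by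
  ext k
  rw [sub_mul, one_mul, map_sub, mul_assoc, coeff_C_mul, coeff_X_pow_mul', coeff_geo, coeff_geo,
    coeff_one]
  rcases Nat.eq_zero_or_pos k with rfl | hk
  · simp [Nat.not_le.2 hn]
  · rw [if_neg hk.ne']
    by_cases h : n ∣ k
    · have h1 : n ≤ k := Nat.le_of_dvd hk h
      have h2 : n ∣ k - n := Nat.dvd_sub h (dvd_refl n)
      rw [if_pos h, if_pos h1, if_pos h2]
      obtain ⟨m, rfl⟩ := h
      obtain ⟨m, rfl⟩ : ∃ m', m = m' + 1 := ⟨m - 1, by
        have : m ≠ 0 := by rintro rfl; simp at hk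
        omega⟩
      have h3 : n * (m + 1) - n = n * m := by rw [Nat.mul_succ]; simp
      rw [h3, Nat.mul_div_cancel_left _ hn, Nat.mul_div_cancel_left _ hn, pow_succ]
      ring
    · rw [if_neg h]
      split_ifs with h1 h2
      · exfalso
        obtain ⟨m, hm⟩ := h2
        exact h ⟨m + 1, by rw [Nat.mul_succ, ← hm]; omega⟩
      · simp
      · simp


lemma constantCoeff_geo (a : ℝ) (n : ℕ) : constantCoeff (geo a n) = 1 := by
  rw [← coeff_zero_eq_constantCoeff_apply, coeff_geo]; simp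

lemma coeff_zero_geo (a : ℝ) (n : ℕ) : coeff 0 (geo a n) = 1 := by
  rw [coeff_geo]; simp

lemma LD_of_mul_eq_one {A B α : ℝ⟦X⟧} (h : A * B = 1) (hA : LD A α) : LD B (-α) := by
  have hA0 : A ≠ 0 := by
    rintro rfl
    simp at h
  have h1 : LD (A * B) 0 := by rw [h]; exact LD_one
  have h2 := theta_of_LD_mul hA h1 hA0
  simpa using h2

/-- the logarithmic derivative of `1/(1 - a X^n)` -/
lemma LD_geo {n : ℕ} (hn : 0 < n) (a : ℝ) : LD (geo a n) (-(C (n : ℝ) * (geo a n - 1))) := by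
  have h1 : LD (1 - C a * X ^ n) (C (n : ℝ) * (geo a n - 1)) := by
    have h2 : theta (1 - C a * X ^ n) = -(C (n : ℝ) * (C a * X ^ n)) := by
      ext k
      rw [coeff_theta, map_sub, coeff_one, map_neg]
      simp only [coeff_C_mul, coeff_X_pow]
      rcases Nat.eq_zero_or_pos k with rfl | hk
      · simp [hn.ne]
      · rw [if_neg hk.ne']
        split_ifs with h
        · subst h; ring
        · simp
    unfold LD
    rw [h2]
    have h3 := geo_mul hn a
    have h4 : (geo a n - 1) * (1 - C a * X ^ n) = C a * X ^ n := by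
      linear_combination h3
    rw [mul_assoc, h4]
  exact LD_of_mul_eq_one (geo_mul hn a) h1

lemma LD_one_sub {n : ℕ} (hn : 0 < n) (a : ℝ) : LD (1 - C a * X ^ n) (C (n : ℝ) * (geo a n - 1)) := by
  have h := LD_of_mul_eq_one (A := geo a n) (B := 1 - C a * X ^ n)
    (by rw [mul_comm]; exact geo_mul hn a) (LD_geo hn a)
  simpa using h

lemma geo_mem_SubS {S : Subring ℝ} {a : ℝ} (ha : a ∈ S) (n : ℕ) : geo a n ∈ SubS S := by
  intro k
  rw [coeff_geo]
  split_ifs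
  · exact S.pow_mem ha _
  · exact S.zero_mem

lemma geo_mem_NNs {a : ℝ} (ha : 0 ≤ a) (n : ℕ) : geo a n ∈ NNs := by
  intro k
  rw [coeff_geo]
  split_ifs
  · exact pow_nonneg ha _
  · exact le_rfl

end Pool.Agent.Lib.MP_23a7d9_al
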