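import Pool.Agent.Lib.MP_23a7d9_al.Realize

/-!
Peeling loops off a polynomial: the chain construction.
-/

namespace Pool.Agent.Lib.MP_23a7d9_al

open PowerSeries Finset Matrix

/-- A chain of `k` steps from `P0` to `P`, each step attaching one loop. -/
inductive Chain (S : Subring ℝ) (f : ℝ⟦X⟧) (N : ℕ) : ℕ → ℝ⟦X⟧ → ℝ⟦X⟧ → Prop
  | nil (P : ℝ⟦X⟧) : Chain S f N 0 P P
  | cons {k : ℕ} {P0 P : ℝ⟦X⟧} (a : ℝ) (n : ℕ) (w w' : ℝ⟦X⟧) (h : Chain S f N k P0 P)
      (ha : a ∈ S) (ha0 : 0 ≤ a) (hn : 0 < n)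
      (hw : w ∈ SubS S ∧ w ∈ Fins ∧ w ∈ NNs ∧ ∀ j, j ≤ N → coeff j w = 0) (hw0 : w ≠ 0)
      (hw' : w' ∈ SubS S ∧ w' ∈ Fins ∧ w' ∈ NNs ∧ ∀ j, j ≤ N → coeff j w' = 0) :
      Chain S f N (k + 1) P0 ((1 - C a * X ^ n) * P - w * (1 - f) - w')

/-- shift down -/
noncomputable def shift (m : ℕ) (w : ℝ⟦X⟧) : ℝ⟦X⟧ := PowerSeries.mk fun i => coeff (i + m) w

lemma X_pow_mul_shift {m : ℕ} {w : ℝ⟦X⟧} (h : ∀ j, j < m → coeff j w = 0) :
    w = X ^ m * shift m w := by
  ext n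
  rw [coeff_X_pow_mul', shift]
  split_ifs with h1
  · rw [coeff_mk, Nat.sub_add_cancel h1]
  · exact h n (by omega)

lemma shift_props {S : Subring ℝ} {m : ℕ} {w : ℝ⟦X⟧}
    (hw : w ∈ SubS S ∧ w ∈ Fins ∧ w ∈ NNs) (h0 : coeff m w = 0) :
    shift m w ∈ SubS S ∧ shift m w ∈ Fins ∧ shift m w ∈ NNs ∧ coeff 0 (shift m w) = 0 := by
  refine ⟨fun n => ?_, ?_, fun n => ?_, ?_⟩
  · rw [shift, coeff_mk]; exact hw.1 _
  · obtain ⟨D, hD⟩ := hw.2.1
    exact ⟨D, fun n hn => by rw [shift, coeff_mk]; exact hD _ (by omega)⟩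
  · rw [shift, coeff_mk]; exact hw.2.2 _
  · rw [shift, coeff_mk, zero_add]; exact h0

lemma Chain.sys {S : Subring ℝ} {f P0 P : ℝ⟦X⟧} {N k : ℕ} (h : Chain S f N k P0 P)
    (h0 : Sys S f 0 P0) (h1 : coeff 0 P0 = 1) (hk : k + 1 ≤ N) :
    Sys S f k P ∧ coeff 0 P = 1 := by
  induction h with
  | nil P => exact ⟨h0, h1⟩
  | @cons k P0 P a n w w' h ha ha0 hn hw hw0 hw' ih =>
    obtain ⟨ih1, ih2⟩ := ih h0 h1 (by omega)
    have hP : P ≠ 0 := by
      rintro rfl
      simp at ih2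
    have e1 : w = X ^ (k + 1) * shift (k + 1) w :=
      X_pow_mul_shift fun j hj => hw.2.2.2 j (by omega)
    have e2 : w' = X ^ (k + 2) * shift (k + 2) w' :=
      X_pow_mul_shift fun j hj => hw'.2.2.2 j (by omega)
    have hs := ih1.step hP ha ha0 hn
      (shift_props (m := k + 1) ⟨hw.1, hw.2.1, hw.2.2.1⟩ (hw.2.2.2 _ (by omega)))
      (by
        intro h
        rw [h, mul_zero] at e1
        exact hw0 e1)
      (shift_props (m := k + 2) ⟨hw'.1, hw'.2.1, hw'.2.2.1⟩ (hw'.2.2.2 _ (by omega)))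
    rw [← e1, ← e2] at hs
    refine ⟨hs, ?_⟩
    have h2 := hw.2.2.2 0 (Nat.zero_le _)
    have h3 := hw'.2.2.2 0 (Nat.zero_le _)
    simp only [coeff_zero_eq_constantCoeff_apply, map_sub, map_mul, map_one, map_pow,
      constantCoeff_C, constantCoeff_X] at h2 h3 ih2 ⊢
    rw [h2, h3, ih2, zero_pow hn.ne']
    ring

/-! ### One peeling step -/

lemma coeff_mul_eq_zero_of_low {N : ℕ} {W : ℝ⟦X⟧} (hW : ∀ j, j ≤ N → coeff j W = 0) (G : ℝ⟦X⟧) :
    ∀ j, j ≤ N → coeff j (W * G) = 0 := by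
  intro j hj
  rw [coeff_mul]
  refine Finset.sum_eq_zero fun x hx => ?_
  have h : x.1 + x.2 = j := by simpa using hx
  rw [hW _ (by omega), zero_mul]

lemma coeff_C_mul_X_pow_mul (a : ℝ) (n j : ℕ) (F : ℝ⟦X⟧) :
    coeff j (C a * X ^ n * F) = if n ≤ j then a * coeff (j - n) F else 0 := by
  rw [mul_assoc, coeff_C_mul, coeff_X_pow_mul']
  split_ifs <;> simp

lemma Bd_one {R : ℝ} : Bd R 1 1 := by
  intro N
  unfold nrm
  rcases Nat.eq_zero_or_pos N with rfl | hN
  · simp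
  · rw [Finset.sum_eq_single 0]
    · simp
    · intro n _ hn
      rw [coeff_one, if_neg hn]; simp
    · intro h
      rw [Finset.mem_range] at h
      omega

lemma Bd_monomial {R : ℝ} (hR : 0 ≤ R) {a : ℝ} (ha : 0 ≤ a) (n : ℕ) :
    Bd R (C a * X ^ n) (a * R ^ n) := by
  intro N
  unfold nrm
  by_cases h : n ∈ range N
  · rw [Finset.sum_eq_single n]
    · rw [coeff_C_mul, coeff_X_pow, if_pos rfl, mul_one, abs_of_nonneg ha]
    · intro m _ hm
      rw [coeff_C_mul, coeff_X_pow, if_neg hm]; simp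
    · intro h1; exact absurd h h1
  · rw [Finset.sum_eq_zero]
    · positivity
    · intro m hm
      have : m ≠ n := by rintro rfl; exact h hm
      rw [coeff_C_mul, coeff_X_pow, if_neg this]; simp

lemma Bd_geomsum {R : ℝ} (hR : 0 ≤ R) {a : ℝ} (ha : 0 ≤ a) {n : ℕ} (h : a * R ^ n ≤ 1 / 2)
    (m : ℕ) : Bd R (∑ i ∈ range m, (C a * X ^ n) ^ i) 2 := by
  induction m with
  | zero => simp; exact Bd.zero.mono (by norm_num)
  | succ m ih =>
    rw [geom_sum_succ]
    have h1 := (((Bd_monomial hR ha n).mono h).mul hR ih).add hR Bd_one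
    exact h1.mono (by norm_num)

lemma Bd_geo {R : ℝ} (hR : 0 ≤ R) {a : ℝ} (ha : 0 ≤ a) {n : ℕ} (hn : 0 < n)
    (h : a * R ^ n ≤ 1 / 2) : Bd R (geo a n) 2 := by
  intro N
  have h1 : geo a n = C a * X ^ n * geo a n + 1 := by
    have := geo_mul hn a
    linear_combination this
  have h2 := nrm_add hR N (C a * X ^ n * geo a n) 1
  rw [← h1] at h2
  have h3 := nrm_mul hR N (C a * X ^ n) (geo a n)
  have h4 := (Bd_monomial hR ha n) N
  have h5 := Bd_one (R := R) N
  have h6 := nrm_nonneg hR N (geo a n)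
  nlinarith

/-- a window of coefficients -/
noncomputable def window (M n : ℕ) (x : ℕ → ℝ) : ℝ⟦X⟧ :=
  PowerSeries.mk fun j => if M < j ∧ j ≤ M + n then x j else 0

lemma coeff_window (M n : ℕ) (x : ℕ → ℝ) (j : ℕ) :
    coeff j (window M n x) = if M < j ∧ j ≤ M + n then x j else 0 := by
  simp [window]

lemma window_mem_SubS {S : Subring ℝ} {M n : ℕ} {x : ℕ → ℝ} (hx : ∀ j, x j ∈ S) :
    window M n x ∈ SubS S := by
  intro j
  rw [coeff_window]
  split_ifs
  · exact hx j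
  · exact S.zero_mem

lemma window_mem_Fins {M n : ℕ} {x : ℕ → ℝ} : window M n x ∈ Fins :=
  ⟨M + n, fun j hj => by rw [coeff_window, if_neg (by omega)]⟩

lemma window_mem_NNs {M n : ℕ} {x : ℕ → ℝ} (hx : ∀ j, 0 ≤ x j) : window M n x ∈ NNs := by
  intro j
  rw [coeff_window]
  split_ifs
  · exact hx j
  · exact le_rfl

lemma window_low {M n : ℕ} {x : ℕ → ℝ} {N : ℕ} (hN : N ≤ M) :
    ∀ j, j ≤ N → coeff j (window M n x) = 0 := by
  intro j hj
  rw [coeff_window, if_neg (by omega)]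

/-- truncation at degree `≤ M` -/
noncomputable def trc (M : ℕ) (F : ℝ⟦X⟧) : ℝ⟦X⟧ :=
  PowerSeries.mk fun j => if j ≤ M then coeff j F else 0

lemma coeff_trc (M : ℕ) (F : ℝ⟦X⟧) (j : ℕ) :
    coeff j (trc M F) = if j ≤ M then coeff j F else 0 := by
  simp [trc]

lemma trc_mem_SubS {S : Subring ℝ} {F : ℝ⟦X⟧} (hF : F ∈ SubS S) (M : ℕ) : trc M F ∈ SubS S := by
  intro j
  rw [coeff_trc]
  split_ifs
  · exact hF j
  · exact S.zero_mem

lemma trc_mem_Fins (M : ℕ) (F : ℝ⟦X⟧) : trc M F ∈ Fins :=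
  ⟨M, fun j hj => by rw [coeff_trc, if_neg (by omega)]⟩

lemma trc_mem_NNs {F : ℝ⟦X⟧} (hF : F ∈ NNs) (M : ℕ) : trc M F ∈ NNs := by
  intro j
  rw [coeff_trc]
  split_ifs
  · exact hF j
  · exact le_rfl

/-- key truncation identity -/
lemma trc_identity {P F : ℝ⟦X⟧} {a : ℝ} {n M : ℕ} (hn : 0 < n) (hF : (1 - C a * X ^ n) * F = P)
    (hP : ∀ j, M < j → coeff j P = 0) :
    (1 - C a * X ^ n) * trc M F = P - window M n (fun j => coeff j F) := by
  ext j
  have h1 := congrArg (coeff j) hF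
  rw [sub_mul, one_mul, map_sub, coeff_C_mul_X_pow_mul] at h1 ⊢
  rw [map_sub, coeff_trc, coeff_trc, coeff_window]
  rcases Nat.lt_or_ge M j with h2 | h2
  · rw [if_neg (by omega : ¬ j ≤ M)]
    rw [hP j h2] at h1 ⊢
    by_cases h3 : j ≤ M + n
    · rw [if_pos (⟨h2, h3⟩ : M < j ∧ j ≤ M + n)]
      by_cases h4 : n ≤ j
      · rw [if_pos h4] at h1 ⊢
        rw [if_pos (by omega : j - n ≤ M)]
        linarith
      · rw [if_neg h4] at h1 ⊢
        linarith
    · rw [if_neg (by omega : ¬ (M < j ∧ j ≤ M + n)), if_neg (by omega : ¬ (j - n ≤ M))]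
      simp
  · rw [if_pos h2, if_neg (by omega : ¬ (M < j ∧ j ≤ M + n)), sub_zero, ← h1]
    by_cases h4 : n ≤ j
    · rw [if_pos h4, if_pos h4, if_pos (by omega : j - n ≤ M)]
    · rw [if_neg h4, if_neg h4]

lemma sum_mem_aux {S : Subring ℝ} {f : ℝ⟦X⟧} (hf : f ∈ SubS S) (k : ℕ) :
    (∑ i ∈ range k, f ^ i) ∈ SubS S :=
  Subring.sum_mem _ fun i _ => Subring.pow_mem _ hf i

/-- One peeling step. -/
theorem peel_one {S : Subring ℝ} (hdense : ∀ x y : ℝ, x < y → ∃ s ∈ S, x < s ∧ s < y)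
    {f P : ℝ⟦X⟧} (hf : f ∈ SubS S ∧ f ∈ Fins ∧ f ∈ NNs ∧ coeff 0 f = 0)
    (hPS : P ∈ SubS S) (hPF : P ∈ Fins) {R : ℝ} (hR : 0 < R)
    {a : ℝ} (ha : a ∈ S) (ha0 : 0 < a) {n : ℕ} (hn : 0 < n) (haR : a * R ^ n ≤ 1 / 2)
    {m k : ℕ} (hk : 0 < k) (hmk : 2 * a ^ m ≤ coeff (n * m) (f ^ k))
    (N : ℕ) {η : ℝ} (hη : 0 < η) :
    ∃ P1 w w' : ℝ⟦X⟧, P1 ∈ SubS S ∧ P1 ∈ Fins ∧
      (∀ j, j ≤ N → coeff j P1 = coeff j (P * geo a n)) ∧ Bd R (P1 - P * geo a n) η ∧
      (w ∈ SubS S ∧ w ∈ Fins ∧ w ∈ NNs ∧ ∀ j, j ≤ N → coeff j w = 0) ∧ w ≠ 0 ∧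
      (w' ∈ SubS S ∧ w' ∈ Fins ∧ w' ∈ NNs ∧ ∀ j, j ≤ N → coeff j w' = 0) ∧
      P = (1 - C a * X ^ n) * P1 - w * (1 - f) - w' := by
  obtain ⟨hfS, hfF, hfN, hf0⟩ := hf
  set F : ℝ⟦X⟧ := P * geo a n with hF
  have hFS : F ∈ SubS S := mul_mem hPS (geo_mem_SubS ha n)
  have hqF : (1 - C a * X ^ n) * F = P := by
    have := geo_mul hn a
    rw [hF]
    linear_combination P * this
  obtain ⟨CP, hCP⟩ := Bd_of_Fins hR.le hPF
  have hBF := hCP.mul hR.le (Bd_geo hR.le ha0.le hn haR)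
  obtain ⟨N0, hN0⟩ := hBF.tail hR.le (δ := η / 7) (by positivity)
  obtain ⟨D, hD⟩ := hPF
  set M : ℕ := max N (max N0 D) with hM
  have hMN : N ≤ M := le_max_left _ _
  have hMN0 : N0 ≤ M := (le_max_left _ _).trans (le_max_right _ _)
  have hMD : D ≤ M := (le_max_right _ _).trans (le_max_right _ _)
  have hPM : ∀ j, M < j → coeff j P = 0 := fun j hj => hD j (by omega)
  -- small extra amount
  set E : ℝ := ∑ j ∈ Finset.Ioc M (M + n), R ^ j with hE
  have hE0 : 0 ≤ E := Finset.sum_nonneg fun j _ => (pow_pos hR j).le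
  set e : ℝ := (η / 7) / (E + 1) with he
  have he0 : 0 < e := by positivity
  have heE : e * E ≤ η / 7 := by
    rw [he, div_mul_eq_mul_div, div_le_iff₀ (by positivity)]
    nlinarith
  have hx : ∀ j, ∃ x ∈ S, |coeff j F| < x ∧ x < |coeff j F| + e := fun j =>
    hdense _ _ (by linarith)
  choose x hxS hx1 hx2 using hx
  have hx0 : ∀ j, 0 < x j := fun j => lt_of_le_of_lt (abs_nonneg _) (hx1 j)
  set Y : ℝ⟦X⟧ := window M n (fun j => coeff j F) with hY
  set H : ℝ⟦X⟧ := window M n (fun j => coeff j F + x j) with hH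
  set W : ℝ⟦X⟧ := window M n x with hW
  have hHYW : H = Y + W := by
    ext j
    rw [map_add, hH, hY, hW, coeff_window, coeff_window, coeff_window]
    split_ifs <;> simp
  have hT := trc_identity hn hqF hPM
  rw [← hY] at hT
  set T : ℝ⟦X⟧ := trc M F with hTdef
  set q : ℝ⟦X⟧ := C a * X ^ n with hq
  have hqS : q ∈ SubS S := mul_mem (C_mem_SubS ha) (pow_mem X_mem_SubS _)
  have hqFin : q ∈ Fins := mul_mem (C_mem_Fins a) (pow_mem X_mem_Fins _)
  have hg1 := geom_sum_mul_neg q m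
  have hg2 := geom_sum_mul_neg f k
  have hHS : H ∈ SubS S := window_mem_SubS fun j => S.add_mem (hFS j) (hxS j)
  have hWS : W ∈ SubS S := window_mem_SubS hxS
  have hWN : W ∈ NNs := window_mem_NNs fun j => (hx0 j).le
  refine ⟨T + H * ∑ i ∈ range m, q ^ i, W * ∑ i ∈ range k, f ^ i, W * f ^ k - H * q ^ m,
    ?_, ?_, ?_, ?_, ⟨?_, ?_, ?_, ?_⟩, ?_, ⟨?_, ?_, ?_, ?_⟩, ?_⟩
  · exact add_mem (trc_mem_SubS hFS M) (mul_mem hHS (sum_mem_aux hqS m))
  · exact add_mem (trc_mem_Fins M F)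
      (mul_mem window_mem_Fins (Subring.sum_mem _ fun i _ => Subring.pow_mem _ hqFin i))
  · intro j hj
    rw [map_add, coeff_mul_eq_zero_of_low (window_low hMN) _ j hj, add_zero, hTdef, coeff_trc,
      if_pos (hj.trans hMN)]
  · -- norm estimate
    have hB1 : Bd R (F - T) (η / 7) := by
      intro K
      have h1 : nrm R K (F - T) ≤ ∑ n ∈ Finset.Ico (M + 1) K, |coeff n F| * R ^ n := by
        unfold nrm
        rw [← Finset.sum_subset (s₁ := Finset.Ico (M + 1) K) (s₂ := range K)]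
        · refine Finset.sum_le_sum fun j hj => ?_
          rw [Finset.mem_Ico] at hj
          rw [map_sub, hTdef, coeff_trc, if_neg (by omega), sub_zero]
        · intro j hj
          rw [Finset.mem_Ico] at hj
          rw [Finset.mem_range]
          omega
        · intro j hj1 hj2
          rw [Finset.mem_Ico] at hj2
          rw [Finset.mem_range] at hj1
          rw [map_sub, hTdef, coeff_trc, if_pos (by omega), sub_self, abs_zero, zero_mul]
      exact h1.trans (hN0 (M + 1) (by omega) K)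
    have hB2 : Bd R H (3 * (η / 7)) := by
      intro K
      have h1 : nrm R K H ≤ 2 * nrm R K (F - T) + e * E := by
        have h2 : nrm R K (window M n fun _ => e) ≤ e * E := by
          unfold nrm
          rw [hE, Finset.mul_sum]
          calc ∑ j ∈ range K, |coeff j (window M n fun _ => e)| * R ^ j
              ≤ ∑ j ∈ range K ∪ Finset.Ioc M (M + n),
                |coeff j (window M n fun _ => e)| * R ^ j :=
                Finset.sum_le_sum_of_subset_of_nonneg Finset.subset_union_left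
                  fun _ _ _ => mul_nonneg (abs_nonneg _) (pow_nonneg hR.le _)
            _ = ∑ j ∈ Finset.Ioc M (M + n), |coeff j (window M n fun _ => e)| * R ^ j := by
                symm
                refine Finset.sum_subset Finset.subset_union_right fun j _ hj => ?_
                rw [Finset.mem_Ioc] at hj
                rw [coeff_window, if_neg hj, abs_zero, zero_mul]
            _ = _ := by
                refine Finset.sum_congr rfl fun j hj => ?_
                rw [Finset.mem_Ioc] at hj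
                rw [coeff_window, if_pos hj, abs_of_pos he0]
        refine le_trans ?_ (add_le_add_right h2 (2 * nrm R K (F - T)))
        unfold nrm
        rw [Finset.mul_sum, ← Finset.sum_add_distrib]
        refine Finset.sum_le_sum fun j _ => ?_
        rw [← mul_assoc, ← add_mul]
        refine mul_le_mul_of_nonneg_right ?_ (pow_nonneg hR.le _)
        rw [hH, coeff_window, coeff_window, map_sub, hTdef, coeff_trc]
        by_cases h3 : M < j ∧ j ≤ M + n
        · rw [if_pos h3, if_pos h3, if_neg (by omega), sub_zero, abs_of_pos he0]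
          calc |coeff j F + x j| ≤ |coeff j F| + |x j| := abs_add_le _ _
            _ = |coeff j F| + x j := by rw [abs_of_pos (hx0 j)]
            _ ≤ _ := by linarith [hx2 j]
        · rw [if_neg h3, if_neg h3]
          simp
      have h4 := hB1 K
      nlinarith
    have hB3 := hB2.mul hR.le (Bd_geomsum hR.le ha0.le haR m)
    have hB4 := hB3.sub hR.le hB1
    have hre : T + H * ∑ i ∈ range m, q ^ i - F = H * ∑ i ∈ range m, q ^ i - (F - T) := by ring
    rw [hre]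
    exact hB4.mono (by linarith)
  · exact mul_mem hWS (sum_mem_aux hfS k)
  · exact mul_mem window_mem_Fins (Subring.sum_mem _ fun i _ => Subring.pow_mem _ hfF i)
  · exact mul_mem hWN (Subsemiring.sum_mem _ fun i _ => Subsemiring.pow_mem _ hfN i)
  · exact coeff_mul_eq_zero_of_low (window_low hMN) _
  · refine mul_ne_zero ?_ ?_
    · intro h
      have h1 := congrArg (coeff (M + 1)) h
      rw [hW, coeff_window, if_pos ⟨by omega, by omega⟩, map_zero] at h1
      exact (hx0 _).ne' h1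
    · intro h
      have h1 := congrArg (coeff 0) h
      obtain ⟨k', rfl⟩ : ∃ k', k = k' + 1 := ⟨k - 1, by omega⟩
      rw [geom_sum_succ, map_add, map_zero] at h1
      simp only [coeff_zero_eq_constantCoeff_apply, map_mul, map_one] at h1 hf0
      rw [hf0] at h1
      simp at h1
  · exact sub_mem (mul_mem hWS (pow_mem hfS _)) (mul_mem hHS (pow_mem hqS _))
  · exact sub_mem (mul_mem window_mem_Fins (pow_mem hfF _))
      (mul_mem window_mem_Fins (pow_mem hqFin _))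
  · intro t
    rw [map_sub, coeff_mul, coeff_mul, ← Finset.sum_sub_distrib]
    refine Finset.sum_nonneg fun y _ => ?_
    rw [hW, hH, coeff_window, coeff_window]
    split_ifs with h1
    · have h2 : coeff y.2 (q ^ m) = if y.2 = n * m then a ^ m else 0 := by
        rw [hq, mul_pow, ← map_pow, ← pow_mul, coeff_C_mul, coeff_X_pow]
        split_ifs <;> simp
      rw [h2]
      split_ifs with h3
      · rw [h3]
        have h4 : coeff y.1 F + x y.1 ≤ 2 * x y.1 := by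
          linarith [le_abs_self (coeff y.1 F), hx1 y.1]
        have h5 : (coeff y.1 F + x y.1) * a ^ m ≤ 2 * x y.1 * a ^ m :=
          mul_le_mul_of_nonneg_right h4 (pow_nonneg ha0.le _)
        have h6 : x y.1 * (2 * a ^ m) ≤ x y.1 * coeff (n * m) (f ^ k) :=
          mul_le_mul_of_nonneg_left hmk (hx0 _).le
        linarith
      · rw [mul_zero, sub_zero]
        exact mul_nonneg (hx0 _).le ((pow_mem hfN k : f ^ k ∈ NNs) _)
    · simp
  · intro j hj
    rw [map_sub, coeff_mul_eq_zero_of_low (window_low hMN) _ j hj,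
      coeff_mul_eq_zero_of_low (window_low hMN) _ j hj, sub_zero]
  · rw [hHYW]
    linear_combination -hT - (Y + W) * hg1 + W * hg2

/-- product of the geometric series of a list of loops -/
noncomputable def geoprod (ls : List (ℝ × ℕ)) : ℝ⟦X⟧ := (ls.map fun q => geo q.1 q.2).prod

lemma geoprod_cons (q : ℝ × ℕ) (ls : List (ℝ × ℕ)) :
    geoprod (q :: ls) = geo q.1 q.2 * geoprod ls := by
  simp [geoprod]

lemma Bd_geoprod {R : ℝ} (hR : 0 ≤ R) : ∀ (ls : List (ℝ × ℕ)),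
    (∀ q ∈ ls, 0 < q.1 ∧ 0 < q.2 ∧ q.1 * R ^ q.2 ≤ 1 / 2) → Bd R (geoprod ls) (2 ^ ls.length)
  | [], _ => by simpa [geoprod] using Bd_one
  | q :: ls, h => by
    rw [geoprod_cons, List.length_cons, pow_succ, mul_comm ((2 : ℝ) ^ ls.length)]
    have h1 := h q (List.mem_cons_self)
    exact (Bd_geo hR h1.1.le h1.2.1 h1.2.2).mul hR
      (Bd_geoprod hR ls fun q' hq' => h q' (List.mem_cons_of_mem _ hq'))

theorem peel_list {S : Subring ℝ} (hdense : ∀ x y : ℝ, x < y → ∃ s ∈ S, x < s ∧ s < y)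
    {f : ℝ⟦X⟧} (hf : f ∈ SubS S ∧ f ∈ Fins ∧ f ∈ NNs ∧ coeff 0 f = 0) {R : ℝ} (hR : 0 < R)
    (N : ℕ) : ∀ (ls : List (ℝ × ℕ)),
    (∀ q ∈ ls, q.1 ∈ S ∧ 0 < q.1 ∧ 0 < q.2 ∧ q.1 * R ^ q.2 ≤ 1 / 2 ∧
      ∃ m k : ℕ, 0 < k ∧ 2 * q.1 ^ m ≤ coeff (q.2 * m) (f ^ k)) →
    ∀ (P : ℝ⟦X⟧), P ∈ SubS S → P ∈ Fins → ∀ (η : ℝ), 0 < η →
    ∃ P0, P0 ∈ SubS S ∧ P0 ∈ Fins ∧ (∀ j, j ≤ N → coeff j P0 = coeff j (P * geoprod ls)) ∧
      Bd R (P0 - P * geoprod ls) η ∧ Chain S f N ls.length P0 P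
  | [], _ => by
    intro P hPS hPF η hη
    refine ⟨P, hPS, hPF, fun j _ => by simp [geoprod], ?_, Chain.nil P⟩
    have : P - P * geoprod [] = 0 := by simp [geoprod]
    rw [this]
    exact Bd.zero.mono hη.le
  | q :: ls, h => by
    intro P hPS hPF η hη
    obtain ⟨h1, h2, h3, h4, m, k, h5, h6⟩ := h q (List.mem_cons_self)
    have hη1 : 0 < η / 2 / 2 ^ ls.length := by positivity
    obtain ⟨P1, w, w', hP1S, hP1F, hlow, hB, hw, hw0, hw', hid⟩ :=
      peel_one hdense hf hPS hPF hR h1 h2 h3 h4 h5 h6 N hη1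
    obtain ⟨P0, hP0S, hP0F, hlow0, hB0, hch⟩ := peel_list hdense hf hR N ls
      (fun q' hq' => h q' (List.mem_cons_of_mem _ hq')) P1 hP1S hP1F (η / 2) (by positivity)
    refine ⟨P0, hP0S, hP0F, ?_, ?_, ?_⟩
    · intro j hj
      rw [hlow0 j hj, geoprod_cons, ← mul_assoc, ← sub_eq_zero, ← map_sub, ← sub_mul]
      refine coeff_mul_eq_zero_of_low (N := N) (fun i hi => ?_) _ j hj
      rw [map_sub, hlow i hi, sub_self]
    · have hre : P0 - P * geoprod (q :: ls) =
          (P0 - P1 * geoprod ls) + (P1 - P * geo q.1 q.2) * geoprod ls := by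
        rw [geoprod_cons]; ring
      rw [hre]
      have hB1 := hB.mul hR.le (Bd_geoprod hR.le ls fun q' hq' => by
        have := h q' (List.mem_cons_of_mem _ hq')
        exact ⟨this.2.1, this.2.2.1, this.2.2.2.1⟩)
      have hB2 := hB0.add hR.le hB1
      refine hB2.mono (le_of_eq ?_)
      field_simp
      ring
    · rw [List.length_cons, hid]
      exact Chain.cons _ _ w w' hch h1 h2.le h3 hw hw0 hw'

end Pool.Agent.Lib.MP_23a7d9_al
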