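import Mathlib

/-!
A criterion for primitivity of a nonnegative matrix in terms of walks.
-/

namespace Pool.Agent.Lib.MP_23a7d9_al

open Finset Matrix

section walks

variable {V : Type*} [Fintype V] [DecidableEq V] {B : Matrix V V ℝ}

lemma pow_entries_nonneg (hB : ∀ i j, 0 ≤ B i j) (n : ℕ) : ∀ i j, 0 ≤ (B ^ n) i j := by
  induction n with
  | zero =>
    intro i j
    rw [pow_zero, Matrix.one_apply]
    split_ifs <;> norm_num
  | succ n ih =>
    intro i j
    rw [pow_succ, Matrix.mul_apply]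
    exact Finset.sum_nonneg fun x _ => mul_nonneg (ih _ _) (hB _ _)

lemma walk_add (hB : ∀ i j, 0 ≤ B i j) {m n : ℕ} {i j k : V} (h1 : 0 < (B ^ m) i j)
    (h2 : 0 < (B ^ n) j k) : 0 < (B ^ (m + n)) i k := by
  rw [pow_add, Matrix.mul_apply]
  refine lt_of_lt_of_le (mul_pos h1 h2) ?_
  exact Finset.single_le_sum (f := fun x => (B ^ m) i x * (B ^ n) x k)
    (fun x _ => mul_nonneg (pow_entries_nonneg hB m _ _) (pow_entries_nonneg hB n _ _))
    (Finset.mem_univ j)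

lemma walk_mul (hB : ∀ i j, 0 ≤ B i j) {m : ℕ} {i : V} (h1 : 0 < (B ^ m) i i) (k : ℕ) :
    0 < (B ^ (k * m)) i i := by
  induction k with
  | zero => simp
  | succ k ih =>
    rw [Nat.succ_mul]
    exact walk_add hB ih h1

lemma walk_large (hB : ∀ i j, 0 ≤ B i j) {n : ℕ} {i : V} (h1 : 0 < (B ^ n) i i)
    (h2 : 0 < (B ^ (n + 1)) i i) {N : ℕ} (hN : n * n ≤ N) : 0 < (B ^ N) i i := by
  rcases Nat.eq_zero_or_pos n with rfl | hn
  · have := walk_mul hB h2 N
    simpa using this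
  · have h3 : N % n < n := Nat.mod_lt _ hn
    have h4 : n ≤ N / n := (Nat.le_div_iff_mul_le hn).2 hN
    have h5 := Nat.div_add_mod N n
    have h6 : N = (N / n - N % n) * n + (N % n) * (n + 1) := by
      obtain ⟨c, hc⟩ : ∃ c, N / n = N % n + c := ⟨N / n - N % n, by omega⟩
      rw [hc] at h5 ⊢
      rw [Nat.add_sub_cancel_left]
      nlinarith
    rw [h6]
    exact walk_add hB (walk_mul hB h1 _) (walk_mul hB h2 _)

theorem primitive_of_walks (hB : ∀ i j, 0 ≤ B i j) (β : V) {n : ℕ} (h1 : 0 < (B ^ n) β β)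
    (h2 : 0 < (B ^ (n + 1)) β β) (hto : ∀ v, ∃ s, 0 < (B ^ s) v β)
    (hfrom : ∀ v, ∃ t, 0 < (B ^ t) β v) : ∃ m, 0 < m ∧ ∀ i j, 0 < (B ^ m) i j := by
  choose s hs using hto
  choose t ht using hfrom
  refine ⟨(n * n + 1) + ∑ v, s v + ∑ v, t v, by omega, fun i j => ?_⟩
  have h3 : s i ≤ ∑ v, s v := Finset.single_le_sum (fun _ _ => Nat.zero_le _) (Finset.mem_univ i)
  have h4 : t j ≤ ∑ v, t v := Finset.single_le_sum (fun _ _ => Nat.zero_le _) (Finset.mem_univ j)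
  obtain ⟨a, ha⟩ := Nat.exists_eq_add_of_le h3
  obtain ⟨c, hc⟩ := Nat.exists_eq_add_of_le h4
  have h5 : (n * n + 1) + ∑ v, s v + ∑ v, t v = (s i + (n * n + 1 + a + c)) + t j := by
    rw [ha, hc]; ring
  rw [h5]
  exact walk_add hB (walk_add hB (hs i) (walk_large hB h1 h2 (by omega))) (ht j)

end walks

end Pool.Agent.Lib.MP_23a7d9_al
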