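import Pool.Agent.Lib.MP_23a7d9_al.Peel

/-!
Renewal sequences and the base system.
-/

namespace Pool.Agent.Lib.MP_23a7d9_al

open PowerSeries Finset

lemma exists_inv {f : ℝ⟦X⟧} (h0 : coeff 0 f = 0) : ∃ u : ℝ⟦X⟧, (1 - f) * u = 1 := by
  refine ⟨(1 - f)⁻¹, PowerSeries.mul_inv_cancel _ ?_⟩
  rw [coeff_zero_eq_constantCoeff_apply] at h0
  rw [map_sub, h0]
  simp

section renewal

variable {f u : ℝ⟦X⟧} (h0 : coeff 0 f = 0) (hu : (1 - f) * u = 1)

include hu in
lemma coeff_u {m : ℕ} (hm : 0 < m) :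
    coeff m u = ∑ i ∈ range (m + 1), coeff i f * coeff (m - i) u := by
  have h1 : u = 1 + f * u := by linear_combination hu
  have h2 := congrArg (coeff m) h1
  rw [map_add, coeff_one, if_neg hm.ne', zero_add, coeff_mul,
    Finset.Nat.sum_antidiagonal_eq_sum_range_succ_mk] at h2
  exact h2

include h0 hu in
lemma coeff_u_zero : coeff 0 u = 1 := by
  have h1 : u = 1 + f * u := by linear_combination hu
  have h2 := congrArg (coeff 0) h1
  simp only [coeff_zero_eq_constantCoeff_apply, map_add, map_mul, map_one] at h2 h0 ⊢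
  rw [h2, h0]; ring

include h0 hu in
lemma u_mem_NNs (hf : f ∈ NNs) : u ∈ NNs := by
  intro m
  induction m using Nat.strong_induction_on with
  | _ m ih =>
    rcases Nat.eq_zero_or_pos m with rfl | hm
    · rw [coeff_u_zero h0 hu]; exact zero_le_one
    · rw [coeff_u hu hm]
      refine Finset.sum_nonneg fun i _ => ?_
      rcases Nat.eq_zero_or_pos i with rfl | hi
      · rw [h0, zero_mul]
      · exact mul_nonneg (hf i) (ih _ (by omega))

include h0 hu in
lemma u_mem_SubS {S : Subring ℝ} (hf : f ∈ SubS S) : u ∈ SubS S := by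
  intro m
  induction m using Nat.strong_induction_on with
  | _ m ih =>
    rcases Nat.eq_zero_or_pos m with rfl | hm
    · rw [coeff_u_zero h0 hu]; exact S.one_mem
    · rw [coeff_u hu hm]
      refine S.sum_mem fun i _ => ?_
      rcases Nat.eq_zero_or_pos i with rfl | hi
      · rw [h0, zero_mul]; exact S.zero_mem
      · exact S.mul_mem (hf i) (ih _ (by omega))

include h0 hu in
lemma u_supermul (hf : f ∈ NNs) (m j : ℕ) : coeff m u * coeff j u ≤ coeff (m + j) u := by
  have hN := u_mem_NNs h0 hu hf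
  induction m using Nat.strong_induction_on with
  | _ m ih =>
    rcases Nat.eq_zero_or_pos m with rfl | hm
    · rw [coeff_u_zero h0 hu, one_mul, zero_add]
    · rw [coeff_u hu hm, coeff_u hu (show 0 < m + j by omega), Finset.sum_mul]
      calc ∑ i ∈ range (m + 1), coeff i f * coeff (m - i) u * coeff j u
          ≤ ∑ i ∈ range (m + 1), coeff i f * coeff (m + j - i) u := by
            refine Finset.sum_le_sum fun i hi => ?_
            rw [Finset.mem_range] at hi
            rcases Nat.eq_zero_or_pos i with rfl | hi0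
            · rw [h0]; simp
            · rw [mul_assoc]
              refine mul_le_mul_of_nonneg_left ?_ (hf i)
              have := ih (m - i) (by omega)
              rwa [show m - i + j = m + j - i by omega] at this
        _ ≤ _ := Finset.sum_le_sum_of_subset_of_nonneg (Finset.range_mono (by omega))
            fun i _ _ => mul_nonneg (hf i) (hN _)

include hu in
lemma u_ge_mul (hf : f ∈ NNs) (hN : u ∈ NNs) {m i : ℕ} (hm : 0 < m) (hi : i ≤ m) :
    coeff i f * coeff (m - i) u ≤ coeff m u := by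
  rw [coeff_u hu hm]
  exact Finset.single_le_sum (f := fun i => coeff i f * coeff (m - i) u)
    (fun i _ => mul_nonneg (hf i) (hN _)) (Finset.mem_range.2 (by omega))

include h0 hu in
lemma u_pos (hf : f ∈ NNs) {L0 K : ℕ} (hL0 : 0 < L0) (hK : 2 * L0 ≤ K)
    (hpos : ∀ n, L0 ≤ n → n ≤ K → 0 < coeff n f) : ∀ m, L0 ≤ m → 0 < coeff m u := by
  have hN := u_mem_NNs h0 hu hf
  intro m
  induction m using Nat.strong_induction_on with
  | _ m ih =>
    intro hm
    rcases le_or_gt m K with h1 | h1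
    · refine lt_of_lt_of_le ?_ (u_ge_mul hu hf hN (show 0 < m by omega) le_rfl)
      rw [Nat.sub_self, coeff_u_zero h0 hu, mul_one]
      exact hpos m hm h1
    · refine lt_of_lt_of_le ?_ (u_ge_mul hu hf hN (show 0 < m by omega) hm)
      exact mul_pos (hpos L0 le_rfl (by omega)) (ih _ (by omega) (by omega))

include h0 hu in
lemma u_lower (hf : f ∈ NNs) {L0 K : ℕ} (hL0 : 0 < L0) (hK : 2 * L0 ≤ K)
    (hpos : ∀ n, L0 ≤ n → n ≤ K → 0 < coeff n f) {R : ℝ} (hR : 0 < R)
    (hsum : 1 ≤ ∑ n ∈ Finset.Icc L0 K, coeff n f * R ^ n) :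
    ∃ c : ℝ, 0 < c ∧ ∀ m, L0 ≤ m → c ≤ coeff m u * R ^ m := by
  have hN := u_mem_NNs h0 hu hf
  have hup := u_pos h0 hu hf hL0 hK hpos
  obtain ⟨m0, hm0, hmin⟩ := Finset.exists_min_image (Finset.Icc L0 (K + L0))
    (fun m => coeff m u * R ^ m) ⟨L0, Finset.mem_Icc.2 ⟨le_rfl, by omega⟩⟩
  rw [Finset.mem_Icc] at hm0
  set c := coeff m0 u * R ^ m0 with hc
  have hc0 : 0 < c := mul_pos (hup m0 hm0.1) (pow_pos hR _)
  refine ⟨c, hc0, fun m => ?_⟩
  induction m using Nat.strong_induction_on with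
  | _ m ih =>
    intro hm
    rcases le_or_gt m (K + L0) with h1 | h1
    · exact hmin m (Finset.mem_Icc.2 ⟨hm, h1⟩)
    · rw [coeff_u hu (show 0 < m by omega), Finset.sum_mul]
      calc c ≤ ∑ n ∈ Finset.Icc L0 K, (coeff n f * R ^ n) * c := by
            rw [← Finset.sum_mul]
            nlinarith
        _ ≤ ∑ n ∈ Finset.Icc L0 K, coeff n f * coeff (m - n) u * R ^ m := by
            refine Finset.sum_le_sum fun n hn => ?_
            rw [Finset.mem_Icc] at hn
            have h2 := ih (m - n) (by omega) (by omega)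
            have h3 : R ^ m = R ^ n * R ^ (m - n) := by
              rw [← pow_add]; congr 1; omega
            rw [h3]
            have h4 : 0 ≤ coeff n f * R ^ n := mul_nonneg (hf n) (pow_nonneg hR.le _)
            calc coeff n f * R ^ n * c ≤ coeff n f * R ^ n * (coeff (m - n) u * R ^ (m - n)) :=
                  mul_le_mul_of_nonneg_left h2 h4
              _ = _ := by ring
        _ ≤ _ := by
            refine Finset.sum_le_sum_of_subset_of_nonneg (fun n hn => ?_) fun n _ _ =>
              mul_nonneg (mul_nonneg (hf n) (hN _)) (pow_nonneg hR.le _)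
            rw [Finset.mem_Icc] at hn
            rw [Finset.mem_range]
            omega

include h0 hu in
/-- positivity of the quotient `(F' - f)/(1 - f)` -/
lemma quotient_pos (hf : f ∈ NNs) {L0 : ℕ} (hL0 : 0 < L0) {R : ℝ} (hR : 0 < R)
    {c : ℝ} (hc : 0 < c) (hlow : ∀ m, L0 ≤ m → c ≤ coeff m u * R ^ m)
    {F : ℝ⟦X⟧} {δ : ℝ} (hδ : 0 < δ) {n1 : ℕ} (hn1 : 2 * L0 ≤ n1)
    (hfn1 : ∀ j, n1 < j → coeff j f = 0)
    (hle : ∀ j, j ≤ n1 → coeff j f ≤ coeff j F)
    (hδF : δ ≤ coeff L0 F - coeff L0 f)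
    (htail : ∀ N, ∑ j ∈ Finset.Ico (n1 + 1) N, |coeff j F| * R ^ j ≤ δ / 2 * c * R ^ L0)
    {m : ℕ} (hm : L0 ≤ m) : δ / 2 * coeff (m - L0) u ≤ coeff m ((F - f) * u) := by
  have hN := u_mem_NNs h0 hu hf
  rw [coeff_mul, Finset.Nat.sum_antidiagonal_eq_sum_range_succ_mk]
  set κ : ℝ := coeff (m - L0) u / (c * R ^ L0) with hκ
  have hκ0 : 0 ≤ κ := div_nonneg (hN _) (by positivity)
  have hterm : ∀ i ∈ range (m + 1),
      (if i = L0 then δ * coeff (m - L0) u else 0) -
        (if n1 < i then κ * (|coeff i F| * R ^ i) else 0) ≤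
      coeff i (F - f) * coeff (m - i) u := by
    intro i hi
    rw [Finset.mem_range] at hi
    rw [map_sub]
    rcases le_or_gt i n1 with h1 | h1
    · rw [if_neg (not_lt.2 h1), sub_zero]
      by_cases h2 : i = L0
      · rw [if_pos h2, h2]
        exact mul_le_mul_of_nonneg_right hδF (hN _)
      · rw [if_neg h2]
        exact mul_nonneg (sub_nonneg.2 (hle i h1)) (hN _)
    · rw [if_pos h1, if_neg (by omega), zero_sub, hfn1 i h1, sub_zero]
      have h2 : |coeff i F| * coeff (m - i) u ≤ κ * (|coeff i F| * R ^ i) := by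
        have h3 := u_supermul h0 hu hf (m - i) (i - L0)
        rw [show m - i + (i - L0) = m - L0 by omega] at h3
        have h4 := hlow (i - L0) (by omega)
        have h5 : R ^ i = R ^ (i - L0) * R ^ L0 := by rw [← pow_add]; congr 1; omega
        have h6 : coeff (m - i) u * c ≤ coeff (m - L0) u * R ^ (i - L0) := by
          calc coeff (m - i) u * c ≤ coeff (m - i) u * (coeff (i - L0) u * R ^ (i - L0)) :=
                mul_le_mul_of_nonneg_left h4 (hN _)
            _ = (coeff (m - i) u * coeff (i - L0) u) * R ^ (i - L0) := by ring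
            _ ≤ _ := mul_le_mul_of_nonneg_right h3 (pow_nonneg hR.le _)
        have h7 : coeff (m - i) u ≤ κ * R ^ i := by
          rw [hκ, h5, div_mul_eq_mul_div, le_div_iff₀ (by positivity)]
          calc coeff (m - i) u * (c * R ^ L0) = (coeff (m - i) u * c) * R ^ L0 := by ring
            _ ≤ (coeff (m - L0) u * R ^ (i - L0)) * R ^ L0 :=
                mul_le_mul_of_nonneg_right h6 (pow_nonneg hR.le _)
            _ = _ := by ring
        calc |coeff i F| * coeff (m - i) u ≤ |coeff i F| * (κ * R ^ i) :=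
              mul_le_mul_of_nonneg_left h7 (abs_nonneg _)
          _ = _ := by ring
      have h3 : -(|coeff i F| * coeff (m - i) u) ≤ coeff i F * coeff (m - i) u := by
        rw [← neg_mul]
        exact mul_le_mul_of_nonneg_right (neg_abs_le _) (hN _)
      linarith
  refine le_trans ?_ (Finset.sum_le_sum hterm)
  rw [Finset.sum_sub_distrib, Finset.sum_ite_eq', if_pos (Finset.mem_range.2 (by omega))]
  have h8 : ∑ i ∈ range (m + 1), (if n1 < i then κ * (|coeff i F| * R ^ i) else 0) =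
      κ * ∑ j ∈ Finset.Ico (n1 + 1) (m + 1), |coeff j F| * R ^ j := by
    rw [← Finset.sum_filter, Finset.mul_sum]
    refine Finset.sum_congr ?_ fun _ _ => rfl
    ext i
    simp only [Finset.mem_filter, Finset.mem_range, Finset.mem_Ico]
    omega
  rw [h8]
  have h9 : κ * ∑ j ∈ Finset.Ico (n1 + 1) (m + 1), |coeff j F| * R ^ j ≤
      κ * (δ / 2 * c * R ^ L0) := mul_le_mul_of_nonneg_left (htail _) hκ0
  have h10 : κ * (δ / 2 * c * R ^ L0) = δ / 2 * coeff (m - L0) u := by
    rw [hκ]; field_simp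
  linarith

end renewal

/-- The base system for `1 - F`. -/
theorem base_sys {S : Subring ℝ} {f : ℝ⟦X⟧} (hf : f ∈ SubS S ∧ f ∈ Fins ∧ f ∈ NNs) {L0 K : ℕ}
    (hL0 : 0 < L0) (hK : 2 * L0 ≤ K) (hpos : ∀ n, L0 ≤ n → n ≤ K → 0 < coeff n f)
    (hlow : ∀ n, n < L0 → coeff n f = 0) (hhigh : ∀ n, K < n → coeff n f = 0)
    {R : ℝ} (hR : 0 < R) (hsum : 1 ≤ ∑ n ∈ Finset.Icc L0 K, coeff n f * R ^ n) :
    ∃ c : ℝ, 0 < c ∧ ∀ (F : ℝ⟦X⟧) (δ : ℝ) (n1 : ℕ), F ∈ SubS S → F ∈ Fins → 0 < δ → K ≤ n1 →
      (∀ j, j < L0 → coeff j F = 0) → (∀ j, j ≤ n1 → coeff j f ≤ coeff j F) →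
      δ ≤ coeff L0 F - coeff L0 f →
      (∀ N, ∑ j ∈ Finset.Ico (n1 + 1) N, |coeff j F| * R ^ j ≤ δ / 2 * c * R ^ L0) →
      Sys S f 0 (1 - F) := by
  obtain ⟨hfS, hfF, hfN⟩ := hf
  have h0 : coeff 0 f = 0 := hlow 0 hL0
  obtain ⟨u, hu⟩ := exists_inv h0
  obtain ⟨c, hc, hcl⟩ := u_lower h0 hu hfN hL0 hK hpos hR hsum
  have huN := u_mem_NNs h0 hu hfN
  have huS := u_mem_SubS h0 hu hfS
  refine ⟨c, hc, ?_⟩
  intro F δ n1 hFS hFF hδ hKn1 hFlow hle hδF htail
  set r : ℝ⟦X⟧ := (F - f) * u with hr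
  have hrS : r ∈ SubS S := mul_mem (sub_mem hFS hfS) huS
  have hrlow : ∀ m, m < L0 → coeff m r = 0 := by
    intro m hm
    refine coeff_mul_eq_zero_of_low (N := L0 - 1) (fun j hj => ?_) _ m (by omega)
    rw [map_sub, hFlow j (by omega), hlow j (by omega), sub_zero]
  have hrpos : ∀ m, L0 ≤ m → δ / 2 * coeff (m - L0) u ≤ coeff m r := fun m hm =>
    quotient_pos h0 hu hfN hL0 hR hc hcl hδ (by omega) (fun j hj => hhigh j (by omega)) hle hδF
      htail hm
  have hrN : r ∈ NNs := by
    intro m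
    rcases lt_or_ge m L0 with h | h
    · rw [hrlow m h]
    · exact le_trans (mul_nonneg (by positivity) (huN _)) (hrpos m h)
  have hrpos' : ∀ m, 2 * L0 ≤ m → 0 < coeff m r := by
    intro m hm
    refine lt_of_lt_of_le (mul_pos (by positivity) ?_) (hrpos m (by omega))
    exact u_pos h0 hu hfN hL0 hK hpos _ (by omega)
  obtain ⟨DF, hDF⟩ := hFF
  set M : ℕ := max DF (max K (3 * L0 + 1)) with hM
  have hM1 : DF ≤ M := le_max_left _ _
  have hM2 : K ≤ M := (le_max_left _ _).trans (le_max_right _ _)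
  have hM3 : 3 * L0 + 1 ≤ M := (le_max_right _ _).trans (le_max_right _ _)
  set Rr : ℝ⟦X⟧ := trc M r with hRr
  set D' : ℝ⟦X⟧ := Rr * f - trc M (Rr * f) with hD'
  have hRrS : Rr ∈ SubS S := trc_mem_SubS hrS M
  have hRrN : Rr ∈ NNs := trc_mem_NNs hrN M
  have hRrF : Rr ∈ Fins := trc_mem_Fins M r
  have hRfN : Rr * f ∈ NNs := mul_mem hRrN hfN
  have hcD' : ∀ j, coeff j D' = if j ≤ M then 0 else coeff j (Rr * f) := by
    intro j
    rw [hD', map_sub, coeff_trc]
    split_ifs <;> simp
  have hrf : r * (1 - f) = F - f := by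
    rw [hr]
    linear_combination (F - f) * hu
  have hid : (1 - Rr) * (1 - f) - D' = 1 - F := by
    have h1 : Rr * (1 - f) = (F - f) - D' := by
      ext j
      rw [map_sub, hcD', mul_sub, mul_one, map_sub]
      rcases le_or_gt j M with h | h
      · rw [if_pos h, sub_zero]
        have h2 := congrArg (coeff j) hrf
        rw [mul_sub, mul_one, map_sub] at h2
        rw [← h2]
        congr 1
        · rw [hRr, coeff_trc, if_pos h]
        · rw [coeff_mul, coeff_mul]
          refine Finset.sum_congr rfl fun x hx => ?_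
          have h3 : x.1 + x.2 = j := by simpa using hx
          rw [hRr, coeff_trc, if_pos (by omega)]
      · rw [if_neg (not_le.2 h), map_sub, hDF j (by omega), hhigh j (by omega), hRr, coeff_trc,
          if_neg (not_le.2 h)]
        ring
    linear_combination -h1
  have hD'0 : ∀ j, j < 1 → coeff j D' = 0 := by
    intro j hj
    rw [hcD', if_pos (by omega)]
  have hXv := X_pow_mul_shift hD'0
  rw [pow_one] at hXv
  have hv := shift_props (S := S) (m := 1) (w := D') ⟨?_, ?_, ?_⟩ ?_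
  · rw [hXv] at hid
    rw [← hid]
    refine sys_base ⟨hfS, hfF, hfN, h0⟩ ⟨hRrS, hRrF, hRrN, ?_⟩ hv ?_ ⟨2 * L0, ?_, ?_⟩
    · rw [hRr, coeff_trc, if_pos (by omega), hrlow 0 hL0]
    · intro h
      rw [h, mul_zero] at hXv
      have h1 := congrArg (coeff (M + 1)) hXv
      rw [hcD', if_neg (by omega), map_zero] at h1
      have h2 : 0 < coeff (M + 1) (Rr * f) := by
        rw [coeff_mul]
        refine lt_of_lt_of_le (mul_pos (a := coeff (M + 1 - L0) Rr) (b := coeff L0 f) ?_ ?_)
          (Finset.single_le_sum (f := fun p : ℕ × ℕ => coeff p.1 Rr * coeff p.2 f)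
            (fun p _ => mul_nonneg (hRrN _) (hfN _)) (a := (M + 1 - L0, L0)) ?_)
        · rw [hRr, coeff_trc, if_pos (by omega)]
          exact hrpos' _ (by omega)
        · exact hpos L0 le_rfl (by omega)
        · rw [HasAntidiagonal.mem_antidiagonal]
          simp only
          omega
      exact h2.ne' h1
    · rw [hRr, coeff_trc, if_pos (by omega)]
      exact hrpos' _ (by omega)
    · rw [hRr, coeff_trc, if_pos (by omega)]
      exact hrpos' _ (by omega)
  · exact sub_mem (mul_mem hRrS hfS) (trc_mem_SubS (mul_mem hRrS hfS) M)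
  · exact sub_mem (mul_mem hRrF hfF) (trc_mem_Fins M _)
  · intro j
    rw [hcD']
    split_ifs
    · exact le_rfl
    · exact hRfN j
  · rw [hcD', if_pos (by omega)]

end Pool.Agent.Lib.MP_23a7d9_al
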