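import Pool.Agent.Lib.MP_23a7d9_al.Ideal
import Pool.Agent.Lib.MP_23a7d9_al.Renewal

/-!
The main construction over the reals.
-/

namespace Pool.Agent.Lib.MP_23a7d9_al

open PowerSeries Finset Matrix

/-- the polynomial `f` approximating the ideal function from below -/
lemma exists_f {S : Subring ℝ} (hdense : ∀ x y : ℝ, x < y → ∃ s ∈ S, x < s ∧ s < y)
    {F : ℝ⟦X⟧} {L0 : ℕ} (hF : ∀ n, L0 ≤ n → 0 < coeff n F) {R : ℝ} (hR : 0 < R)
    {K0 : ℕ} (hK0 : 4 ≤ ∑ n ∈ Finset.Ico L0 K0, coeff n F * R ^ n) :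
    ∃ (f : ℝ⟦X⟧) (K : ℕ), f ∈ SubS S ∧ f ∈ Fins ∧ f ∈ NNs ∧ 2 * L0 ≤ K ∧
      (∀ n, L0 ≤ n → n ≤ K → 0 < coeff n f ∧ coeff n f ≤ coeff n F / 2) ∧
      (∀ n, n < L0 → coeff n f = 0) ∧ (∀ n, K < n → coeff n f = 0) ∧
      1 ≤ ∑ n ∈ Finset.Icc L0 K, coeff n f * R ^ n := by
  have hx : ∀ n, ∃ x ∈ S, L0 ≤ n → coeff n F / 4 < x ∧ x < coeff n F / 2 := by
    intro n
    by_cases h : L0 ≤ n
    · obtain ⟨x, hx, h1, h2⟩ := hdense (coeff n F / 4) (coeff n F / 2) (by linarith [hF n h])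
      exact ⟨x, hx, fun _ => ⟨h1, h2⟩⟩
    · exact ⟨0, S.zero_mem, fun h1 => absurd h1 h⟩
  choose x hxS hx using hx
  set K := max (2 * L0) K0 with hK
  have hK1 : 2 * L0 ≤ K := le_max_left _ _
  have hK2 : K0 ≤ K := le_max_right _ _
  set f : ℝ⟦X⟧ := PowerSeries.mk fun n => if L0 ≤ n ∧ n ≤ K then x n else 0 with hf
  have hcf : ∀ n, coeff n f = if L0 ≤ n ∧ n ≤ K then x n else 0 := fun n => by
    rw [hf, coeff_mk]
  refine ⟨f, K, ?_, ?_, ?_, hK1, ?_, ?_, ?_, ?_⟩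
  · intro n
    rw [hcf]
    split_ifs
    · exact hxS n
    · exact S.zero_mem
  · exact ⟨K, fun n hn => by rw [hcf, if_neg (by omega)]⟩
  · intro n
    rw [hcf]
    split_ifs with h
    · have := (hx n h.1).1
      have := hF n h.1
      linarith
    · exact le_rfl
  · intro n h1 h2
    rw [hcf, if_pos ⟨h1, h2⟩]
    have := hx n h1
    have := hF n h1
    constructor <;> linarith
  · intro n hn
    rw [hcf, if_neg (by omega)]
  · intro n hn
    rw [hcf, if_neg (by omega)]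
  · have h1 : ∑ n ∈ Finset.Ico L0 K0, coeff n F / 4 * R ^ n ≤
        ∑ n ∈ Finset.Icc L0 K, coeff n f * R ^ n := by
      calc ∑ n ∈ Finset.Ico L0 K0, coeff n F / 4 * R ^ n
          ≤ ∑ n ∈ Finset.Icc L0 K, coeff n F / 4 * R ^ n := by
            refine Finset.sum_le_sum_of_subset_of_nonneg ?_ fun n hn _ => ?_
            · intro n hn
              rw [Finset.mem_Ico] at hn
              rw [Finset.mem_Icc]
              omega
            · rw [Finset.mem_Icc] at hn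
              have := hF n hn.1
              positivity
        _ ≤ _ := by
            refine Finset.sum_le_sum fun n hn => ?_
            rw [Finset.mem_Icc] at hn
            refine mul_le_mul_of_nonneg_right ?_ (by positivity)
            rw [hcf, if_pos hn]
            exact (hx n hn.1).1.le
    have h2 : ∑ n ∈ Finset.Ico L0 K0, coeff n F / 4 * R ^ n =
        (∑ n ∈ Finset.Ico L0 K0, coeff n F * R ^ n) / 4 := by
      rw [Finset.sum_div]
      exact Finset.sum_congr rfl fun n _ => by ring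
    linarith

lemma f_pow_coeff {f : ℝ⟦X⟧} (hf : f ∈ NNs) (L : ℕ) (n : ℕ) :
    (coeff L f) ^ n ≤ coeff (n * L) (f ^ n) := by
  induction n with
  | zero => simp
  | succ n ih =>
    rw [pow_succ, pow_succ, coeff_mul]
    have h1 : (coeff L f) ^ n * coeff L f ≤ coeff (n * L) (f ^ n) * coeff L f :=
      mul_le_mul_of_nonneg_right ih (hf L)
    refine h1.trans ?_
    refine Finset.single_le_sum (f := fun p : ℕ × ℕ => coeff p.1 (f ^ n) * coeff p.2 f)
      (fun p _ => mul_nonneg ((pow_mem hf n : f ^ n ∈ NNs) _) (hf _)) (a := (n * L, L)) ?_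
    rw [HasAntidiagonal.mem_antidiagonal]
    simp only
    ring

theorem real_main {S : Subring ℝ} (hdense : ∀ x y : ℝ, x < y → ∃ s ∈ S, x < s ∧ s < y)
    {p s : ℝ⟦X⟧} (hpS : p ∈ SubS S) (hpF : p ∈ Fins) (hp0 : coeff 0 p = 1) (hLD : LD p s)
    (hs0 : ∀ k, 0 ≤ coeff k s)
    (htr : ∀ k, 0 < k → 0 < coeff k s → ∀ n, 0 < n → 0 < coeff (k * n) s)
    {lam θ : ℝ} (hlam : 0 < lam) (hθ0 : 0 < θ) (hθ1 : θ < 1) {L1 : ℕ}
    (hs : ∀ k, L1 ≤ k → |coeff k s - lam ^ k| ≤ 1 / 4 * (θ * lam) ^ k) :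
    ∃ (V : Type) (_ : Fintype V) (_ : DecidableEq V) (B : Matrix V V ℝ),
      (∀ i j, B i j ∈ S) ∧ (∀ i j, 0 ≤ B i j) ∧ (∃ m, 0 < m ∧ ∀ i j, 0 < (B ^ m) i j) ∧
      (1 - (X : ℝ⟦X⟧) • B.map (C : ℝ → ℝ⟦X⟧)).det = p := by
  obtain ⟨L0, R, CG, CF, F, T, hL0, hR, hLDF, hG, hTlow, hCG, hFlow, hFpos, hCF, K0, hK0⟩ :=
    ideal hlam hθ0 hθ1 hs hs0
  obtain ⟨f, K, hfS, hfF, hfN, hK, hf1, hflow, hfhigh, hfsum⟩ := exists_f hdense hFpos hR hK0
  obtain ⟨c, hc, hbase⟩ := base_sys ⟨hfS, hfF, hfN⟩ (show 0 < L0 by omega) hK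
    (fun n h1 h2 => (hf1 n h1 h2).1) hflow hfhigh hR hfsum
  set δ : ℝ := coeff L0 F / 4 with hδ
  have hδ0 : 0 < δ := by have := hFpos L0 le_rfl; positivity
  obtain ⟨N1, hN1⟩ := hCF.tail hR.le (δ := δ / 4 * c * R ^ L0) (by positivity)
  set n1 : ℕ := max K N1 with hn1
  have hn1K : K ≤ n1 := le_max_left _ _
  have hn1N : N1 ≤ n1 := le_max_right _ _
  -- the accuracy
  obtain ⟨η, ⟨hη1, hη2⟩, hη⟩ : ∃ η : ℝ, (1 * η ≤ δ / 4 * c * R ^ L0 ∧
      ∀ n ∈ Finset.Icc L0 n1, 1 * η ≤ coeff n F / 4 * R ^ n) ∧ 0 < η := by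
    have hev : ∀ᶠ η in nhdsWithin (0 : ℝ) (Set.Ioi 0), (1 * η ≤ δ / 4 * c * R ^ L0 ∧
      ∀ n ∈ Finset.Icc L0 n1, 1 * η ≤ coeff n F / 4 * R ^ n) ∧ 0 < η := by
      refine ((ev_small _ (by positivity)).and ((Filter.eventually_all_finset _).2 ?_)).and ?_
      · intro n hn
        rw [Finset.mem_Icc] at hn
        have := hFpos n hn.1
        exact ev_small _ (by positivity)
      · exact Filter.eventually_iff_exists_mem.2 ⟨Set.Ioi 0, self_mem_nhdsWithin, fun _ h => h⟩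
    exact hev.exists
  rw [one_mul] at hη1
  have hP1 : Bd R (1 - F) (1 + CF) := Bd_one.sub hR.le hCF
  have hCF0 := hCF.nonneg
  obtain ⟨M, hM1, hM2, hM0⟩ : ∃ M : ℝ, (1 + CF) * (2 * M) ≤ η / 2 ∧ M ≤ 1 / 2 ∧ 0 < M := by
    refine ⟨min (1 / 2) (η / 4 / (1 + CF)), ?_, min_le_left _ _, by positivity⟩
    have h1 : min (1 / 2) (η / 4 / (1 + CF)) ≤ η / 4 / (1 + CF) := min_le_right _ _
    have h2 : min (1 / 2) (η / 4 / (1 + CF)) * (1 + CF) ≤ η / 4 := by
      rwa [← le_div_iff₀ (by positivity)]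
    linarith
  have hGs : ∀ k, k ≤ L0 - 1 → coeff k (s - T) = coeff k s := by
    intro k hk
    rw [map_sub, hTlow k (by omega), sub_zero]
  obtain ⟨L, hL⟩ := loops_exist hdense hpS hp0 hLD hs0 htr hG hGs hR hCG hM0
  -- the loop size
  obtain ⟨ρ, ⟨hρ1, hρ2, hρ3⟩, hρ⟩ : ∃ ρ : ℝ, (1 * ρ ≤ 1 ∧ (1 + R) ^ L * ρ ≤ 1 / 2 ∧
      ∀ n ∈ range (L + 1), 2 * ρ ≤ (coeff L0 f) ^ n) ∧ 0 < ρ := by
    have hev : ∀ᶠ ρ in nhdsWithin (0 : ℝ) (Set.Ioi 0), (1 * ρ ≤ 1 ∧ (1 + R) ^ L * ρ ≤ 1 / 2 ∧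
      ∀ n ∈ range (L + 1), 2 * ρ ≤ (coeff L0 f) ^ n) ∧ 0 < ρ := by
      refine ((ev_small _ one_pos).and ((ev_small _ (by norm_num)).and
        ((Filter.eventually_all_finset _).2 ?_))).and ?_
      · intro n _
        have := (hf1 L0 le_rfl (by omega)).1
        exact ev_small _ (by positivity)
      · exact Filter.eventually_iff_exists_mem.2 ⟨Set.Ioi 0, self_mem_nhdsWithin, fun _ h => h⟩
    exact hev.exists
  rw [one_mul] at hρ1
  obtain ⟨ls, hls, hsig, hΔ⟩ := hL ρ hρ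
  -- the loops satisfy the requirements for peeling
  have hpeel : ∀ q ∈ ls, q.1 ∈ S ∧ 0 < q.1 ∧ 0 < q.2 ∧ q.1 * R ^ q.2 ≤ 1 / 2 ∧
      ∃ m k : ℕ, 0 < k ∧ 2 * q.1 ^ m ≤ coeff (q.2 * m) (f ^ k) := by
    intro q hq
    obtain ⟨a1, a2, a3, a4, a5⟩ := hls q hq
    refine ⟨a1, a2, a4, ?_, L0, q.2, a4, ?_⟩
    · have h9 : R ^ q.2 ≤ (1 + R) ^ L :=
        (pow_le_pow_left₀ hR.le (by linarith) _).trans (pow_le_pow_right₀ (by linarith) a5)
      calc q.1 * R ^ q.2 ≤ ρ * (1 + R) ^ L := mul_le_mul a3 h9 (by positivity) hρ.le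
        _ = (1 + R) ^ L * ρ := mul_comm _ _
        _ ≤ _ := hρ2
    · refine le_trans ?_ (f_pow_coeff hfN L0 q.2)
      refine le_trans ?_ (hρ3 q.2 (Finset.mem_range.2 (by omega)))
      have h1 : q.1 ^ L0 ≤ q.1 ^ 1 :=
        pow_le_pow_of_le_one a2.le (a3.trans hρ1) (by omega)
      rw [pow_one] at h1
      linarith
  set P : ℝ⟦X⟧ := p * geoprod ls with hP
  have hposl : ∀ q ∈ ls, 0 < q.2 := fun q hq => (hls q hq).2.2.2.1
  have hLDP : LD P (s + -sig ls) := hLD.mul (LD_geoprod ls hposl)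
  have hP0 : coeff 0 P = 1 := by
    have h4 := coeff_zero_geoprod ls
    rw [hP]
    simp only [coeff_zero_eq_constantCoeff_apply, map_mul] at h4 hp0 ⊢
    rw [h4, hp0, one_mul]
  have hPlow : ∀ k, 0 < k → k < L0 → coeff k P = 0 := by
    refine hLDP.coeff_eq_zero_of_alpha fun k hk => ?_
    rw [map_add, map_neg, hsig k (by omega), add_neg_cancel]
  -- comparison with the ideal function
  have hFinv0 : coeff 0 (1 - F) = 1 := by
    rw [map_sub, hFlow 0 (by omega), coeff_one, if_pos rfl, sub_zero]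
  have hFinv : (1 - F) * (1 - F)⁻¹ = 1 := PowerSeries.mul_inv_cancel _ (by
    rw [coeff_zero_eq_constantCoeff_apply] at hFinv0
    rw [hFinv0]; exact one_ne_zero)
  have hFne : (1 - F) ≠ 0 := by
    intro h
    rw [h, map_zero] at hFinv0
    exact zero_ne_one hFinv0
  set E : ℝ⟦X⟧ := (1 - F)⁻¹ * P with hE
  have hFE : (1 - F) * E = P := by
    rw [hE]
    linear_combination P * hFinv
  have hE0 : coeff 0 E = 1 := by
    have h1 := congrArg (coeff 0) hFE
    rw [hP0] at h1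
    simp only [coeff_zero_eq_constantCoeff_apply, map_mul] at h1 hFinv0 ⊢
    rw [hFinv0, one_mul] at h1
    exact h1
  have hLDE : LD E (s - T - sig ls) := by
    have h1 := theta_of_LD_mul hLDF (by rw [hFE]; exact hLDP) hFne
    have h2 : s + -sig ls - T = s - T - sig ls := by ring
    rwa [h2] at h1
  have hEB := hLDE.close_one hR hE0 hΔ hM2
  have hPB : Bd R (P - (1 - F)) (η / 2) := by
    have h1 := (hP1.mul hR.le hEB).mono hM1
    have h2 : (1 - F) * (E - 1) = P - (1 - F) := by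
      linear_combination hFE
    rwa [h2] at h1
  -- peel
  obtain ⟨P0, hP0S, hP0F, hP0low, hP0B, hch⟩ := peel_list hdense
    ⟨hfS, hfF, hfN, hflow 0 (by omega)⟩ hR (ls.length + L0 + 2) ls hpeel p hpS hpF (η / 2)
    (by positivity)
  rw [← hP] at hP0low hP0B
  set F' : ℝ⟦X⟧ := 1 - P0 with hF'
  have hF'0 : ∀ j, j < L0 → coeff j F' = 0 := by
    intro j hj
    rw [hF', map_sub, hP0low j (by omega), coeff_one]
    rcases Nat.eq_zero_or_pos j with rfl | hj0
    · rw [hP0, if_pos rfl, sub_self]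
    · rw [hPlow j hj0 hj, if_neg hj0.ne', sub_self]
  have hF'B : Bd R (F' - F) η := by
    have h1 := (hP0B.add hR.le hPB).mono (show η / 2 + η / 2 ≤ η by linarith)
    refine h1.of_le hR.le fun n => le_of_eq ?_
    rw [← abs_neg, ← map_neg]
    congr 2
    rw [hF']; ring
  have hF'n : ∀ n, L0 ≤ n → n ≤ n1 → |coeff n F' - coeff n F| ≤ coeff n F / 4 := by
    intro n h1 h2
    have h3 := hF'B.coeff_le hR.le n
    have h4 := hη2 n (Finset.mem_Icc.2 ⟨h1, h2⟩)
    rw [map_sub] at h3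
    have h5 : 0 < R ^ n := by positivity
    have h6 : |coeff n F' - coeff n F| * R ^ n ≤ coeff n F / 4 * R ^ n := by linarith
    exact le_of_mul_le_mul_right h6 h5
  have hsys : Sys S f 0 (1 - F') := by
    refine hbase F' δ n1 (sub_mem (one_mem _) hP0S) (sub_mem (one_mem _) hP0F) hδ0 hn1K hF'0
      ?_ ?_ ?_
    · intro j hj
      rcases Nat.lt_or_ge j L0 with h1 | h1
      · rw [hflow j h1, hF'0 j h1]
      · have h2 := hF'n j h1 hj
        have h3 := hFpos j h1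
        rw [abs_le] at h2
        rcases Nat.lt_or_ge K j with h4 | h4
        · rw [hfhigh j h4]
          linarith [h2.1]
        · have h5 := (hf1 j h1 h4).2
          linarith [h2.1]
    · have h2 := hF'n L0 le_rfl (by omega)
      rw [abs_le] at h2
      have h5 := (hf1 L0 le_rfl (by omega)).2
      linarith [h2.1]
    · intro N
      have h1 := hN1 (n1 + 1) (by omega) N
      have h2 : ∑ j ∈ Finset.Ico (n1 + 1) N, |coeff j (F' - F)| * R ^ j ≤ η := by
        refine le_trans ?_ (hF'B N)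
        unfold nrm
        refine Finset.sum_le_sum_of_subset_of_nonneg ?_ fun _ _ _ => by positivity
        intro j hj
        rw [Finset.mem_Ico] at hj
        exact Finset.mem_range.2 hj.2
      have h3 : ∑ j ∈ Finset.Ico (n1 + 1) N, |coeff j F'| * R ^ j ≤
          ∑ j ∈ Finset.Ico (n1 + 1) N, |coeff j F| * R ^ j +
          ∑ j ∈ Finset.Ico (n1 + 1) N, |coeff j (F' - F)| * R ^ j := by
        rw [← Finset.sum_add_distrib]
        refine Finset.sum_le_sum fun j _ => ?_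
        rw [← add_mul]
        refine mul_le_mul_of_nonneg_right ?_ (by positivity)
        rw [map_sub]
        have h4 : coeff j F' = coeff j F + (coeff j F' - coeff j F) := by ring
        calc |coeff j F'| = |coeff j F + (coeff j F' - coeff j F)| := by rw [← h4]
          _ ≤ _ := abs_add_le _ _
      linarith
  have hsys0 : Sys S f 0 P0 := by
    have : 1 - F' = P0 := by rw [hF']; ring
    rwa [this] at hsys
  have hP00 : coeff 0 P0 = 1 := by rw [hP0low 0 (by omega), hP0]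
  exact (hch.sys hsys0 hP00 (by omega)).1.realize

end Pool.Agent.Lib.MP_23a7d9_al
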