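import Pool.Agent.Lib.MP_23a7d9_al.Mat
import Pool.Agent.Lib.MP_23a7d9_al.Prim

/-!
From a polynomial matrix to a matrix over `S` with the same `det (1 - X B)`.
-/

namespace Pool.Agent.Lib.MP_23a7d9_al

open PowerSeries Finset Matrix

lemma expand_series {F : ℝ⟦X⟧} {D : ℕ} (hD : 1 ≤ D) (h0 : coeff 0 F = 0)
    (h1 : ∀ n, D < n → coeff n F = 0) :
    F = X * C (coeff 1 F) + ∑ a ∈ Finset.range (D - 1), X * C (coeff (a + 2) F) * X ^ (a + 1) := by
  have h2 : ∀ (c : ℝ) (a : ℕ), X * C c * X ^ a = C c * (X : ℝ⟦X⟧) ^ (a + 1) := by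
    intro c a; ring
  have h3 : ∀ (c : ℝ), X * C c = C c * (X : ℝ⟦X⟧) ^ 1 := by
    intro c; ring
  ext n
  rw [h3, map_add, map_sum]
  simp only [h2, coeff_C_mul, coeff_X_pow]
  rcases Nat.lt_or_ge n 2 with hn | hn
  · have h4 : ∑ x ∈ Finset.range (D - 1), coeff (x + 2) F * (if n = x + 1 + 1 then (1 : ℝ) else 0) = 0 := by
      refine Finset.sum_eq_zero fun x _ => ?_
      rw [if_neg (by omega), mul_zero]
    rw [h4]
    rcases Nat.eq_zero_or_pos n with rfl | hn0
    · simp [h0]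
    · have : n = 1 := by omega
      subst this
      simp
  · rw [if_neg (by omega), mul_zero, zero_add]
    rcases Nat.lt_or_ge D n with hDn | hDn
    · rw [h1 n hDn]
      symm
      refine Finset.sum_eq_zero fun x hx => ?_
      rw [Finset.mem_range] at hx
      rw [if_neg (by omega), mul_zero]
    · rw [Finset.sum_eq_single (n - 2)]
      · rw [if_pos (by omega), mul_one, Nat.sub_add_cancel hn]
      · intro x _ hx
        rw [if_neg (by omega), mul_zero]
      · intro h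
        rw [Finset.mem_range] at h
        omega

section

variable {ι : Type} [Fintype ι] [DecidableEq ι] (A : Matrix ι ι ℝ⟦X⟧) (d : ι → ℕ)

/-- the subdivided vertices -/
abbrev Lev : Type := Σ j : ι, Fin (d j - 1)

/-- the matrix on the subdivided graph -/
noncomputable def Bmat : Matrix (ι ⊕ Lev d) (ι ⊕ Lev d) ℝ :=
  Matrix.fromBlocks (Matrix.of fun i j => coeff 1 (A i j))
    (Matrix.of fun i x => coeff (x.2.1 + 2) (A i x.1))
    (Matrix.of fun x j => if x.1 = j ∧ x.2.1 = 0 then 1 else 0)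
    (Matrix.of fun x y => if x.1 = y.1 ∧ x.2.1 = y.2.1 + 1 then 1 else 0)

/-- column operations -/
noncomputable def Vmat : Matrix (Lev d) ι ℝ⟦X⟧ :=
  Matrix.of fun x j => if x.1 = j then X ^ (x.2.1 + 1) else 0

noncomputable def M11 : Matrix ι ι ℝ⟦X⟧ := 1 - Matrix.of fun i j => X * C (coeff 1 (A i j))
noncomputable def M12 : Matrix ι (Lev d) ℝ⟦X⟧ :=
  -Matrix.of fun i x => X * C (coeff (x.2.1 + 2) (A i x.1))
noncomputable def M21 : Matrix (Lev d) ι ℝ⟦X⟧ :=
  -Matrix.of fun x j => if x.1 = j ∧ x.2.1 = 0 then X else 0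
noncomputable def M22 : Matrix (Lev d) (Lev d) ℝ⟦X⟧ :=
  1 - Matrix.of fun x y => if x.1 = y.1 ∧ x.2.1 = y.2.1 + 1 then X else 0

omit [Fintype ι] in
lemma one_sub_Bmat : 1 - (X : ℝ⟦X⟧) • (Bmat A d).map (C : ℝ → ℝ⟦X⟧) =
    Matrix.fromBlocks (M11 A) (M12 A d) (M21 d) (M22 d) := by
  ext1 i j
  rcases i with i | i <;> rcases j with j | j
  · simp [Bmat, M11, Matrix.one_apply]
  · simp [Bmat, M12]
  · simp only [Bmat, M21, Matrix.sub_apply, Matrix.smul_apply, Matrix.map_apply,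
      Matrix.fromBlocks_apply₂₁, Matrix.of_apply, Matrix.neg_apply, Matrix.one_apply]
    rw [if_neg (by simp)]
    split_ifs <;> simp
  · simp only [Bmat, M22, Matrix.sub_apply, Matrix.smul_apply, Matrix.map_apply,
      Matrix.fromBlocks_apply₂₂, Matrix.of_apply, Matrix.one_apply, Sum.inr.injEq]
    congr 1
    split_ifs <;> simp

lemma sum_lev_eq (j : ι) (g : Lev d → ℝ⟦X⟧) :
    ∑ x : Lev d, g x * (Vmat d) x j = ∑ a : Fin (d j - 1), g ⟨j, a⟩ * X ^ (a.1 + 1) := by
  rw [Fintype.sum_sigma]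
  rw [Finset.sum_eq_single j]
  · refine Finset.sum_congr rfl fun a _ => ?_
    simp [Vmat]
  · intro j' _ hj'
    refine Finset.sum_eq_zero fun a _ => ?_
    simp [Vmat, hj']
  · intro h; exact absurd (Finset.mem_univ j) h

lemma top_left (h0 : ∀ i j, coeff 0 (A i j) = 0) (hd : ∀ i j n, d j < n → coeff n (A i j) = 0)
    (hd1 : ∀ j, 1 ≤ d j) : M11 A + M12 A d * Vmat d = 1 - A := by
  refine Matrix.ext fun i j => ?_
  rw [Matrix.add_apply, Matrix.mul_apply, sum_lev_eq d j]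
  have h1 := expand_series (hd1 j) (h0 i j) (hd i j)
  rw [← Fin.sum_univ_eq_sum_range
    (fun a => X * C (coeff (a + 2) (A i j)) * X ^ (a + 1)) (d j - 1)] at h1
  simp only [M11, M12, Matrix.sub_apply, Matrix.of_apply, Matrix.neg_apply, neg_mul,
    Finset.sum_neg_distrib]
  linear_combination h1

lemma bottom_left : M21 d + M22 d * Vmat d = 0 := by
  refine Matrix.ext fun x j => ?_
  rw [Matrix.add_apply, Matrix.mul_apply, sum_lev_eq d j]
  obtain ⟨i, a⟩ := x
  simp only [M21, M22, Matrix.sub_apply, Matrix.of_apply, Matrix.neg_apply, Matrix.zero_apply,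
    Matrix.one_apply, sub_mul, Finset.sum_sub_distrib]
  by_cases hij : i = j
  · subst hij
    have h1 : ∑ x : Fin (d i - 1), (if (⟨i, a⟩ : Lev d) = ⟨i, x⟩ then 1 else 0) * (X : ℝ⟦X⟧) ^ (x.1 + 1)
        = X ^ (a.1 + 1) := by
      rw [Finset.sum_eq_single a]
      · simp
      · intro b _ hb
        rw [if_neg (by simpa using hb.symm), zero_mul]
      · intro h; exact absurd (Finset.mem_univ a) h
    rw [h1]
    rcases Nat.eq_zero_or_pos a.1 with h2 | h2
    · have h3 : ∑ x : Fin (d i - 1), (if i = i ∧ a.1 = x.1 + 1 then X else 0) * (X : ℝ⟦X⟧) ^ (x.1 + 1)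
          = 0 := by
        refine Finset.sum_eq_zero fun b _ => ?_
        rw [if_neg (by omega), zero_mul]
      rw [h3, if_pos ⟨rfl, h2⟩, h2]
      ring
    · have h3 : ∑ x : Fin (d i - 1), (if i = i ∧ a.1 = x.1 + 1 then X else 0) * (X : ℝ⟦X⟧) ^ (x.1 + 1)
          = X * X ^ a.1 := by
        have ha : a.1 - 1 < d i - 1 := by have := a.2; omega
        rw [Finset.sum_eq_single ⟨a.1 - 1, ha⟩]
        · rw [if_pos ⟨rfl, by simp; omega⟩]
          simp only
          rw [Nat.sub_add_cancel h2]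
        · intro b _ hb
          rw [if_neg, zero_mul]
          rintro ⟨_, h4⟩
          exact hb (Fin.ext (by simp; omega))
        · intro h; exact absurd (Finset.mem_univ _) h
      rw [h3, if_neg (by omega)]
      ring
  · have h1 : ∑ x : Fin (d j - 1), (if (⟨i, a⟩ : Lev d) = ⟨j, x⟩ then 1 else 0) * (X : ℝ⟦X⟧) ^ (x.1 + 1)
        = 0 := by
      refine Finset.sum_eq_zero fun b _ => ?_
      rw [if_neg, zero_mul]
      intro h
      exact hij (congrArg Sigma.fst h)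
    rw [h1, if_neg (by simp [hij])]
    have h3 : ∑ x : Fin (d j - 1), (if i = j ∧ a.1 = x.1 + 1 then X else 0) * (X : ℝ⟦X⟧) ^ (x.1 + 1)
          = 0 := by
      refine Finset.sum_eq_zero fun b _ => ?_
      rw [if_neg (by simp [hij]), zero_mul]
    rw [h3]; ring

lemma det_M22 : (M22 d).det = 1 := by
  have hbt : (M22 d).BlockTriangular (fun x => OrderDual.toDual x.2.1) := by
    intro x y hxy
    have h1 : x.2.1 < y.2.1 := hxy
    simp only [M22, Matrix.sub_apply, Matrix.of_apply, Matrix.one_apply]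
    rw [if_neg (by rintro rfl; exact lt_irrefl _ h1), if_neg (by omega), sub_zero]
  rw [hbt.det]
  refine Finset.prod_eq_one fun a _ => ?_
  have h2 : (M22 d).toSquareBlock (fun x => OrderDual.toDual x.2.1) a = 1 := by
    refine Matrix.ext fun x y => ?_
    obtain ⟨x, hx⟩ := x
    obtain ⟨y, hy⟩ := y
    have hxy : x.2.1 = y.2.1 := by
      have := hx.trans hy.symm
      exact this
    simp only [Matrix.toSquareBlock_def, Matrix.of_apply, M22, Matrix.sub_apply, Matrix.one_apply,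
      Subtype.mk.injEq]
    rw [if_neg (c := x.1 = y.1 ∧ x.2.1 = y.2.1 + 1) (by omega), sub_zero]
  rw [h2, Matrix.det_one]

lemma det_Bmat (h0 : ∀ i j, coeff 0 (A i j) = 0) (hd : ∀ i j n, d j < n → coeff n (A i j) = 0)
    (hd1 : ∀ j, 1 ≤ d j) :
    (1 - (X : ℝ⟦X⟧) • (Bmat A d).map (C : ℝ → ℝ⟦X⟧)).det = (1 - A).det := by
  have h1 : (1 - (X : ℝ⟦X⟧) • (Bmat A d).map (C : ℝ → ℝ⟦X⟧)) *
      Matrix.fromBlocks 1 0 (Vmat d) 1 = Matrix.fromBlocks (1 - A) (M12 A d) 0 (M22 d) := by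
    rw [one_sub_Bmat, Matrix.fromBlocks_multiply]
    simp only [Matrix.mul_one, Matrix.mul_zero, zero_add]
    rw [top_left A d h0 hd hd1, bottom_left d]
  have h2 := congrArg Matrix.det h1
  rw [Matrix.det_mul, Matrix.det_fromBlocks_zero₁₂, Matrix.det_fromBlocks_zero₂₁, det_M22] at h2
  simpa using h2


section prim

variable {A d}

omit [Fintype ι] in
lemma Bmat_nonneg (hN : ∀ i j, A i j ∈ NNs) : ∀ i j, 0 ≤ Bmat A d i j := by
  rintro (i | i) (j | j)
  · exact hN i j 1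
  · exact hN i j.1 _
  · simp only [Bmat, Matrix.fromBlocks_apply₂₁, Matrix.of_apply]
    split_ifs <;> norm_num
  · simp only [Bmat, Matrix.fromBlocks_apply₂₂, Matrix.of_apply]
    split_ifs <;> norm_num

omit [Fintype ι] in
lemma Bmat_mem {S : Subring ℝ} (hS : ∀ i j, A i j ∈ SubS S) : ∀ i j, Bmat A d i j ∈ S := by
  rintro (i | i) (j | j)
  · exact hS i j 1
  · exact hS i j.1 _
  · simp only [Bmat, Matrix.fromBlocks_apply₂₁, Matrix.of_apply]
    split_ifs
    · exact S.one_mem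
    · exact S.zero_mem
  · simp only [Bmat, Matrix.fromBlocks_apply₂₂, Matrix.of_apply]
    split_ifs
    · exact S.one_mem
    · exact S.zero_mem

/-- walk down from a subdivided vertex to its base vertex -/
lemma down (hN : ∀ i j, A i j ∈ NNs) (j : ι) : ∀ (a : ℕ) (ha : a < d j - 1),
    0 < ((Bmat A d) ^ (a + 1)) (Sum.inr ⟨j, ⟨a, ha⟩⟩) (Sum.inl j) := by
  intro a
  induction a with
  | zero =>
    intro ha
    rw [zero_add, pow_one]
    simp [Bmat]
  | succ a ih =>
    intro ha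
    have h1 := ih (by omega)
    have h2 : 0 < ((Bmat A d) ^ 1) (Sum.inr ⟨j, ⟨a + 1, ha⟩⟩) (Sum.inr ⟨j, ⟨a, by omega⟩⟩) := by
      rw [pow_one]
      simp [Bmat]
    have h3 := walk_add (Bmat_nonneg hN) h2 h1
    rwa [add_comm 1 (a + 1)] at h3

/-- walk down between subdivided vertices -/
lemma down' (hN : ∀ i j, A i j ∈ NNs) (j : ι) (a : ℕ) (ha : a < d j - 1) : ∀ (b : ℕ) (hb : a + b < d j - 1),
    0 < ((Bmat A d) ^ b) (Sum.inr ⟨j, ⟨a + b, hb⟩⟩) (Sum.inr ⟨j, ⟨a, ha⟩⟩) := by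
  intro b
  induction b with
  | zero =>
    intro hb
    simp
  | succ b ih =>
    intro hb
    have h1 := ih (by omega)
    have h2 : 0 < ((Bmat A d) ^ 1) (Sum.inr ⟨j, ⟨a + (b + 1), hb⟩⟩) (Sum.inr ⟨j, ⟨a + b, by omega⟩⟩) := by
      rw [pow_one]
      simp only [Bmat, Matrix.fromBlocks_apply₂₂, Matrix.of_apply]
      rw [if_pos ⟨trivial, rfl⟩]
      exact one_pos
    have h3 := walk_add (Bmat_nonneg hN) h2 h1
    rwa [add_comm 1 b] at h3

/-- an edge of the polynomial graph gives a walk of the right length -/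
lemma edge_walk (hN : ∀ i j, A i j ∈ NNs) (h0 : ∀ i j, coeff 0 (A i j) = 0)
    (hd : ∀ i j n, d j < n → coeff n (A i j) = 0) {i j : ι} {n : ℕ} (hn : 0 < coeff n (A i j)) :
    0 < ((Bmat A d) ^ n) (Sum.inl i) (Sum.inl j) := by
  have h1 : n ≠ 0 := by rintro rfl; rw [h0] at hn; exact lt_irrefl _ hn
  have h2 : n ≤ d j := by
    by_contra h
    rw [hd i j n (by omega)] at hn
    exact lt_irrefl _ hn
  rcases Nat.lt_or_ge n 2 with h3 | h3
  · have : n = 1 := by omega
    subst this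
    rw [pow_one]
    exact hn
  · obtain ⟨a, rfl⟩ : ∃ a, n = 1 + (a + 1) := ⟨n - 2, by omega⟩
    have h4 : 0 < ((Bmat A d) ^ 1) (Sum.inl i) (Sum.inr ⟨j, ⟨a, by omega⟩⟩) := by
      rw [pow_one]
      simp only [Bmat, Matrix.fromBlocks_apply₁₂, Matrix.of_apply]
      rwa [show 1 + (a + 1) = a + 2 by ring] at hn
    exact walk_add (Bmat_nonneg hN) h4 (down hN j a (by omega))

lemma reach_walk (hN : ∀ i j, A i j ∈ NNs) (h0 : ∀ i j, coeff 0 (A i j) = 0)
    (hd : ∀ i j n, d j < n → coeff n (A i j) = 0) {i j : ι}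
    (h : Relation.ReflTransGen (fun i j => A i j ≠ 0) i j) :
    ∃ n, 0 < ((Bmat A d) ^ n) (Sum.inl i) (Sum.inl j) := by
  induction h with
  | refl => exact ⟨0, by simp⟩
  | @tail b c _ h2 ih =>
    obtain ⟨n, hn⟩ := ih
    have h3 : ∃ m, coeff m (A b c) ≠ 0 := by
      by_contra h4
      push Not at h4
      exact h2 (PowerSeries.ext (by simpa using h4))
    obtain ⟨m, hm⟩ := h3
    exact ⟨n + m, walk_add (Bmat_nonneg hN) hn
      (edge_walk hN h0 hd (lt_of_le_of_ne (hN b c m) hm.symm))⟩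

end prim

end

/-- Realisation of the determinant by a primitive matrix over `S`. -/
theorem Sys.realize {S : Subring ℝ} {f P : ℝ⟦X⟧} {k : ℕ} (h : Sys S f k P) :
    ∃ (V : Type) (_ : Fintype V) (_ : DecidableEq V) (B : Matrix V V ℝ),
      (∀ i j, B i j ∈ S) ∧ (∀ i j, 0 ≤ B i j) ∧ (∃ m, 0 < m ∧ ∀ i j, 0 < (B ^ m) i j) ∧
      (1 - (X : ℝ⟦X⟧) • B.map (C : ℝ → ℝ⟦X⟧)).det = P := by
  obtain ⟨ι, _, _, b, φ, l, A, ζ, hbφ, hS, hF, hN, h0, hdet, hmul, hζb, hζφ, ⟨n, hn1, hn2⟩, hto,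
    hfrom⟩ := h
  classical
  choose D0 hD0 using hF
  set D : ℕ := ∑ i, ∑ j, D0 i j with hD
  have hDle : ∀ i j, D0 i j ≤ D := by
    intro i j
    have h1 : D0 i j ≤ ∑ j, D0 i j :=
      Finset.single_le_sum (f := fun j => D0 i j) (fun _ _ => Nat.zero_le _) (Finset.mem_univ j)
    have h2 : ∑ j, D0 i j ≤ D :=
      Finset.single_le_sum (f := fun i => ∑ j, D0 i j) (fun _ _ => Nat.zero_le _)
        (Finset.mem_univ i)
    omega
  set d : ι → ℕ := fun j => Nat.findGreatest (fun n => ∃ i, coeff n (A i j) ≠ 0) D with hd_def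
  have hd : ∀ i j n, d j < n → coeff n (A i j) = 0 := by
    intro i j n hn
    by_contra h1
    rcases Nat.lt_or_ge D n with h2 | h2
    · exact h1 (hD0 i j n (lt_of_le_of_lt (hDle i j) h2))
    · exact Nat.findGreatest_is_greatest hn h2 ⟨i, h1⟩
  -- every column has a nonzero entry
  have hcol : ∀ j, ∃ i, A i j ≠ 0 := by
    intro j
    rcases (Relation.ReflTransGen.cases_tail (hfrom j)) with h1 | ⟨c, _, h2⟩
    · subst h1
      refine ⟨j, fun h2 => ?_⟩
      rw [h2, map_zero] at hn1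
      exact lt_irrefl _ hn1
    · exact ⟨c, h2⟩
  have hspec : ∀ j, ∃ i, coeff (d j) (A i j) ≠ 0 := by
    intro j
    obtain ⟨i, hi⟩ := hcol j
    have h3 : ∃ m, coeff m (A i j) ≠ 0 := by
      by_contra h4
      push Not at h4
      exact hi (PowerSeries.ext (by simpa using h4))
    obtain ⟨m, hm⟩ := h3
    have hmD : m ≤ D := by
      by_contra h4
      exact hm (hD0 i j m (lt_of_le_of_lt (hDle i j) (not_le.1 h4)))
    exact Nat.findGreatest_spec (P := fun n => ∃ i, coeff n (A i j) ≠ 0) hmD ⟨i, hm⟩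
  have hd1 : ∀ j, 1 ≤ d j := by
    intro j
    obtain ⟨i, hi⟩ := hspec j
    by_contra h1
    have h2 : d j = 0 := by omega
    rw [h2] at hi
    exact hi (h0 i j)
  refine ⟨ι ⊕ Lev d, inferInstance, inferInstance, Bmat A d, Bmat_mem hS, Bmat_nonneg hN, ?_, ?_⟩
  · refine primitive_of_walks (Bmat_nonneg hN) (Sum.inl b) (n := n) (edge_walk hN h0 hd hn1)
      (edge_walk hN h0 hd hn2) ?_ ?_
    · rintro (i | ⟨i, a, ha⟩)
      · exact reach_walk hN h0 hd (hto i)
      · obtain ⟨m, hm⟩ := reach_walk hN h0 hd (hto i)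
        exact ⟨_, walk_add (Bmat_nonneg hN) (down hN i a ha) hm⟩
    · rintro (i | ⟨i, a, ha⟩)
      · exact reach_walk hN h0 hd (hfrom i)
      · obtain ⟨c, hc⟩ := hspec i
        obtain ⟨m, hm⟩ := reach_walk hN h0 hd (hfrom c)
        have h1 : d i - 2 < d i - 1 := by omega
        obtain ⟨e, he⟩ : ∃ e, d i - 2 = a + e := ⟨d i - 2 - a, by omega⟩
        have h2 : 0 < ((Bmat A d) ^ 1) (Sum.inl c) (Sum.inr ⟨i, ⟨a + e, by omega⟩⟩) := by
          rw [pow_one]
          simp only [Bmat, Matrix.fromBlocks_apply₁₂, Matrix.of_apply]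
          rw [show a + e + 2 = d i by omega]
          exact lt_of_le_of_ne (hN c i _) hc.symm
        exact ⟨_, walk_add (Bmat_nonneg hN) (walk_add (Bmat_nonneg hN) hm h2)
          (down' hN i a ha e (by omega))⟩
  · rw [det_Bmat A d h0 hd hd1, hdet]

end Pool.Agent.Lib.MP_23a7d9_al
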